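import Pool.Agent.H603R2.ClawRed

/-!
The program printing the instance computed by the reduction, and the correctness of the reduction.
-/

namespace Pool.Agent.H603R2

open SimpleGraph

theorem nested_range {α : Type} (K n : ℕ) (F : Tup → List α) :
    (List.range (dim K n)).flatMap (fun i => F (decT K n i)) =
    (List.range 7).flatMap fun t => (List.range (K + 1)).flatMap fun q =>
    (List.range (n + 2)).flatMap fun a => (List.range (K + 1)).flatMap fun r =>
    (List.range (n + 2)).flatMap fun b => (List.range 2).flatMap fun c =>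
      F ⟨t, q, a, r, b, c⟩ := by
  unfold dim
  rw [flatMap_range_mul]
  refine List.flatMap_congr fun t ht => ?_
  unfold dim1
  rw [flatMap_range_mul]
  refine List.flatMap_congr fun q hq => ?_
  unfold dim2
  rw [flatMap_range_mul]
  refine List.flatMap_congr fun a ha => ?_
  unfold dim3
  rw [flatMap_range_mul]
  refine List.flatMap_congr fun r hr => ?_
  unfold dim4
  rw [flatMap_range_mul]
  refine List.flatMap_congr fun b hb => ?_
  refine List.flatMap_congr fun c hc => ?_
  rw [List.mem_range] at ht hq ha hr hb hc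
  have := decT_encT (K := K) (n := n) (τ := ⟨t, q, a, r, b, c⟩) ⟨ht, hq, ha, hr, hb, hc⟩
  conv_rhs => rw [← this]
  rfl

/-- put a code into the registers -/
def Blk.set (v : Blk) (τ : Tup) (ρ : Fin 14 → ℕ) : Fin 14 → ℕ :=
  Function.update (Function.update (Function.update (Function.update (Function.update
    (Function.update ρ v.t τ.t) v.q τ.q) v.a τ.a) v.r τ.r) v.b τ.b) v.c τ.c

/-- loops over all codes -/
def loops (v : Blk) (e : Em 14) : Em 14 :=
  .loop v.t (cst 7) (.loop v.q ⟨some 0, 1⟩ (.loop v.a ⟨some 1, 2⟩ (.loop v.r ⟨some 0, 1⟩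
    (.loop v.b ⟨some 1, 2⟩ (.loop v.c (cst 2) e)))))

/-- registers of the first vertex -/
def B1 : Blk := ⟨2, 3, 4, 5, 6, 7⟩
/-- registers of the second vertex -/
def B2 : Blk := ⟨8, 9, 10, 11, 12, 13⟩

/-- the registers of the block are different from `0` and `1` -/
def Blk.good (v : Blk) : Prop :=
  (0 ≠ v.t ∧ 0 ≠ v.q ∧ 0 ≠ v.a ∧ 0 ≠ v.r ∧ 0 ≠ v.b ∧ 0 ≠ v.c) ∧
  (1 ≠ v.t ∧ 1 ≠ v.q ∧ 1 ≠ v.a ∧ 1 ≠ v.r ∧ 1 ≠ v.b ∧ 1 ≠ v.c)

theorem loops_out {K n : ℕ} (v : Blk) (hv : v.good) (e : Em 14) (M : List Bool)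
    (ρ : Fin 14 → ℕ) (h0 : ρ 0 = K) (h1 : ρ 1 = n) :
    (loops v e).out M ρ =
      (List.range (dim K n)).flatMap (fun i => e.out M (v.set (decT K n i) ρ)) := by
  obtain ⟨⟨a1, a2, a3, a4, a5, a6⟩, b1, b2, b3, b4, b5, b6⟩ := hv
  rw [nested_range K n (fun τ => e.out M (v.set τ ρ))]
  unfold loops
  simp only [Em.out, VE.val, Option.elim, cst, Nat.zero_add, Function.update_of_ne a1,
    Function.update_of_ne a2, Function.update_of_ne a3, Function.update_of_ne b1,
    Function.update_of_ne b2, Function.update_of_ne b3, Function.update_of_ne a4,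
    Function.update_of_ne b4, h0, h1]
  rfl

/-- a zero -/
def ff : Em 14 := .emit (.not .tt)

/-- prints the new parameter in unary -/
def emK : Em 14 := .seq (.loop 2 ⟨some 0, 0⟩ (.loop 3 ⟨some 0, 0⟩ (.seq (.emit .tt) (.emit .tt))))
  (.loop 2 ⟨some 0, 0⟩ (.emit .tt))

/-- prints the number of vertices in unary -/
def emN : Em 14 := loops B1 (.emit .tt)

/-- prints the adjacency matrix -/
def emM : Em 14 := loops B1 (loops B2 (.emit (fAdj B1 B2)))

/-- prints the new instance -/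
def clawEm : Em 14 := .seq emK (.seq ff (.seq emN (.seq ff emM)))

theorem clawEm_wf : clawEm.wf [1, 0] = true := by decide

theorem emK_out (M : List Bool) (ρ : Fin 14 → ℕ) :
    emK.out M ρ = List.replicate (budget (ρ 0)) true := by
  have e1 : ∀ A : ℕ, (List.range A).flatMap (fun _ => [true, true]) =
      List.replicate (A * 2) true := fun A => flatMap_const_replicate A 2 true
  have e2 : ∀ A : ℕ, (List.range A).flatMap (fun _ => [true]) =
      List.replicate (A * 1) true := fun A => flatMap_const_replicate A 1 true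
  simp only [emK, Em.out, VE.val, Option.elim, BE.val, List.singleton_append, Nat.add_zero]
  have hu : ∀ j, Function.update ρ 2 j 0 = ρ 0 := fun j => by
    rw [Function.update_of_ne (by decide)]
  simp only [hu]
  rw [e1, e2, flatMap_const_replicate, List.replicate_append_replicate]
  congr 1
  unfold budget
  ring

theorem emN_out {K n : ℕ} (M : List Bool) (ρ : Fin 14 → ℕ) (h0 : ρ 0 = K) (h1 : ρ 1 = n) :
    emN.out M ρ = List.replicate (dim K n) true := by
  unfold emN
  rw [loops_out B1 (by unfold Blk.good B1; decide) _ _ _ h0 h1]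
  have := flatMap_const_replicate (dim K n) 1 true
  rw [Nat.mul_one] at this
  exact this

variable {K n : ℕ} (Γ : SimpleGraph (Fin n))

theorem fEq_iff (v w : Blk) (ρ : Fin 14 → ℕ) (M : List Bool) :
    (fEq v w).val ρ M = true ↔ v.tup ρ = w.tup ρ := by
  unfold fEq Blk.tup
  simp only [BE.val_and, BE.val_eq, reg_val, Bool.and_eq_true, beq_iff_eq, Tup.mk.injEq]

theorem fAdj_iff (ρ : Fin 14 → ℕ) (h0 : ρ 0 = K) (h1 : ρ 1 = n)
    (i j : Fin (dim K n)) (hi : B1.tup ρ = decT K n i) (hj : B2.tup ρ = decT K n j) :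
    (fAdj B1 B2).val ρ (adjBits Γ) = true ↔ (newGraph Γ K).Adj i j := by
  have s1 := spec Γ K B1 ρ h0 h1
  have s2 := spec Γ K B2 ρ h0 h1
  rw [hi] at s1
  rw [hj] at s2
  unfold fAdj
  simp only [BE.val_and, BE.val_not, BE.val_or, Bool.and_eq_true, Bool.not_eq_true',
    Bool.or_eq_true]
  rw [fH_iff s1 s2, fH_iff s2 s1, Bool.eq_false_iff, ne_eq, fEq_iff, hi, hj]
  have e : decT K n i = decT K n j ↔ i = j := by
    constructor
    · intro h
      have := congrArg (encT K n) h
      rw [encT_decT, encT_decT] at this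
      exact Fin.ext this
    · intro h
      rw [h]
  rw [e]
  rfl

theorem emM_out (ρ : Fin 14 → ℕ) (h0 : ρ 0 = K) (h1 : ρ 1 = n) :
    emM.out (adjBits Γ) ρ = adjBits (newGraph Γ K) := by
  unfold emM
  rw [loops_out B1 (by unfold Blk.good B1; decide) _ _ _ h0 h1]
  have hs1 : ∀ (τ : Tup) (ρ : Fin 14 → ℕ), B1.set τ ρ 0 = ρ 0 ∧ B1.set τ ρ 1 = ρ 1 := by
    intro τ ρ
    constructor <;> simp [Blk.set, B1, Function.update_apply]
  have hs2 : ∀ (τ : Tup) (ρ : Fin 14 → ℕ), B2.set τ ρ 0 = ρ 0 ∧ B2.set τ ρ 1 = ρ 1 := by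
    intro τ ρ
    constructor <;> simp [Blk.set, B2, Function.update_apply]
  have ht1 : ∀ (τ τ' : Tup) (ρ : Fin 14 → ℕ), B1.tup (B2.set τ' (B1.set τ ρ)) = τ := by
    intro τ τ' ρ
    apply Tup.ext <;> simp [Blk.set, Blk.tup, B1, B2, Function.update_apply]
  have ht2 : ∀ (τ τ' : Tup) (ρ : Fin 14 → ℕ), B2.tup (B2.set τ' (B1.set τ ρ)) = τ' := by
    intro τ τ' ρ
    apply Tup.ext <;> simp [Blk.set, Blk.tup, B1, B2, Function.update_apply]
  rw [adjBits_eq (newGraph Γ K) (fun i j => (fAdj B1 B2).val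
    (B2.set (decT K n j) (B1.set (decT K n i) ρ)) (adjBits Γ))
    (fun i j => fAdj_iff Γ _ (by rw [(hs2 _ _).1, (hs1 _ _).1, h0])
      (by rw [(hs2 _ _).2, (hs1 _ _).2, h1]) i j (ht1 _ _ _) (ht2 _ _ _))]
  refine List.flatMap_congr fun i _ => ?_
  rw [loops_out B2 (by unfold Blk.good B2; decide) _ _ _ ((hs1 _ _).1.trans h0)
    ((hs1 _ _).2.trans h1)]
  rw [List.map_eq_flatMap]
  rfl

theorem clawEm_out (k n : ℕ) (Γ : SimpleGraph (Fin n)) :
    clawEm.out (adjBits Γ) (rho0 k n) =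
      inStr (budget k) (dim k n) (adjBits (newGraph Γ k)) := by
  have h0 : rho0 (m := 12) k n 0 = k := rfl
  have h1 : rho0 (m := 12) k n 1 = n := rfl
  have e : clawEm.out (adjBits Γ) (rho0 k n) = emK.out (adjBits Γ) (rho0 k n) ++
      ([false] ++ (emN.out (adjBits Γ) (rho0 k n) ++ ([false] ++
        emM.out (adjBits Γ) (rho0 k n)))) := rfl
  rw [e, emK_out, emN_out _ _ h0 h1, emM_out Γ _ h0 h1, h0]
  rfl

end Pool.Agent.H603R2
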