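import Pool.Agent.H603R2.Contr

/-!
The graph of the reduction from Clique to Claw-Free Contraction, in abstract form, and the
correctness of the reduction.
-/

namespace Pool.Agent.H603R2

open SimpleGraph

/-- The classes of vertices of the graph `G'` built from a graph on `Fin n` and a number `K`. -/
inductive Cls (K n : ℕ) : Type
  | C | S | Y | W | J
  | X (q : Fin K) (a : Fin n)
  | E (q r : Fin K) (a b : Fin n) (c : Fin 2)
  | P (q r : Fin K) (c : Fin 2)
  | Q (q : Fin K)
  deriving DecidableEq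

namespace Cls

variable {K n : ℕ}

/-- One half of the adjacency relation between the classes. -/
def half : Cls K n → Cls K n → Prop
  | C, C => True
  | S, S => True
  | Y, Y => True
  | W, W => True
  | X _ _, X _ _ => True
  | X _ _, W => True
  | X _ _, S => True
  | W, S => True
  | S, Y => True
  | C, E _ _ _ _ _ => True
  | W, E _ _ _ _ _ => True
  | E _ _ _ _ _, E _ _ _ _ _ => True
  | X q a, E q1 r1 a1 b1 _ => ¬ ((q = q1 ∧ a = a1) ∨ (q = r1 ∧ a = b1))
  | P q r c, E q1 r1 _ _ c1 => q = q1 ∧ r = r1 ∧ c = c1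
  | P _ _ _, S => True
  | P _ _ _, C => True
  | Q q, X q1 _ => q = q1
  | Q q, E q1 r1 _ _ _ => q = q1 ∨ q = r1
  | Q _, S => True
  | _, _ => False

/-- Adjacency between the classes. -/
def adj (x y : Cls K n) : Prop := half x y ∨ half y x

theorem adj_symm {x y : Cls K n} (h : adj x y) : adj y x := h.symm

/-- the classes of the special vertices -/
def sp : Cls K n → Bool
  | P _ _ _ => true
  | Q _ => true
  | _ => false

end Cls

/-- the relation used for the vertices of class `E` -/
def ERel {n : ℕ} (Γ : SimpleGraph (Fin n)) {K : ℕ} (q r : Fin K) (a b : Fin n) : Prop :=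
  if q = r then a = b else Γ.Adj a b

/-- the budget -/
def budget (K : ℕ) : ℕ := 2 * K * K + K

/-- `G` is a graph of the form used in the reduction. -/
structure Gadget {n : ℕ} (Γ : SimpleGraph (Fin n)) (K : ℕ) {V : Type} [Fintype V]
    [DecidableEq V] (G : SimpleGraph V) where
  cl : V → Cls K n
  adj : ∀ v w, G.Adj v w ↔ v ≠ w ∧ Cls.adj (cl v) (cl w)
  uX : ∀ v w q a, cl v = .X q a → cl w = .X q a → v = w
  uE : ∀ v w q r a b c, cl v = .E q r a b c → cl w = .E q r a b c → v = w
  uP : ∀ v w q r c, cl v = .P q r c → cl w = .P q r c → v = w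
  uQ : ∀ v w q, cl v = .Q q → cl w = .Q q → v = w
  eX : ∀ q a, ∃ v, cl v = .X q a
  eE : ∀ q r a b c, (∃ v, cl v = .E q r a b c) ↔ ERel Γ q r a b
  eP : ∀ q r c, ∃ v, cl v = .P q r c
  eQ : ∀ q, ∃ v, cl v = .Q q
  cC : 2 * budget K < (Finset.univ.filter fun v => cl v = .C).card
  cS : 2 * budget K < (Finset.univ.filter fun v => cl v = .S).card
  cY : 2 * budget K < (Finset.univ.filter fun v => cl v = .Y).card
  cW : 2 * budget K < (Finset.univ.filter fun v => cl v = .W).card

theorem mk_eq_iff_rep {V : Type*} {F : Set (Sym2 V)} (rep : V → V)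
    (h1 : ∀ v w, s(v, w) ∈ F → rep v = rep w)
    (h2 : ∀ v, (SimpleGraph.fromEdgeSet F).connectedComponentMk v =
      (SimpleGraph.fromEdgeSet F).connectedComponentMk (rep v)) (v w : V) :
    (SimpleGraph.fromEdgeSet F).connectedComponentMk v =
      (SimpleGraph.fromEdgeSet F).connectedComponentMk w ↔ rep v = rep w := by
  constructor
  · intro h
    rw [ConnectedComponent.eq] at h
    obtain ⟨p⟩ := h
    induction p with
    | nil => rfl
    | cons hadj _ ih =>
        rw [fromEdgeSet_adj] at hadj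
        exact (h1 _ _ hadj.1).trans ih
  · intro h
    rw [h2 v, h2 w, h]

namespace Gadget

variable {n : ℕ} {Γ : SimpleGraph (Fin n)} {K : ℕ} {V : Type} [Fintype V]
    [DecidableEq V] {G : SimpleGraph V} (g : Gadget Γ K G)

/-! ### From a clique to a contraction -/

/-- kinds of components -/
inductive Kd : Type
  | X | S | E0 | E1 | C | Y | J
  deriving DecidableEq

/-- possible adjacencies between components -/
def Kd.allowed : Kd → Kd → Bool
  | X, X => true | X, S => true | X, E0 => true | X, E1 => true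
  | S, X => true | S, S => true | S, E1 => true | S, Y => true
  | E0, X => true | E0, E0 => true | E0, E1 => true | E0, C => true
  | E1, X => true | E1, S => true | E1, E0 => true | E1, E1 => true | E1, C => true
  | C, E0 => true | C, E1 => true | C, C => true
  | Y, S => true | Y, Y => true
  | _, _ => false

/-- certain adjacencies between distinct components -/
def Kd.strong : Kd → Kd → Bool
  | X, X => true | X, S => true | X, E1 => true
  | S, X => true | S, S => true | S, E1 => true | S, Y => true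
  | E0, E0 => true | E0, E1 => true | E0, C => true
  | E1, X => true | E1, S => true | E1, E0 => true | E1, E1 => true | E1, C => true
  | C, E0 => true | C, E1 => true | C, C => true
  | Y, S => true | Y, Y => true
  | _, _ => false

/-- the cover of the neighbourhoods by two cliques -/
def Kd.col : Kd → Kd → Bool
  | S, S => true | S, Y => true | S, _ => false
  | _, X => false | _, S => false
  | _, _ => true

theorem Kd.cover : ∀ k0 k k' : Kd, Kd.allowed k0 k = true → Kd.allowed k0 k' = true →
    Kd.col k0 k = Kd.col k0 k' → Kd.strong k k' = true := by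
  intro k0 k k'
  cases k0 <;> cases k <;> cases k' <;> decide

section Forward

variable (f : Fin K → Fin n) (hf : ∀ q r, ERel Γ q r (f q) (f r))

include hf in
/-- the chosen vertices -/
theorem exists_chosen : ∃ (xq : Fin K → V) (ep : Fin K → Fin K → Fin 2 → V)
    (qu : Fin K → V) (pu : Fin K → Fin K → Fin 2 → V),
    (∀ q, g.cl (xq q) = .X q (f q)) ∧ (∀ q r c, g.cl (ep q r c) = .E q r (f q) (f r) c) ∧
    (∀ q, g.cl (qu q) = .Q q) ∧ (∀ q r c, g.cl (pu q r c) = .P q r c) := by
  choose xq hxq using fun q => g.eX q (f q)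
  choose ep hep using fun q r c => (g.eE q r (f q) (f r) c).2 (hf q r)
  choose qu hqu using g.eQ
  choose pu hpu using g.eP
  exact ⟨xq, ep, qu, pu, hxq, hep, hqu, hpu⟩

/-- the kind of the component of a vertex of the given class -/
def kdc (f : Fin K → Fin n) : Cls K n → Kd
  | .C => .C
  | .S => .S
  | .Y => .Y
  | .W => .X
  | .J => .J
  | .X _ _ => .X
  | .E q r a b _ => if a = f q ∧ b = f r then .E1 else .E0
  | .P _ _ _ => .E1
  | .Q _ => .X

theorem kdc_allowed {x y : Cls K n} (h : Cls.adj x y) :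
    Kd.allowed (kdc f x) (kdc f y) = true := by
  cases x <;> cases y <;> simp only [Cls.adj, Cls.half, or_self, or_false, false_or] at h <;>
    simp only [kdc] <;> (try split_ifs) <;> rfl

theorem kdc_strong {x y : Cls K n} (hx : x.sp = false) (hy : y.sp = false)
    (h : Kd.strong (kdc f x) (kdc f y) = true) :
    Cls.adj x y ∨ (∃ q r c, x = .E q r (f q) (f r) c ∧ (y = .S ∨ y = .X q (f q) ∨
      y = .X r (f r))) ∨ (∃ q r c, y = .E q r (f q) (f r) c ∧ (x = .S ∨ x = .X q (f q) ∨
      x = .X r (f r))) := by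
  cases x <;> cases y <;> simp only [Cls.sp, Bool.true_eq_false] at hx hy <;>
    simp only [kdc] at h <;> (try split_ifs at h) <;>
    first
    | exact absurd h (by decide)
    | exact Or.inl (Or.inl trivial)
    | exact Or.inl (Or.inr trivial)
    | skip
  · rename_i q r a b c hab
    obtain ⟨rfl, rfl⟩ := hab
    exact Or.inr (Or.inr ⟨q, r, c, rfl, Or.inl rfl⟩)
  · rename_i q' a' q r a b c hab
    obtain ⟨rfl, rfl⟩ := hab
    by_cases m : (q' = q ∧ a' = f q) ∨ (q' = r ∧ a' = f r)
    · rcases m with ⟨rfl, rfl⟩ | ⟨rfl, rfl⟩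
      · exact Or.inr (Or.inr ⟨_, r, c, rfl, Or.inr (Or.inl rfl)⟩)
      · exact Or.inr (Or.inr ⟨q, _, c, rfl, Or.inr (Or.inr rfl)⟩)
    · exact Or.inl (Or.inl m)
  · rename_i q r a b c hab
    obtain ⟨rfl, rfl⟩ := hab
    exact Or.inr (Or.inl ⟨q, r, c, rfl, Or.inl rfl⟩)
  · rename_i q r a b c q' a' hab
    obtain ⟨rfl, rfl⟩ := hab
    by_cases m : (q' = q ∧ a' = f q) ∨ (q' = r ∧ a' = f r)
    · rcases m with ⟨rfl, rfl⟩ | ⟨rfl, rfl⟩
      · exact Or.inr (Or.inl ⟨_, r, c, rfl, Or.inr (Or.inl rfl)⟩)
      · exact Or.inr (Or.inl ⟨q, _, c, rfl, Or.inr (Or.inr rfl)⟩)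
    · exact Or.inl (Or.inr m)

include g hf in
theorem forward : Contractible claw G (budget K) := by
  classical
  obtain ⟨xq, ep, qu, pu, hxq, hep, hqu, hpu⟩ := g.exists_chosen f hf
  -- the set of contracted edges
  let F : Finset (Sym2 V) := (Finset.univ.image fun q => s(qu q, xq q)) ∪
    (Finset.univ.image fun t : Fin K × Fin K × Fin 2 => s(pu t.1 t.2.1 t.2.2, ep t.1 t.2.1 t.2.2))
  have hFmem : ∀ e, e ∈ (F : Set (Sym2 V)) ↔ (∃ q, e = s(qu q, xq q)) ∨
      ∃ q r c, e = s(pu q r c, ep q r c) := by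
    intro e
    simp only [F, Finset.coe_union, Finset.coe_image, Finset.coe_univ, Set.image_univ,
      Set.mem_union, Set.mem_range, Prod.exists]
    constructor
    · rintro (⟨q, rfl⟩ | ⟨q, r, c, rfl⟩)
      · exact Or.inl ⟨q, rfl⟩
      · exact Or.inr ⟨q, r, c, rfl⟩
    · rintro (⟨q, rfl⟩ | ⟨q, r, c, rfl⟩)
      · exact Or.inl ⟨q, rfl⟩
      · exact Or.inr ⟨q, r, c, rfl⟩
  have adjQ : ∀ q, G.Adj (qu q) (xq q) := fun q => by
    rw [g.adj]
    refine ⟨fun h => ?_, ?_⟩
    · have := congrArg g.cl h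
      rw [hqu, hxq] at this
      cases this
    · rw [hqu, hxq]
      exact Or.inl rfl
  have adjP : ∀ q r c, G.Adj (pu q r c) (ep q r c) := fun q r c => by
    rw [g.adj]
    refine ⟨fun h => ?_, ?_⟩
    · have := congrArg g.cl h
      rw [hpu, hep] at this
      cases this
    · rw [hpu, hep]
      exact Or.inl ⟨rfl, rfl, rfl⟩
  refine ⟨F, ?_, ?_, ?_⟩
  · intro e he
    rw [hFmem] at he
    rcases he with ⟨q, rfl⟩ | ⟨q, r, c, rfl⟩
    · exact adjQ q
    · exact adjP q r c
  · refine (Finset.card_union_le _ _).trans ?_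
    refine (Nat.add_le_add Finset.card_image_le Finset.card_image_le).trans ?_
    simp only [Finset.card_univ, Fintype.card_fin, Fintype.card_prod, budget]
    apply le_of_eq
    ring
  · -- representatives of the components
    set M := (SimpleGraph.fromEdgeSet (F : Set (Sym2 V))).connectedComponentMk with hM
    have mkQ : ∀ q, M (qu q) = M (xq q) := fun q => by
      rw [hM, ConnectedComponent.eq]
      apply Adj.reachable
      rw [fromEdgeSet_adj]
      exact ⟨(hFmem _).2 (Or.inl ⟨q, rfl⟩), (adjQ q).ne⟩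
    have mkP : ∀ q r c, M (pu q r c) = M (ep q r c) := fun q r c => by
      rw [hM, ConnectedComponent.eq]
      apply Adj.reachable
      rw [fromEdgeSet_adj]
      exact ⟨(hFmem _).2 (Or.inr ⟨q, r, c, rfl⟩), (adjP q r c).ne⟩
    let rep : V → V := fun v => match g.cl v with
      | .Q q => xq q
      | .P q r c => ep q r c
      | _ => v
    have repQ : ∀ v q, g.cl v = .Q q → rep v = xq q := fun v q h => by simp only [rep, h]
    have repP : ∀ v q r c, g.cl v = .P q r c → rep v = ep q r c := fun v q r c h => by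
      simp only [rep, h]
    have repN : ∀ v, (g.cl v).sp = false → rep v = v := by
      intro v h
      simp only [rep]
      revert h
      cases g.cl v <;> simp [Cls.sp]
    have sprep : ∀ v, (g.cl (rep v)).sp = false := by
      intro v
      cases h : g.cl v with
      | Q q => rw [repQ v q h, hxq]; rfl
      | P q r c => rw [repP v q r c h, hep]; rfl
      | _ =>
        rw [repN v (by rw [h]; rfl), h]; rfl
    have mkrep : ∀ v, M v = M (rep v) := by
      intro v
      cases h : g.cl v with
      | Q q =>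
        rw [repQ v q h, ← mkQ, g.uQ v (qu q) q h (hqu q)]
      | P q r c =>
        rw [repP v q r c h, ← mkP, g.uP v (pu q r c) q r c h (hpu q r c)]
      | _ =>
        rw [repN v (by rw [h]; rfl)]
    have repF : ∀ v w, s(v, w) ∈ (F : Set (Sym2 V)) → rep v = rep w := by
      intro v w h
      rw [hFmem] at h
      rcases h with ⟨q, h⟩ | ⟨q, r, c, h⟩
      · have h1 : rep (qu q) = rep (xq q) := by
          rw [repQ _ q (hqu q), repN (xq q) (by rw [hxq]; rfl)]
        rcases Sym2.eq_iff.1 h with ⟨rfl, rfl⟩ | ⟨rfl, rfl⟩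
        · exact h1
        · exact h1.symm
      · have h1 : rep (pu q r c) = rep (ep q r c) := by
          rw [repP _ q r c (hpu q r c), repN (ep q r c) (by rw [hep]; rfl)]
        rcases Sym2.eq_iff.1 h with ⟨rfl, rfl⟩ | ⟨rfl, rfl⟩
        · exact h1
        · exact h1.symm
    have mkiff : ∀ v w, M v = M w ↔ rep v = rep w := mk_eq_iff_rep rep repF mkrep
    -- the kind of a vertex
    let kd : V → Kd := fun v => kdc f (g.cl v)
    have kdrep : ∀ v, kd (rep v) = kd v := by
      intro v
      cases h : g.cl v with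
      | Q q => simp only [kd, repQ v q h, h, hxq, kdc]
      | P q r c => simp [kd, repP v q r c h, h, hep, kdc]
      | _ => rw [repN v (by rw [h]; rfl)]
    have hB : ∀ u v, (contract G (F : Set (Sym2 V))).Adj (M u) (M v) →
        Kd.allowed (kd u) (kd v) = true := by
      rintro u v ⟨-, u', v', hu, hv, huv⟩
      have hu' : kd u' = kd u := by rw [← kdrep u', (mkiff u' u).1 hu, kdrep]
      have hv' : kd v' = kd v := by rw [← kdrep v', (mkiff v' v).1 hv, kdrep]
      rw [← hu', ← hv']
      exact kdc_allowed f ((g.adj _ _).1 huv).2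
    have hA : ∀ u v, M u ≠ M v → Kd.strong (kd u) (kd v) = true →
        (contract G (F : Set (Sym2 V))).Adj (M u) (M v) := by
      intro u v hne hs
      refine ⟨hne, ?_⟩
      rw [← kdrep u, ← kdrep v] at hs
      rw [mkrep u, mkrep v] at hne ⊢
      have hu := sprep u
      have hv := sprep v
      generalize rep u = u at *
      generalize rep v = v at *
      have huv : u ≠ v := fun h => hne (by rw [h])
      have sym : ∀ u v : V, u ≠ v → (∃ q r c, g.cl u = .E q r (f q) (f r) c ∧
          (g.cl v = .S ∨ g.cl v = .X q (f q) ∨ g.cl v = .X r (f r))) →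
          ∃ u' v', M u' = M u ∧ M v' = M v ∧ G.Adj u' v' := by
        rintro u v huv ⟨q, r, c, h1, h2⟩
        have e1 : u = ep q r c := g.uE _ _ _ _ _ _ _ h1 (hep q r c)
        rcases h2 with h2 | h2 | h2
        · refine ⟨pu q r c, v, by rw [mkP, e1], rfl, ?_⟩
          rw [g.adj, hpu, h2]
          refine ⟨fun h => ?_, Or.inl trivial⟩
          rw [← h, hpu] at h2
          cases h2
        · have e2 : v = xq q := g.uX _ _ _ _ h2 (hxq q)
          refine ⟨u, qu q, rfl, by rw [mkQ, e2], ?_⟩
          rw [g.adj, hqu, h1]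
          refine ⟨fun h => ?_, Or.inr (Or.inl rfl)⟩
          rw [h, hqu] at h1
          cases h1
        · have e2 : v = xq r := g.uX _ _ _ _ h2 (hxq r)
          refine ⟨u, qu r, rfl, by rw [mkQ, e2], ?_⟩
          rw [g.adj, hqu, h1]
          refine ⟨fun h => ?_, Or.inr (Or.inr rfl)⟩
          rw [h, hqu] at h1
          cases h1
      rcases kdc_strong f hu hv hs with h | h | h
      · exact ⟨u, v, rfl, rfl, (g.adj u v).2 ⟨huv, h⟩⟩
      · exact sym u v huv h
      · obtain ⟨u', v', h1, h2, h3⟩ := sym v u huv.symm h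
        exact ⟨v', u', h2, h1, h3.symm⟩
    rw [free_claw_iff]
    intro C L1 L2 L3
    induction C using ConnectedComponent.ind with | _ c => ?_
    induction L1 using ConnectedComponent.ind with | _ l1 => ?_
    induction L2 using ConnectedComponent.ind with | _ l2 => ?_
    induction L3 using ConnectedComponent.ind with | _ l3 => ?_
    change (contract G (F : Set (Sym2 V))).Adj (M c) (M l1) →
      (contract G (F : Set (Sym2 V))).Adj (M c) (M l2) →
      (contract G (F : Set (Sym2 V))).Adj (M c) (M l3) → M l1 ≠ M l2 → M l1 ≠ M l3 →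
      M l2 ≠ M l3 → (contract G (F : Set (Sym2 V))).Adj (M l1) (M l2) ∨
      (contract G (F : Set (Sym2 V))).Adj (M l1) (M l3) ∨
      (contract G (F : Set (Sym2 V))).Adj (M l2) (M l3)
    intro h1 h2 h3 n12 n13 n23
    have a1 := hB _ _ h1
    have a2 := hB _ _ h2
    have a3 := hB _ _ h3
    have key : ∀ b1 b2 b3 : Bool, b1 = b2 ∨ b1 = b3 ∨ b2 = b3 := by decide
    rcases key (Kd.col (kd c) (kd l1)) (Kd.col (kd c) (kd l2)) (Kd.col (kd c) (kd l3)) with
      h | h | h
    · exact Or.inl (hA _ _ n12 (Kd.cover _ _ _ a1 a2 h))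
    · exact Or.inr (Or.inl (hA _ _ n13 (Kd.cover _ _ _ a1 a3 h)))
    · exact Or.inr (Or.inr (hA _ _ n23 (Kd.cover _ _ _ a2 a3 h)))

end Forward

section Backward

/-- index type of the special vertices -/
abbrev Ix (K : ℕ) : Type := Fin K ⊕ (Fin K × Fin K × Fin 2)

/-- classes of the special vertices -/
def ixc : Ix K → Cls K n
  | .inl q => .Q q
  | .inr (q, r, c) => .P q r c

theorem ixc_sp (i : Ix K) : (ixc (n := n) i).sp = true := by
  rcases i with q | ⟨q, r, c⟩ <;> rfl

theorem card_ix : Fintype.card (Ix K) = budget K := by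
  simp only [Ix, Fintype.card_sum, Fintype.card_prod, Fintype.card_fin, budget]
  ring

theorem sp_not_adj {x y : Cls K n} (hx : x.sp = true) (hy : y.sp = true) : ¬ Cls.adj x y := by
  cases x <;> cases y <;> simp [Cls.sp, Cls.adj, Cls.half] at hx hy ⊢

theorem exists_untouched (F : Finset (Sym2 V)) (hF : F.card ≤ budget K) (p : V → Prop)
    [DecidablePred p] (h : 2 * budget K < (Finset.univ.filter p).card) :
    ∃ v, p v ∧ ∀ e ∈ (F : Set (Sym2 V)), v ∉ e := by
  classical
  by_contra hcon
  push Not at hcon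
  have hsub : Finset.univ.filter p ⊆ F.biUnion (fun e => e.toFinset) := by
    intro v hv
    rw [Finset.mem_filter] at hv
    obtain ⟨e, he, hve⟩ := hcon v hv.2
    rw [Finset.mem_biUnion]
    exact ⟨e, by simpa using he, by simpa [Sym2.mem_toFinset] using hve⟩
  have h1 := Finset.card_le_card hsub
  have h2 : (F.biUnion (fun e => e.toFinset)).card ≤ F.card * 2 := by
    apply Finset.card_biUnion_le_card_mul
    intro e _
    rw [Sym2.card_toFinset]
    split_ifs <;> omega
  omega

include g in
theorem backward (h : Contractible claw G (budget K)) :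
    ∃ f : Fin K → Fin n, ∀ q r, ERel Γ q r (f q) (f r) := by
  classical
  obtain ⟨F, hFG, hFc, hfree⟩ := h
  rw [free_claw_iff] at hfree
  set M := (SimpleGraph.fromEdgeSet (F : Set (Sym2 V))).connectedComponentMk with hM
  obtain ⟨c0, hc0, uc0⟩ := exists_untouched F hFc _ g.cC
  obtain ⟨s0, hs0, us0⟩ := exists_untouched F hFc _ g.cS
  obtain ⟨y0, hy0, uy0⟩ := exists_untouched F hFc _ g.cY
  obtain ⟨w0, hw0, uw0⟩ := exists_untouched F hFc _ g.cW
  have ne_of_cl : ∀ {v w : V}, g.cl v ≠ g.cl w → v ≠ w := fun h h' => h (by rw [h'])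
  have unt : ∀ v, (∀ e ∈ (F : Set (Sym2 V)), v ∉ e) → ∀ w, M w = M v → w = v :=
    fun v hv w hw => mk_eq_of_untouched hv hw
  -- the special vertices
  choose qu hqu using g.eQ
  choose pu hpu using g.eP
  let σ : Ix K → V := fun i => match i with
    | .inl q => qu q
    | .inr (q, r, c) => pu q r c
  have hσ : ∀ i, g.cl (σ i) = ixc i := by
    rintro (q | ⟨q, r, c⟩)
    · exact hqu q
    · exact hpu q r c
  clear_value σ
  have ixc_inj : Function.Injective (ixc : Ix K → Cls K n) := by
    rintro (q | ⟨q, r, c⟩) (q' | ⟨q', r', c'⟩) h <;> simp [ixc] at h ⊢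
    · exact h
    · exact h
  have σinj : Function.Injective σ := by
    intro i j hij
    apply ixc_inj
    rw [← hσ, ← hσ, hij]
  have adj_s0 : ∀ v, Cls.adj (.S) (g.cl v) → v ≠ s0 → G.Adj s0 v := by
    intro v hv hne
    rw [g.adj, hs0]
    exact ⟨hne.symm, hv⟩
  have adj_s0y0 : (contract G (F : Set (Sym2 V))).Adj (M s0) (M y0) := by
    refine ⟨fun h => ?_, s0, y0, rfl, rfl, ?_⟩
    · have := unt y0 uy0 s0 h
      rw [this, hy0] at hs0
      cases hs0
    · rw [g.adj, hs0, hy0]
      refine ⟨ne_of_cl (by rw [hs0, hy0]; simp), Or.inl trivial⟩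
  -- every special vertex is in an edge of `F`
  have touched : ∀ i, ∃ e ∈ F, σ i ∈ e := by
    intro i
    by_contra hcon
    push Not at hcon
    have ui : ∀ e ∈ (F : Set (Sym2 V)), σ i ∉ e := fun e he => hcon e (by simpa using he)
    have hsi : g.cl (σ i) = ixc i := hσ i
    have ne1 : M (σ i) ≠ M w0 := fun h => by
      have := unt w0 uw0 _ h
      rw [this, hw0] at hsi
      rcases i with q | ⟨q, r, c⟩ <;> simp [ixc] at hsi
    have ne2 : M (σ i) ≠ M y0 := fun h => by
      have := unt y0 uy0 _ h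
      rw [this, hy0] at hsi
      rcases i with q | ⟨q, r, c⟩ <;> simp [ixc] at hsi
    have ne3 : M w0 ≠ M y0 := fun h => by
      have := unt y0 uy0 _ h
      rw [this, hy0] at hw0
      cases hw0
    have ne4 : M s0 ≠ M (σ i) := fun h => by
      have := unt (σ i) ui _ h
      rw [← this, hs0] at hsi
      rcases i with q | ⟨q, r, c⟩ <;> simp [ixc] at hsi
    have ne5 : M s0 ≠ M w0 := fun h => by
      have := unt w0 uw0 _ h
      rw [this, hw0] at hs0
      cases hs0
    have a1 : (contract G (F : Set (Sym2 V))).Adj (M s0) (M (σ i)) := by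
      refine ⟨ne4, s0, σ i, rfl, rfl, ?_⟩
      rw [g.adj]
      refine ⟨fun h => ne4 (by rw [h]), ?_⟩
      rw [hs0, hsi]
      rcases i with q | ⟨q, r, c⟩ <;> exact Or.inr trivial
    have a2 : (contract G (F : Set (Sym2 V))).Adj (M s0) (M w0) := by
      refine ⟨ne5, s0, w0, rfl, rfl, ?_⟩
      rw [g.adj]
      refine ⟨fun h => ne5 (by rw [h]), ?_⟩
      rw [hs0, hw0]
      exact Or.inr trivial
    rcases hfree _ _ _ _ a1 a2 adj_s0y0 ne1 ne2 ne3 with h | h | h
    · obtain ⟨-, u, v, hu, hv, huv⟩ := h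
      rw [unt _ ui u hu, unt _ uw0 v hv, g.adj, hsi, hw0] at huv
      rcases i with q | ⟨q, r, c⟩ <;> simp [ixc, Cls.adj, Cls.half] at huv
    · obtain ⟨-, u, v, hu, hv, huv⟩ := h
      rw [unt _ ui u hu, unt _ uy0 v hv, g.adj, hsi, hy0] at huv
      rcases i with q | ⟨q, r, c⟩ <;> simp [ixc, Cls.adj, Cls.half] at huv
    · obtain ⟨-, u, v, hu, hv, huv⟩ := h
      rw [unt _ uw0 u hu, unt _ uy0 v hv, g.adj, hw0, hy0] at huv
      simp [Cls.adj, Cls.half] at huv
  choose e heF hse using touched
  have eadj : ∀ {u v : V}, s(u, v) ∈ F → G.Adj u v := fun h => hFG (by simpa using h)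
  have spadj : ∀ i j, ¬ G.Adj (σ i) (σ j) := by
    intro i j h
    rw [g.adj, hσ, hσ] at h
    exact sp_not_adj (ixc_sp i) (ixc_sp j) h.2
  have e_unique : ∀ i j, σ i ∈ e j → i = j := by
    intro i j hij
    by_contra hne
    have h2 : e j = s(σ i, σ j) :=
      (Sym2.mem_and_mem_iff (fun h => hne (σinj h))).1 ⟨hij, hse j⟩
    have h3 := heF j
    rw [h2] at h3
    exact spadj i j (eadj h3)
  have einj : Function.Injective e := by
    intro i j hij
    apply e_unique
    rw [← hij]
    exact hse i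
  have hFeq : Finset.univ.image e = F := by
    apply Finset.eq_of_subset_of_card_le
    · intro x hx
      rw [Finset.mem_image] at hx
      obtain ⟨i, -, rfl⟩ := hx
      exact heF i
    · rw [Finset.card_image_of_injective _ einj, Finset.card_univ, card_ix]
      exact hFc
  -- the partners of the special vertices
  choose z hz using fun i => Sym2.mem_iff_exists.1 (hse i)
  have hFmem : ∀ x, x ∈ (F : Set (Sym2 V)) ↔ ∃ i, x = s(σ i, z i) := by
    intro x
    rw [← hFeq]
    simp only [Finset.coe_image, Finset.coe_univ, Set.image_univ, Set.mem_range]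
    constructor
    · rintro ⟨i, rfl⟩
      exact ⟨i, hz i⟩
    · rintro ⟨i, rfl⟩
      exact ⟨i, hz i⟩
  have zadj : ∀ i, G.Adj (σ i) (z i) := fun i => eadj (by rw [← hz]; exact heF i)
  have znsp : ∀ i, (g.cl (z i)).sp = false := by
    intro i
    by_contra hcon
    rw [Bool.not_eq_false] at hcon
    have := zadj i
    rw [g.adj, hσ] at this
    exact sp_not_adj (ixc_sp i) hcon this.2
  have spex : ∀ v, (g.cl v).sp = true → ∃ i, v = σ i := by
    intro v hv
    cases h : g.cl v with
    | Q q => exact ⟨.inl q, g.uQ _ _ q h (hσ (.inl q))⟩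
    | P q r c => exact ⟨.inr (q, r, c), g.uP _ _ q r c h (hσ (.inr (q, r, c)))⟩
    | _ => rw [h] at hv; cases hv
  have mkσ : ∀ i, M (σ i) = M (z i) := fun i => by
    rw [hM, ConnectedComponent.eq]
    apply Adj.reachable
    rw [fromEdgeSet_adj]
    exact ⟨(hFmem _).2 ⟨i, rfl⟩, (zadj i).ne⟩
  let rep : V → V := fun v => if h : ∃ i, v = σ i then z h.choose else v
  have repσ : ∀ i, rep (σ i) = z i := by
    intro i
    have h : ∃ j, σ i = σ j := ⟨i, rfl⟩
    simp only [rep, dif_pos h]
    rw [σinj h.choose_spec.symm]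
  have repN : ∀ v, (g.cl v).sp = false → rep v = v := by
    intro v hv
    have h : ¬ ∃ i, v = σ i := by
      rintro ⟨i, rfl⟩
      rw [hσ, ixc_sp] at hv
      cases hv
    simp only [rep, dif_neg h]
  have mkrep : ∀ v, M v = M (rep v) := by
    intro v
    cases h : (g.cl v).sp with
    | false => rw [repN v h]
    | true =>
      obtain ⟨i, rfl⟩ := spex v h
      rw [repσ, mkσ]
  have repF : ∀ v w, s(v, w) ∈ (F : Set (Sym2 V)) → rep v = rep w := by
    intro v w h
    rw [hFmem] at h
    obtain ⟨i, h⟩ := h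
    rcases Sym2.eq_iff.1 h with ⟨rfl, rfl⟩ | ⟨rfl, rfl⟩
    · rw [repσ, repN _ (znsp i)]
    · rw [repσ, repN _ (znsp i)]
  have mkiff : ∀ v w, M v = M w ↔ rep v = rep w := mk_eq_iff_rep rep repF mkrep
  -- members of the component of a vertex that is not special
  have comp : ∀ d, (g.cl d).sp = false → ∀ w, M w = M d → w = d ∨ ∃ i, w = σ i ∧ z i = d := by
    intro d hd w hw
    rw [mkiff, repN d hd] at hw
    cases h : (g.cl w).sp with
    | false =>
      left
      rw [← hw, repN w h]
    | true =>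
      right
      obtain ⟨i, rfl⟩ := spex w h
      exact ⟨i, rfl, by rw [← hw, repσ]⟩
  have ztouched : ∀ i, ∃ e ∈ (F : Set (Sym2 V)), z i ∈ e := fun i =>
    ⟨s(σ i, z i), (hFmem _).2 ⟨i, rfl⟩, Sym2.mem_mk_right _ _⟩
  have σW : ∀ i, ¬ G.Adj (σ i) w0 := by
    intro i h
    rw [g.adj, hσ, hw0] at h
    rcases i with q | ⟨q, r, c⟩ <;> simp [ixc, Cls.adj, Cls.half] at h
  have σY : ∀ i, ¬ G.Adj (σ i) y0 := by
    intro i h
    rw [g.adj, hσ, hy0] at h
    rcases i with q | ⟨q, r, c⟩ <;> simp [ixc, Cls.adj, Cls.half] at h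
  have s0σ : ∀ i, G.Adj s0 (σ i) := by
    intro i
    rw [g.adj, hs0, hσ]
    refine ⟨ne_of_cl ?_, ?_⟩
    · rw [hs0, hσ]
      rcases i with q | ⟨q, r, c⟩ <;> simp [ixc]
    · rcases i with q | ⟨q, r, c⟩ <;> exact Or.inr trivial
  -- the main source of claws
  have fin : ∀ (d x : V) (i0 : Ix K), z i0 = d → (∀ e ∈ (F : Set (Sym2 V)), x ∉ e) →
      G.Adj s0 x → ¬ G.Adj x y0 → x ≠ y0 → ¬ G.Adj d x → (∀ i, z i = d → ¬ G.Adj (σ i) x) →
      ¬ G.Adj d y0 → False := by
    intro d x i0 hi0 ux sx xy xy' dx σx dy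
    have hd : (g.cl d).sp = false := by rw [← hi0]; exact znsp i0
    obtain ⟨e', he', hde'⟩ := ztouched i0
    rw [hi0] at hde'
    have n1 : M s0 ≠ M d := fun h => by
      have := unt s0 us0 d h.symm
      exact us0 e' he' (by rw [← this]; exact hde')
    have n2 : M d ≠ M x := fun h => by
      have := unt x ux d h
      exact ux e' he' (by rw [← this]; exact hde')
    have n3 : M d ≠ M y0 := fun h => by
      have := unt y0 uy0 d h
      exact uy0 e' he' (by rw [← this]; exact hde')
    have n4 : M x ≠ M y0 := fun h => xy' (unt y0 uy0 x h)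
    have n5 : M s0 ≠ M x := fun h => sx.ne (unt x ux s0 h)
    have a1 : (contract G (F : Set (Sym2 V))).Adj (M s0) (M d) := by
      refine ⟨n1, s0, σ i0, rfl, ?_, s0σ i0⟩
      have h1 := mkσ i0
      rw [hi0] at h1
      exact h1
    have a2 : (contract G (F : Set (Sym2 V))).Adj (M s0) (M x) := ⟨n5, s0, x, rfl, rfl, sx⟩
    rcases hfree _ _ _ _ a1 a2 adj_s0y0 n2 n3 n4 with h | h | h
    · obtain ⟨-, u, v, hu, hv, huv⟩ := h
      rw [unt x ux v hv] at huv
      rcases comp d hd u hu with rfl | ⟨i, rfl, hi⟩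
      · exact dx huv
      · exact σx i hi huv
    · obtain ⟨-, u, v, hu, hv, huv⟩ := h
      rw [unt y0 uy0 v hv] at huv
      rcases comp d hd u hu with rfl | ⟨i, rfl, hi⟩
      · exact dy huv
      · exact σY i huv
    · obtain ⟨-, u, v, hu, hv, huv⟩ := h
      rw [unt y0 uy0 v hv, unt x ux u hu] at huv
      exact xy huv
  have s0w0 : G.Adj s0 w0 := by
    rw [g.adj, hs0, hw0]
    exact ⟨ne_of_cl (by rw [hs0, hw0]; simp), Or.inr trivial⟩
  have w0y0 : ¬ G.Adj w0 y0 := by
    rw [g.adj, hw0, hy0]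
    simp [Cls.adj, Cls.half]
  have w0y0' : w0 ≠ y0 := ne_of_cl (by rw [hw0, hy0]; simp)
  -- partners of the special vertices of class `P`
  have claim0 : ∀ q r c, ∃ a b, g.cl (z (.inr (q, r, c))) = .E q r a b c := by
    intro q r c
    have h := zadj (.inr (q, r, c))
    rw [g.adj, hσ] at h
    obtain ⟨hne, h⟩ := h
    cases hz' : g.cl (z (.inr (q, r, c))) with
    | E q1 r1 a b c1 =>
      rw [hz'] at h
      simp only [ixc, Cls.adj, Cls.half, or_false] at h
      obtain ⟨rfl, rfl, rfl⟩ := h
      exact ⟨a, b, rfl⟩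
    | S =>
      exfalso
      set d := z (.inr (q, r, c)) with hd
      have hdsp := znsp (.inr (q, r, c))
      obtain ⟨e', he', hde'⟩ := ztouched (.inr (q, r, c))
      rw [← hd] at hde' hdsp
      have n1 : M d ≠ M c0 := fun h => by
        have := unt c0 uc0 d h
        exact uc0 e' he' (by rw [← this]; exact hde')
      have n2 : M d ≠ M w0 := fun h => by
        have := unt w0 uw0 d h
        exact uw0 e' he' (by rw [← this]; exact hde')
      have n3 : M d ≠ M y0 := fun h => by
        have := unt y0 uy0 d h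
        exact uy0 e' he' (by rw [← this]; exact hde')
      have a1 : (contract G (F : Set (Sym2 V))).Adj (M d) (M c0) := by
        refine ⟨n1, σ (.inr (q, r, c)), c0, mkσ _, rfl, ?_⟩
        rw [g.adj, hσ, hc0]
        exact ⟨ne_of_cl (by rw [hσ, hc0]; simp [ixc]), Or.inl trivial⟩
      have a2 : (contract G (F : Set (Sym2 V))).Adj (M d) (M w0) := by
        refine ⟨n2, d, w0, rfl, rfl, ?_⟩
        rw [g.adj, hz', hw0]
        exact ⟨ne_of_cl (by rw [hz', hw0]; simp), Or.inr trivial⟩
      have a3 : (contract G (F : Set (Sym2 V))).Adj (M d) (M y0) := by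
        refine ⟨n3, d, y0, rfl, rfl, ?_⟩
        rw [g.adj, hz', hy0]
        exact ⟨ne_of_cl (by rw [hz', hy0]; simp), Or.inl trivial⟩
      have n4 : M c0 ≠ M w0 := fun h => by
        have := unt w0 uw0 _ h
        rw [this, hw0] at hc0
        cases hc0
      have n5 : M c0 ≠ M y0 := fun h => by
        have := unt y0 uy0 _ h
        rw [this, hy0] at hc0
        cases hc0
      have n6 : M w0 ≠ M y0 := fun h => w0y0' (unt y0 uy0 _ h)
      rcases hfree _ _ _ _ a1 a2 a3 n4 n5 n6 with h | h | h
      · obtain ⟨-, u, v, hu, hv, huv⟩ := h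
        rw [unt c0 uc0 u hu, unt w0 uw0 v hv, g.adj, hc0, hw0] at huv
        simp [Cls.adj, Cls.half] at huv
      · obtain ⟨-, u, v, hu, hv, huv⟩ := h
        rw [unt c0 uc0 u hu, unt y0 uy0 v hv, g.adj, hc0, hy0] at huv
        simp [Cls.adj, Cls.half] at huv
      · obtain ⟨-, u, v, hu, hv, huv⟩ := h
        rw [unt w0 uw0 u hu, unt y0 uy0 v hv] at huv
        exact w0y0 huv
    | C =>
      exfalso
      refine fin (z (.inr (q, r, c))) w0 _ rfl uw0 s0w0 w0y0 w0y0' ?_ (fun i _ => σW i) ?_
      · rw [g.adj, hz', hw0]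
        simp [Cls.adj, Cls.half]
      · rw [g.adj, hz', hy0]
        simp [Cls.adj, Cls.half]
    | _ =>
      rw [hz'] at h
      simp [ixc, Cls.adj, Cls.half] at h
  -- vertices of class `X`
  choose xv hxv using g.eX
  have xunt : ∀ q a, xv q a ≠ z (.inl q) → ∀ e ∈ (F : Set (Sym2 V)), xv q a ∉ e := by
    intro q a hne e he hxe
    rw [hFmem] at he
    obtain ⟨i, rfl⟩ := he
    rw [Sym2.mem_iff] at hxe
    rcases hxe with h | h
    · have := hxv q a
      rw [h, hσ] at this
      rcases i with q' | ⟨q', r', c'⟩ <;> simp [ixc] at this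
    · have h1 := zadj i
      rw [← h, g.adj, hσ, hxv] at h1
      rcases i with q' | ⟨q', r', c'⟩
      · simp only [ixc, Cls.adj, Cls.half, or_false] at h1
        rw [h1.2] at h
        exact hne h
      · simp [ixc, Cls.adj, Cls.half] at h1
  have s0x : ∀ q a, G.Adj s0 (xv q a) := fun q a => by
    rw [g.adj, hs0, hxv]
    exact ⟨ne_of_cl (by rw [hs0, hxv]; simp), Or.inr trivial⟩
  have xy0 : ∀ q a, ¬ G.Adj (xv q a) y0 := fun q a => by
    rw [g.adj, hxv, hy0]
    simp [Cls.adj, Cls.half]
  have xy0' : ∀ q a, xv q a ≠ y0 := fun q a => ne_of_cl (by rw [hxv, hy0]; simp)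
  have xspec : ∀ q a i, G.Adj (σ i) (xv q a) → i = .inl q := by
    intro q a i h1
    rw [g.adj, hσ, hxv] at h1
    rcases i with q' | ⟨q', r', c'⟩
    · simp only [ixc, Cls.adj, Cls.half, or_false] at h1
      rw [h1.2]
    · simp [ixc, Cls.adj, Cls.half] at h1
  have key : ∀ q1 r1 c a b, g.cl (z (.inr (q1, r1, c))) = .E q1 r1 a b c → ∀ q a',
      (q = q1 ∧ a' = a) ∨ (q = r1 ∧ a' = b) → z (.inl q) = xv q a' ∨
      z (.inl q) = z (.inr (q1, r1, c)) := by
    intro q1 r1 c a b hcl q a' hm
    by_contra hcon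
    push Not at hcon
    refine fin (z (.inr (q1, r1, c))) (xv q a') _ rfl (xunt q a' hcon.1.symm) (s0x q a')
      (xy0 q a') (xy0' q a') ?_ ?_ ?_
    · rw [g.adj, hcl, hxv]
      simp only [Cls.adj, Cls.half, or_false, false_or, not_and, not_not]
      intro _
      exact hm
    · intro i hi hadj
      have := xspec q a' i hadj
      rw [this] at hi
      exact hcon.2 hi
    · rw [g.adj, hcl, hy0]
      simp [Cls.adj, Cls.half]
  -- partners of the special vertices of class `Q`
  have claim2 : ∀ q, ∃ a, z (.inl q) = xv q a := by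
    intro q
    by_contra hcon
    push Not at hcon
    obtain ⟨a0, b0, h0⟩ := claim0 q q 0
    obtain ⟨a1, b1, h1⟩ := claim0 q q 1
    have k0 := (key q q 0 a0 b0 h0 q a0 (Or.inl ⟨rfl, rfl⟩)).resolve_left (hcon a0)
    have k1 := (key q q 1 a1 b1 h1 q a1 (Or.inl ⟨rfl, rfl⟩)).resolve_left (hcon a1)
    rw [← k0] at h0
    rw [← k1] at h1
    rw [h0] at h1
    simp at h1
  choose f hf using claim2
  refine ⟨f, fun q r => ?_⟩
  obtain ⟨a, b, hab⟩ := claim0 q r 0
  have hE := (g.eE q r a b 0).1 ⟨_, hab⟩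
  have xinj : ∀ q a a', xv q a = xv q a' → a = a' := by
    intro q a a' h
    have := congrArg g.cl h
    rw [hxv, hxv] at this
    simpa using this
  have nz : ∀ q', z (.inl q') ≠ z (.inr (q, r, 0)) := by
    intro q' h
    rw [← h, hf q', hxv] at hab
    cases hab
  have e1 : f q = a := by
    have := (key q r 0 a b hab q a (Or.inl ⟨rfl, rfl⟩)).resolve_right (nz q)
    rw [hf q] at this
    exact xinj _ _ _ this
  have e2 : f r = b := by
    have := (key q r 0 a b hab r b (Or.inr ⟨rfl, rfl⟩)).resolve_right (nz r)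
    rw [hf r] at this
    exact xinj _ _ _ this
  rw [e1, e2]
  exact hE

end Backward

include g in
/-- Correctness of the reduction. -/
theorem correct : Contractible claw G (budget K) ↔ ∃ s : Finset (Fin n), Γ.IsNClique K s := by
  classical
  constructor
  · intro h
    obtain ⟨f, hf⟩ := g.backward h
    have finj : Function.Injective f := by
      intro q r hqr
      by_contra hne
      have := hf q r
      rw [ERel, if_neg hne, hqr] at this
      exact Γ.loopless.irrefl _ this
    refine ⟨Finset.univ.image f, ?_⟩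
    rw [isNClique_iff, isClique_iff]
    constructor
    · intro x hx y hy hxy
      simp only [Finset.coe_image, Finset.coe_univ, Set.image_univ, Set.mem_range] at hx hy
      obtain ⟨q, rfl⟩ := hx
      obtain ⟨r, rfl⟩ := hy
      have := hf q r
      rwa [ERel, if_neg (fun h => hxy (by rw [h]))] at this
    · rw [Finset.card_image_of_injective _ finj, Finset.card_univ, Fintype.card_fin]
  · rintro ⟨s, hs⟩
    have e := s.equivFinOfCardEq hs.card_eq
    refine g.forward (fun q => (e.symm q : Fin n)) ?_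
    intro q r
    rw [ERel]
    split_ifs with h
    · rw [h]
    · refine hs.isClique (e.symm q).2 (e.symm r).2 ?_
      intro h'
      exact h (e.symm.injective (Subtype.ext h'))

end Gadget

end Pool.Agent.H603R2
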