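import Pool.Agent.H603R2.ClawEm

/-!
The concrete graph is a gadget graph.
-/

namespace Pool.Agent.H603R2

open SimpleGraph

variable {n : ℕ} (Γ : SimpleGraph (Fin n)) (K : ℕ)

theorem cls_X {τ : Tup} {q : Fin K} {a : Fin n} (h : cls Γ K τ = .X q a) :
    τ = ⟨3, q, a, 0, 0, 0⟩ := by
  unfold cls at h
  split_ifs at h with g0 g1 g2 g3 g4
  simp only [Cls.X.injEq] at h
  obtain ⟨rfl, rfl⟩ := h
  ext <;> simp [g3, g4]

theorem cls_E {τ : Tup} {q r : Fin K} {a b : Fin n} {c : Fin 2}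
    (h : cls Γ K τ = .E q r a b c) :
    τ = ⟨4, q, a, r, b, c⟩ ∧ ERel Γ q r a b := by
  unfold cls at h
  split_ifs at h with g0 g1 g2 g3 g4 g5 g6 g7
  simp only [Cls.E.injEq] at h
  obtain ⟨rfl, rfl, rfl, rfl, rfl⟩ := h
  refine ⟨?_, g7⟩
  ext <;> simp [g5]

theorem cls_P {τ : Tup} {q r : Fin K} {c : Fin 2} (h : cls Γ K τ = .P q r c) :
    τ = ⟨5, q, 0, r, 0, c⟩ := by
  unfold cls at h
  split_ifs at h with g0 g1 g2 g3 g4 g5 g6 g7 g8 g9
  simp only [Cls.P.injEq] at h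
  obtain ⟨rfl, rfl, rfl⟩ := h
  ext <;> simp [g8, g9]

theorem cls_Q {τ : Tup} {q : Fin K} (h : cls Γ K τ = .Q q) :
    τ = ⟨6, q, 0, 0, 0, 0⟩ := by
  unfold cls at h
  split_ifs at h with g0 g1 g2 g3 g4 g5 g6 g7 g8 g9 g10 g11
  simp only [Cls.Q.injEq] at h
  obtain rfl := h
  ext <;> simp [g10, g11]

theorem cls_X' (q : Fin K) (a : Fin n) : cls Γ K ⟨3, q, a, 0, 0, 0⟩ = .X q a := by
  simp [cls]

theorem cls_E' {q r : Fin K} {a b : Fin n} {c : Fin 2} (h : ERel Γ q r a b) :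
    cls Γ K ⟨4, q, a, r, b, c⟩ = .E q r a b c := by
  have hc : (c : ℕ) < 2 := c.2
  simp only [cls]
  simp only [OfNat.ofNat_ne_zero, if_false, OfNat.ofNat_ne_one, Nat.reduceEqDiff, if_true,
    Fin.is_lt, and_self, dif_pos, h]

theorem cls_P' (q r : Fin K) (c : Fin 2) : cls Γ K ⟨5, q, 0, r, 0, c⟩ = .P q r c := by
  have hc : (c : ℕ) < 2 := c.2
  simp [cls, hc]

theorem cls_Q' (q : Fin K) : cls Γ K ⟨6, q, 0, 0, 0, 0⟩ = .Q q := by
  simp [cls]

theorem inj_cl {τ : Tup} {v w : Fin (dim K n)} (hv : decT K n v = τ) (hw : decT K n w = τ) :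
    v = w := by
  have := congrArg (encT K n) (hv.trans hw.symm)
  rw [encT_decT, encT_decT] at this
  exact Fin.ext this

theorem ex_cl {τ : Tup} (h : τ.ok K n) : ∃ v : Fin (dim K n), decT K n v = τ :=
  ⟨⟨encT K n τ, encT_lt h⟩, decT_encT h⟩

theorem ok_of {t q a r b c : ℕ} (ht : t < 7) (hq : q < K) (ha : a < n) (hr : r < K + 1)
    (hb : b < n + 2) (hc : c < 2) : Tup.ok K n ⟨t, q, a, r, b, c⟩ :=
  ⟨ht, Nat.lt_succ_of_lt hq, Nat.lt_add_right 2 ha, hr, hb, hc⟩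

theorem ok_of' {t q a r b c : ℕ} (ht : t < 7) (hq : q < K) (ha : a < n + 2) (hr : r < K + 1)
    (hb : b < n + 2) (hc : c < 2) : Tup.ok K n ⟨t, q, a, r, b, c⟩ :=
  ⟨ht, Nat.lt_succ_of_lt hq, ha, hr, hb, hc⟩

theorem count_cl (t : ℕ) (ht : t < 7) (x : Cls K n)
    (h : ∀ q a r b : ℕ, cls Γ K ⟨t, q, a, r, b, 1⟩ = x) :
    2 * budget K < (Finset.univ.filter fun v : Fin (dim K n) => cls Γ K (decT K n v) = x).card := by
  classical
  have hok : ∀ z : Fin (K + 1) × Fin (n + 2) × Fin (K + 1) × Fin (n + 2),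
      Tup.ok K n ⟨t, z.1, z.2.1, z.2.2.1, z.2.2.2, 1⟩ :=
    fun z => ⟨ht, z.1.2, z.2.1.2, z.2.2.1.2, z.2.2.2.2, Nat.one_lt_two⟩
  let φ : Fin (K + 1) × Fin (n + 2) × Fin (K + 1) × Fin (n + 2) → Fin (dim K n) :=
    fun z => ⟨encT K n ⟨t, z.1, z.2.1, z.2.2.1, z.2.2.2, 1⟩, encT_lt (hok z)⟩
  have hφ : ∀ z, decT K n (φ z) = ⟨t, z.1, z.2.1, z.2.2.1, z.2.2.2, 1⟩ :=
    fun z => decT_encT (hok z)
  have hinj : Function.Injective φ := by
    intro z z' hz
    have := hφ z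
    rw [hz, hφ] at this
    simp only [Tup.mk.injEq, true_and, and_true] at this
    obtain ⟨h1, h2, h3, h4⟩ := this
    exact Prod.ext (Fin.ext h1.symm) (Prod.ext (Fin.ext h2.symm)
      (Prod.ext (Fin.ext h3.symm) (Fin.ext h4.symm)))
  have hsub : Finset.univ.image φ ⊆
      Finset.univ.filter fun v : Fin (dim K n) => cls Γ K (decT K n v) = x := by
    intro v hv
    rw [Finset.mem_image] at hv
    obtain ⟨z, -, rfl⟩ := hv
    rw [Finset.mem_filter, hφ]
    exact ⟨Finset.mem_univ _, h _ _ _ _⟩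
  have hc := Finset.card_le_card hsub
  rw [Finset.card_image_of_injective _ hinj, Finset.card_univ, Fintype.card_prod,
    Fintype.card_prod, Fintype.card_prod, Fintype.card_fin, Fintype.card_fin] at hc
  refine lt_of_lt_of_le ?_ hc
  have h1 : (K + 1) * (2 * ((K + 1) * 2)) ≤ (K + 1) * ((n + 2) * ((K + 1) * (n + 2))) :=
    Nat.mul_le_mul_left _ (Nat.mul_le_mul (by omega) (Nat.mul_le_mul_left _ (by omega)))
  refine lt_of_lt_of_le ?_ h1
  unfold budget
  nlinarith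

/-- The concrete graph is a gadget graph. -/
noncomputable def newGadget : Gadget Γ K (newGraph Γ K) where
  cl := fun v => cls Γ K (decT K n v)
  adj := fun v w => Iff.rfl
  uX := fun v w q a hv hw => inj_cl K (cls_X Γ K hv) (cls_X Γ K hw)
  uE := fun v w q r a b c hv hw => inj_cl K (cls_E Γ K hv).1 (cls_E Γ K hw).1
  uP := fun v w q r c hv hw => inj_cl K (cls_P Γ K hv) (cls_P Γ K hw)
  uQ := fun v w q hv hw => inj_cl K (cls_Q Γ K hv) (cls_Q Γ K hw)
  eX := fun q a => by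
    obtain ⟨v, hv⟩ := ex_cl (K := K) (n := n) (τ := ⟨3, q, a, 0, 0, 0⟩)
      (ok_of K (by omega) q.2 a.2 (by omega) (by omega) (by omega))
    exact ⟨v, by rw [hv]; exact cls_X' Γ K q a⟩
  eE := fun q r a b c => by
    constructor
    · rintro ⟨v, hv⟩
      exact (cls_E Γ K hv).2
    · intro h
      obtain ⟨v, hv⟩ := ex_cl (K := K) (n := n) (τ := ⟨4, q, a, r, b, c⟩)
        (ok_of K (by omega) q.2 a.2 (by omega) (by omega) c.2)
      exact ⟨v, by rw [hv]; exact cls_E' Γ K h⟩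
  eP := fun q r c => by
    obtain ⟨v, hv⟩ := ex_cl (K := K) (n := n) (τ := ⟨5, q, 0, r, 0, c⟩)
      (ok_of' K (by omega) q.2 (by omega) (by omega) (by omega) c.2)
    exact ⟨v, by rw [hv]; exact cls_P' Γ K q r c⟩
  eQ := fun q => by
    obtain ⟨v, hv⟩ := ex_cl (K := K) (n := n) (τ := ⟨6, q, 0, 0, 0, 0⟩)
      (ok_of' K (by omega) q.2 (by omega) (by omega) (by omega) (by omega))
    exact ⟨v, by rw [hv]; exact cls_Q' Γ K q⟩
  cC := by
    have := count_cl Γ K 0 (by omega) .C (by intro q a r b; simp [cls])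
    convert this
  cS := by
    have := count_cl Γ K 1 (by omega) .S (by intro q a r b; simp [cls])
    convert this
  cY := by
    have := count_cl Γ K 2 (by omega) .Y (by intro q a r b; simp [cls])
    convert this
  cW := by
    have := count_cl Γ K 3 (by omega) .W (by intro q a r b; simp [cls])
    convert this

/-- Correctness of the reduction. -/
theorem newGraph_correct : Contractible claw (newGraph Γ K) (budget K) ↔
    ∃ s : Finset (Fin n), Γ.IsNClique K s :=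
  (newGadget Γ K).correct

end Pool.Agent.H603R2
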