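import Mathlib

/-!
Definitions: contraction of sets of edges and `H`-free graphs; parameterized problems,
fixed-parameter tractability, fpt-reductions, `W[1]` and `W[1]`-hardness, with Mathlib's
`Turing.FinTM2` as the model of computation; parameterized graph problems.
-/

namespace Pool.Agent.H603R2

open SimpleGraph Turing

/-! ### Graphs -/

/-- The graph `G / F` obtained from `G` by contracting the edges in `F`: its vertices are the
connected components of the graph `(V, F)`, and two distinct components are adjacent iff some
edge of `G` joins a vertex of one to a vertex of the other. -/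
def contract {V : Type*} (G : SimpleGraph V) (F : Set (Sym2 V)) :
    SimpleGraph (SimpleGraph.fromEdgeSet F).ConnectedComponent where
  Adj C D := C ≠ D ∧ ∃ u v, (SimpleGraph.fromEdgeSet F).connectedComponentMk u = C ∧
    (SimpleGraph.fromEdgeSet F).connectedComponentMk v = D ∧ G.Adj u v
  symm := ⟨by
    rintro C D ⟨h, u, v, hu, hv, huv⟩
    exact ⟨h.symm, v, u, hv, hu, huv.symm⟩⟩
  loopless := ⟨fun _ h => h.1 rfl⟩

/-- `G` is `H`-free: no induced subgraph of `G` is isomorphic to `H`. -/
def Free {W V : Type*} (H : SimpleGraph W) (G : SimpleGraph V) : Prop := IsEmpty (H ↪g G)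

/-- The claw `K_{1,3}`. -/
abbrev claw : SimpleGraph (Fin 1 ⊕ Fin 3) := completeBipartiteGraph (Fin 1) (Fin 3)

/-- `G` can be turned into an `H`-free graph by contracting at most `k` edges. -/
def Contractible {W V : Type*} (H : SimpleGraph W) (G : SimpleGraph V) (k : ℕ) : Prop :=
  ∃ F : Finset (Sym2 V), (F : Set (Sym2 V)) ⊆ G.edgeSet ∧ F.card ≤ k ∧
    Free H (contract G (F : Set (Sym2 V)))

/-! ### Parameterized problems -/

/-- A parameterized decision problem: a type of instances, the bit strings that encode them, the
parameter of an instance, and the yes-instances. (A subset of `{0,1}* × ℕ` is the case in which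
the instances are the pairs `(x, k)`.) -/
structure ParamProblem where
  /-- the instances -/
  Inst : Type
  /-- the encoding of instances by bit strings -/
  enc : Inst → List Bool
  /-- the parameter -/
  param : Inst → ℕ
  /-- the yes-instances -/
  Yes : Inst → Prop

/-- Some machine (`Turing.FinTM2`), whose input and output alphabets are identified with `Bool`,
computes for every `x` the string `out x` from the string `inp x` in at most
`f (κ x) * (|inp x| + 1) ^ c` steps, where `f` is computable and `c` is a constant. -/
def FptComputable {I : Type} (inp : I → List Bool) (κ : I → ℕ) (out : I → List Bool) : Prop :=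
  ∃ (M : TM2ComputableAux Bool Bool) (f : ℕ → ℕ) (c : ℕ), Computable f ∧
    ∀ x : I, Nonempty (TM2OutputsInTime M.tm ((inp x).map M.inputAlphabet.invFun)
      (some ((out x).map M.outputAlphabet.invFun)) (f (κ x) * ((inp x).length + 1) ^ c))

open Classical in
/-- Fixed-parameter tractable: some algorithm decides whether `x` is a yes-instance in time
`f (parameter) * (size + 1) ^ c`, with `f` computable. -/
def FPT (P : ParamProblem) : Prop :=
  FptComputable P.enc P.param (fun x => [decide (P.Yes x)])

/-- fpt-reducibility: a map `R` computable in time `f (parameter) * (size + 1) ^ c` that preserves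
the answer and such that the parameter of `R x` is at most a computable function of the parameter
of `x`. -/
def FptReduces (P Q : ParamProblem) : Prop :=
  ∃ R : P.Inst → Q.Inst, FptComputable P.enc P.param (fun x => Q.enc (R x)) ∧
    (∀ x, P.Yes x ↔ Q.Yes (R x)) ∧
    ∃ g : ℕ → ℕ, Computable g ∧ ∀ x, Q.param (R x) ≤ g (P.param x)

/-! ### Parameterized graph problems and `W[1]` -/

/-- An instance of a parameterized graph problem: a graph and the parameter `k`. -/
structure GraphInst where
  /-- the number of vertices -/
  n : ℕ
  /-- the graph, with vertices `0, …, n - 1` -/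
  G : SimpleGraph (Fin n)
  /-- the parameter -/
  k : ℕ

/-- the adjacency matrix of a graph, row by row -/
noncomputable def adjBits {n : ℕ} (G : SimpleGraph (Fin n)) : List Bool :=
  open Classical in
  (List.finRange n).flatMap fun i => (List.finRange n).map fun j => decide (G.Adj i j)

/-- the string `1^k 0 1^n 0 M` -/
def inStr (k n : ℕ) (M : List Bool) : List Bool :=
  List.replicate k true ++ false :: (List.replicate n true ++ false :: M)

/-- The parameterized graph problem: given `G` and `k`, does `Y G k` hold? The parameter is `k`;
the instance `(G, k)` is encoded by `1^k 0 1^n 0` followed by the adjacency matrix of `G`, row by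
row. -/
noncomputable def graphProblem (Y : ∀ n : ℕ, SimpleGraph (Fin n) → ℕ → Prop) : ParamProblem where
  Inst := GraphInst
  enc x := inStr x.k x.n (adjBits x.G)
  param x := x.k
  Yes x := Y x.n x.G x.k

/-- `Clique`: given `G` and `k`, does `G` have a clique of `k` vertices? Parameter: `k`. -/
noncomputable def pClique : ParamProblem :=
  graphProblem fun _ G k => ∃ s, G.IsNClique k s

/-- The class `W[1]`: the parameterized problems that are fpt-reducible to `Clique`. -/
def W1 (P : ParamProblem) : Prop := FptReduces P pClique

/-- `W[1]`-hardness under fpt-reductions. -/
def W1Hard (Q : ParamProblem) : Prop := ∀ P : ParamProblem, W1 P → FptReduces P Q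

/-- `H`-Free Contraction: given a graph `G` and an integer `k`, can `G` be turned into an `H`-free
graph by contracting at most `k` edges? Parameter: `k`. -/
noncomputable def HFreeContraction {W : Type} (H : SimpleGraph W) : ParamProblem :=
  graphProblem fun _ G k => Contractible H G k

end Pool.Agent.H603R2
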