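import Pool.Agent.H603R2.StackProg
import Pool.Agent.H603R2.Defs

/-!
Nested loops over unary counters with Boolean tests, as stack programs.
-/

namespace Pool.Agent.H603R2

section

variable {R : Type} [DecidableEq R]

/-- big-step semantics with an upper bound for the cost -/
def Ex (p : Prog R) (s s' : St R) (T : ℕ) : Prop := ∃ t, t ≤ T ∧ Ev p s s' t

theorem Ex.mono {p : Prog R} {s s' : St R} {T T' : ℕ} (h : Ex p s s' T) (hT : T ≤ T') :
    Ex p s s' T' := by
  obtain ⟨t, ht, h⟩ := h
  exact ⟨t, ht.trans hT, h⟩

theorem Ex.to {p : Prog R} {s s' s'' : St R} {T T' : ℕ} (h : Ex p s s' T) (hs : s' = s'')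
    (hT : T ≤ T') : Ex p s s'' T' := by
  subst hs
  exact h.mono hT

theorem Ev.to {p : Prog R} {s s' s'' : St R} {T : ℕ} (h : Ev p s s' T) (hs : s' = s'') :
    Ev p s s'' T := by
  subst hs
  exact h

theorem Ex.nop (s : St R) : Ex .nop s s 1 := ⟨1, le_rfl, .nop s⟩

theorem Ex.push (k : R) (b : Bool) (s : St R) :
    Ex (.push k b) s (Function.update s k (b :: s k)) 1 := ⟨1, le_rfl, .push k b s⟩

theorem Ex.pop (k : R) (s : St R) :
    Ex (.pop k) s (Function.update s k (s k).tail) 1 := ⟨1, le_rfl, .pop k s⟩

theorem Ex.seq {p q : Prog R} {s s' s'' : St R} {T T' : ℕ} (h : Ex p s s' T)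
    (h' : Ex q s' s'' T') : Ex (.seq p q) s s'' (T + T') := by
  obtain ⟨t, ht, h⟩ := h
  obtain ⟨t', ht', h'⟩ := h'
  exact ⟨t + t', by omega, .seq h h'⟩

theorem Ex.topT {k : R} {p q : Prog R} {s s' : St R} {T : ℕ} (h0 : (s k).head? = some true)
    (h : Ex p s s' T) : Ex (.ifTop k p q) s s' (T + 1) := by
  obtain ⟨t, ht, h⟩ := h
  exact ⟨t + 1, by omega, .topT h0 h⟩

theorem Ex.topF {k : R} {p q : Prog R} {s s' : St R} {T : ℕ} (h0 : (s k).head? ≠ some true)
    (h : Ex q s s' T) : Ex (.ifTop k p q) s s' (T + 1) := by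
  obtain ⟨t, ht, h⟩ := h
  exact ⟨t + 1, by omega, .topF h0 h⟩

theorem Ex.empT {k : R} {p q : Prog R} {s s' : St R} {T : ℕ} (h0 : s k = [])
    (h : Ex p s s' T) : Ex (.ifEmpty k p q) s s' (T + 1) := by
  obtain ⟨t, ht, h⟩ := h
  exact ⟨t + 1, by omega, .empT h0 h⟩

theorem Ex.empF {k : R} {p q : Prog R} {s s' : St R} {T : ℕ} (h0 : s k ≠ [])
    (h : Ex q s s' T) : Ex (.ifEmpty k p q) s s' (T + 1) := by
  obtain ⟨t, ht, h⟩ := h
  exact ⟨t + 1, by omega, .empF h0 h⟩

theorem Ex.loop {k : R} {p : Prog R} {T : ℕ} : ∀ (n : ℕ) (σ : ℕ → St R)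
    (_ : ∀ i < n, σ i k ≠ []) (_ : ∀ i < n, Ex p (σ i) (σ (i + 1)) T) (_ : σ n k = []),
    Ex (.loop k p) (σ 0) (σ n) (n * (T + 1) + 1)
  | 0, σ, _, _, h3 => ⟨1, by omega, .loopN h3⟩
  | n + 1, σ, h1, h2, h3 => by
      obtain ⟨t, ht, h⟩ := h2 0 (by omega)
      obtain ⟨t', ht', h'⟩ := Ex.loop n (fun i => σ (i + 1)) (fun i hi => h1 _ (by omega))
        (fun i hi => h2 _ (by omega)) h3
      refine ⟨t + t' + 1, ?_, .loopC (h1 0 (by omega)) h h'⟩
      have : (n + 1) * (T + 1) = n * (T + 1) + (T + 1) := by ring
      omega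

/-- empty stack `k` -/
def clear (k : R) : Prog R := .loop k (.pop k)

theorem clear_ex (k : R) (s : St R) :
    Ex (clear k) s (Function.update s k []) (2 * (s k).length + 1) := by
  have := Ex.loop (k := k) (p := .pop k) (T := 1) (s k).length
    (fun i => Function.update s k ((s k).drop i))
    (fun i hi => by
      rw [Function.update_self]
      intro h
      rw [List.drop_eq_nil_iff] at h
      omega)
    (fun i hi => by
      have := Ex.pop k (Function.update s k ((s k).drop i))
      rwa [Function.update_self, Function.update_idem, List.tail_drop] at this)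
    (by rw [Function.update_self, List.drop_length])
  rw [List.drop_zero, Function.update_eq_self, List.drop_length] at this
  refine this.mono (by omega)

/-- pop stack `k` onto stack `l` -/
def move (k l : R) : Prog R :=
  .loop k (.seq (.ifTop k (.push l true) (.push l false)) (.pop k))

theorem move_ex {k l : R} (hkl : k ≠ l) : ∀ (x : List Bool) (s : St R), s k = x →
    Ex (move k l) s (Function.update (Function.update s k []) l (x.reverse ++ s l))
      (4 * x.length + 1)
  | [], s, h => by
      have e : Function.update (Function.update s k []) l (([] : List Bool).reverse ++ s l) = s := by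
        rw [← h, Function.update_eq_self, h]
        simp
      rw [e]
      exact ⟨1, by simp, .loopN h⟩
  | b :: x, s, h => by
      have h1 : Ex (.ifTop k (.push l true) (.push l false)) s
          (Function.update s l (b :: s l)) 2 := by
        cases b with
        | true => exact Ex.topT (by rw [h]; rfl) (Ex.push l true s)
        | false => exact Ex.topF (by rw [h]; simp) (Ex.push l false s)
      have h2 := Ex.pop k (Function.update s l (b :: s l))
      rw [Function.update_of_ne hkl, h, List.tail_cons] at h2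
      have ih := move_ex hkl x (Function.update (Function.update s l (b :: s l)) k x)
        (by rw [Function.update_self])
      obtain ⟨t, ht, h3⟩ := h1.seq h2
      obtain ⟨t', ht', h4⟩ := ih
      refine ⟨t + t' + 1, by simp only [List.length_cons]; omega, ?_⟩
      refine (Ev.loopC (by rw [h]; simp) h3 h4).to ?_
      funext r
      by_cases hr : r = l
      · subst hr
        simp [Function.update_of_ne hkl.symm]
      · by_cases hr' : r = k
        · subst hr'
          simp [hr]
        · simp [hr, hr']

/-- copy stack `k` onto stack `l`, using the empty stack `t` -/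
def copy (k l t : R) : Prog R :=
  .seq (move k t) (.loop t (.seq (.ifTop t (.seq (.push k true) (.push l true))
    (.seq (.push k false) (.push l false))) (.pop t)))

theorem copy_aux {k l t : R} (hkl : k ≠ l) (hkt : k ≠ t) (hlt : l ≠ t) :
    ∀ (x : List Bool) (s : St R), s t = x →
    Ex (.loop t (.seq (.ifTop t (.seq (.push k true) (.push l true))
    (.seq (.push k false) (.push l false))) (.pop t))) s
      (Function.update (Function.update (Function.update s t []) k (x.reverse ++ s k)) l
        (x.reverse ++ s l)) (5 * x.length + 1)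
  | [], s, h => by
      have e : Function.update (Function.update (Function.update s t []) k
        (([] : List Bool).reverse ++ s k)) l (([] : List Bool).reverse ++ s l) = s := by
        rw [← h, Function.update_eq_self, h]
        simp
      rw [e]
      exact ⟨1, by simp, .loopN h⟩
  | b :: x, s, h => by
      have h1 : Ex (.ifTop t (.seq (.push k true) (.push l true))
          (.seq (.push k false) (.push l false))) s
          (Function.update (Function.update s k (b :: s k)) l (b :: s l)) 3 := by
        cases b with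
        | true =>
          have := (Ex.push k true s).seq (Ex.push l true _)
          rw [Function.update_of_ne hkl.symm] at this
          exact Ex.topT (by rw [h]; rfl) this
        | false =>
          have := (Ex.push k false s).seq (Ex.push l false _)
          rw [Function.update_of_ne hkl.symm] at this
          exact Ex.topF (by rw [h]; simp) this
      have h2 := Ex.pop t (Function.update (Function.update s k (b :: s k)) l (b :: s l))
      rw [Function.update_of_ne hlt.symm, Function.update_of_ne hkt.symm, h,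
        List.tail_cons] at h2
      have ih := copy_aux hkl hkt hlt x (Function.update (Function.update
        (Function.update s k (b :: s k)) l (b :: s l)) t x) (by rw [Function.update_self])
      obtain ⟨t1, ht1, h3⟩ := h1.seq h2
      obtain ⟨t', ht', h4⟩ := ih
      refine ⟨t1 + t' + 1, by simp only [List.length_cons]; omega, ?_⟩
      refine (Ev.loopC (by rw [h]; simp) h3 h4).to ?_
      funext r
      by_cases hr : r = l
      · subst hr
        simp [hlt]
      · by_cases hr' : r = k
        · subst hr'
          simp [hr, hkt]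
        · by_cases hr'' : r = t
          · subst hr''
            simp [hr, hr']
          · simp [hr, hr', hr'']

theorem copy_ex {k l t : R} (hkl : k ≠ l) (hkt : k ≠ t) (hlt : l ≠ t) (s : St R)
    (ht : s t = []) :
    Ex (copy k l t) s (Function.update s l (s k ++ s l)) (9 * (s k).length + 2) := by
  have h1 := move_ex hkt (s k) s rfl
  rw [ht, List.append_nil] at h1
  have h2 := copy_aux hkl hkt hlt _ (Function.update (Function.update s k []) t (s k).reverse)
    (Function.update_self ..)
  refine (h1.seq h2).to ?_ ?_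
  · funext r
    by_cases hr : r = l
    · subst hr
      simp [hlt, hkl.symm]
    · by_cases hr' : r = k
      · subst hr'
        simp [hr, hkt]
      · by_cases hr'' : r = t
        · subst hr''
          simp [hr, hr', ht]
        · simp [hr, hr', hr'']
  · simp only [List.length_reverse]
    omega

/-- push `c` times the bit `true` on stack `k` -/
def pushN (k : R) : ℕ → Prog R
  | 0 => .nop
  | c + 1 => .seq (pushN k c) (.push k true)

theorem pushN_ex (k : R) : ∀ (c : ℕ) (s : St R),
    Ex (pushN k c) s (Function.update s k (List.replicate c true ++ s k)) (c + 1)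
  | 0, s => by
      simp only [List.replicate_zero, List.nil_append, Function.update_eq_self]
      exact Ex.nop s
  | c + 1, s => by
      have h := (pushN_ex k c s).seq (Ex.push k true _)
      rw [Function.update_self, Function.update_idem] at h
      exact h

end


/-! ### Registers -/

/-- registers: eight stacks and `m` unary counters -/
inductive Rg (m : ℕ) : Type
  | inp | out | mat | acc | t0 | t1 | t2 | t3
  | v (i : Fin m)
  deriving DecidableEq

instance (m : ℕ) : Fintype (Rg m) :=
  Fintype.ofSurjective (fun x : Fin 8 ⊕ Fin m => match x with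
    | .inl 0 => Rg.inp
    | .inl 1 => Rg.out
    | .inl 2 => Rg.mat
    | .inl 3 => Rg.acc
    | .inl 4 => Rg.t0
    | .inl 5 => Rg.t1
    | .inl 6 => Rg.t2
    | .inl 7 => Rg.t3
    | .inr i => Rg.v i) (by
    intro r
    cases r with
    | inp => exact ⟨.inl 0, rfl⟩
    | out => exact ⟨.inl 1, rfl⟩
    | mat => exact ⟨.inl 2, rfl⟩
    | acc => exact ⟨.inl 3, rfl⟩
    | t0 => exact ⟨.inl 4, rfl⟩
    | t1 => exact ⟨.inl 5, rfl⟩
    | t2 => exact ⟨.inl 6, rfl⟩
    | t3 => exact ⟨.inl 7, rfl⟩
    | v i => exact ⟨.inr i, rfl⟩)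

section

variable {m : ℕ}

/-- the state with the given contents -/
def S (x0 x1 x2 x3 x4 x5 x6 x7 : List Bool) (ρ : Fin m → ℕ) : St (Rg m)
  | .inp => x0
  | .out => x1
  | .mat => x2
  | .acc => x3
  | .t0 => x4
  | .t1 => x5
  | .t2 => x6
  | .t3 => x7
  | .v i => List.replicate (ρ i) true

variable (x0 x1 x2 x3 x4 x5 x6 x7 y : List Bool) (ρ : Fin m → ℕ)

@[simp] theorem S_0 : S x0 x1 x2 x3 x4 x5 x6 x7 ρ .inp = x0 := rfl
@[simp] theorem S_1 : S x0 x1 x2 x3 x4 x5 x6 x7 ρ .out = x1 := rfl
@[simp] theorem S_2 : S x0 x1 x2 x3 x4 x5 x6 x7 ρ .mat = x2 := rfl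
@[simp] theorem S_3 : S x0 x1 x2 x3 x4 x5 x6 x7 ρ .acc = x3 := rfl
@[simp] theorem S_4 : S x0 x1 x2 x3 x4 x5 x6 x7 ρ .t0 = x4 := rfl
@[simp] theorem S_5 : S x0 x1 x2 x3 x4 x5 x6 x7 ρ .t1 = x5 := rfl
@[simp] theorem S_6 : S x0 x1 x2 x3 x4 x5 x6 x7 ρ .t2 = x6 := rfl
@[simp] theorem S_7 : S x0 x1 x2 x3 x4 x5 x6 x7 ρ .t3 = x7 := rfl
@[simp] theorem S_v (i : Fin m) : S x0 x1 x2 x3 x4 x5 x6 x7 ρ (.v i) =
    List.replicate (ρ i) true := rfl

@[simp] theorem S_u0 : Function.update (S x0 x1 x2 x3 x4 x5 x6 x7 ρ) .inp y =
    S y x1 x2 x3 x4 x5 x6 x7 ρ := by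
  funext r
  cases r <;> simp
@[simp] theorem S_u1 : Function.update (S x0 x1 x2 x3 x4 x5 x6 x7 ρ) .out y =
    S x0 y x2 x3 x4 x5 x6 x7 ρ := by
  funext r
  cases r <;> simp
@[simp] theorem S_u2 : Function.update (S x0 x1 x2 x3 x4 x5 x6 x7 ρ) .mat y =
    S x0 x1 y x3 x4 x5 x6 x7 ρ := by
  funext r
  cases r <;> simp
@[simp] theorem S_u3 : Function.update (S x0 x1 x2 x3 x4 x5 x6 x7 ρ) .acc y =
    S x0 x1 x2 y x4 x5 x6 x7 ρ := by
  funext r
  cases r <;> simp
@[simp] theorem S_u4 : Function.update (S x0 x1 x2 x3 x4 x5 x6 x7 ρ) .t0 y =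
    S x0 x1 x2 x3 y x5 x6 x7 ρ := by
  funext r
  cases r <;> simp
@[simp] theorem S_u5 : Function.update (S x0 x1 x2 x3 x4 x5 x6 x7 ρ) .t1 y =
    S x0 x1 x2 x3 x4 y x6 x7 ρ := by
  funext r
  cases r <;> simp
@[simp] theorem S_u6 : Function.update (S x0 x1 x2 x3 x4 x5 x6 x7 ρ) .t2 y =
    S x0 x1 x2 x3 x4 x5 y x7 ρ := by
  funext r
  cases r <;> simp
@[simp] theorem S_u7 : Function.update (S x0 x1 x2 x3 x4 x5 x6 x7 ρ) .t3 y =
    S x0 x1 x2 x3 x4 x5 x6 y ρ := by
  funext r
  cases r <;> simp
@[simp] theorem S_uv (i : Fin m) (c : ℕ) : Function.update (S x0 x1 x2 x3 x4 x5 x6 x7 ρ)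
    (.v i) (List.replicate c true) = S x0 x1 x2 x3 x4 x5 x6 x7 (Function.update ρ i c) := by
  funext r
  cases r with
  | v j =>
    by_cases h : j = i
    · subst h
      simp
    · simp [h]
  | _ => simp

/-- unary values: a register (or zero) plus a constant -/
structure VE (m : ℕ) where
  r : Option (Fin m)
  c : ℕ

/-- value of an expression -/
def VE.val (x : VE m) (ρ : Fin m → ℕ) : ℕ := (x.r.elim 0 ρ) + x.c

/-- load a value onto a stack -/
def VE.load (x : VE m) (l : Rg m) : Prog (Rg m) :=
  .seq (match x.r with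
    | none => .nop
    | some i => copy (Rg.v i) l Rg.t0) (pushN l x.c)

/-- cost of loading -/
def VE.cost (x : VE m) (N : ℕ) : ℕ := 9 * N + x.c + 3

theorem VE.load_ex (x : VE m) (l : Rg m) (s : St (Rg m)) (hl : ∀ i, x.r = some i → Rg.v i ≠ l)
    (hl' : l ≠ Rg.t0) (h0 : s Rg.t0 = []) (ρ : Fin m → ℕ)
    (hs : ∀ i, s (Rg.v i) = List.replicate (ρ i) true) (N : ℕ) (hN : ∀ i, ρ i ≤ N) :
    Ex (x.load l) s (Function.update s l (List.replicate (x.val ρ) true ++ s l)) (x.cost N) := by
  obtain ⟨r, c⟩ := x
  cases r with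
  | none =>
    refine ((Ex.nop s).seq (pushN_ex l c s)).to ?_ ?_
    · simp [VE.val]
    · simp only [VE.cost]; omega
  | some i =>
    have h1 := copy_ex (hl i rfl) (by simp) hl' s h0
    refine (h1.seq (pushN_ex l c _)).to ?_ ?_
    · rw [Function.update_self, Function.update_idem, hs i]
      congr 1
      simp only [VE.val, Option.elim]
      rw [← List.append_assoc, ← List.replicate_add, Nat.add_comm]
    · rw [hs i]
      have := hN i
      simp only [VE.cost, List.length_replicate]
      omega

/-- Boolean tests -/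
inductive BE (m : ℕ) : Type
  | tt : BE m
  | lt (x y : VE m) : BE m
  | look (x y n : VE m) : BE m
  | and (e f : BE m) : BE m
  | not (e : BE m) : BE m

/-- value of a test; `look x y n` is the bit with number `x * n + y` of `M` -/
def BE.val (ρ : Fin m → ℕ) (M : List Bool) : BE m → Bool
  | .tt => true
  | .lt x y => decide (x.val ρ < y.val ρ)
  | .look x y n => M.getD (x.val ρ * n.val ρ + y.val ρ) false
  | .and e f => e.val ρ M && f.val ρ M
  | .not e => !e.val ρ M

/-- the program evaluating a test -/
def BE.prog : BE m → Prog (Rg m)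
  | .tt => .push Rg.acc true
  | .lt x y => .seq (x.load Rg.t1) (.seq (y.load Rg.t2) (.seq (.loop Rg.t1 (.seq (.pop Rg.t1) (.pop Rg.t2)))
      (.ifEmpty Rg.t2 (.push Rg.acc false) (.seq (clear Rg.t2) (.push Rg.acc true)))))
  | .look x y n => .seq (copy Rg.mat Rg.t1 Rg.t0) (.seq (x.load Rg.t2) (.seq
      (.loop Rg.t2 (.seq (.pop Rg.t2) (.seq (n.load Rg.t3) (.loop Rg.t3 (.seq (.pop Rg.t3) (.pop Rg.t1))))))
      (.seq (y.load Rg.t2) (.seq (.loop Rg.t2 (.seq (.pop Rg.t2) (.pop Rg.t1)))
      (.seq (.ifTop Rg.t1 (.push Rg.acc true) (.push Rg.acc false)) (clear Rg.t1))))))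
  | .and e f => .seq e.prog (.seq f.prog (.ifTop Rg.acc (.pop Rg.acc)
      (.seq (.pop Rg.acc) (.seq (.pop Rg.acc) (.push Rg.acc false)))))
  | .not e => .seq e.prog (.ifTop Rg.acc (.seq (.pop Rg.acc) (.push Rg.acc false))
      (.seq (.pop Rg.acc) (.push Rg.acc true)))

/-- cost of the evaluation of a test -/
def BE.cost (N : ℕ) : BE m → ℕ
  | .tt => 1
  | .lt x y => x.cost N + y.cost N + 3 * (N + x.c) + 2 * (N + y.c) + 10
  | .look x y n => 9 * N + 2 + x.cost N + ((N + x.c) * (n.cost N + 3 * (N + n.c) + 5) + 1) +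
      y.cost N + 3 * (N + y.c) + 2 * N + 10
  | .and e f => e.cost N + f.cost N + 10
  | .not e => e.cost N + 10

theorem VE.val_le (x : VE m) (ρ : Fin m → ℕ) (N : ℕ) (hN : ∀ i, ρ i ≤ N) :
    x.val ρ ≤ N + x.c := by
  obtain ⟨r, c⟩ := x
  cases r with
  | none => simp [VE.val]
  | some i =>
    have := hN i
    simp only [VE.val, Option.elim]
    omega

theorem drop3 (inp o M a z L : List Bool) (ρ : Fin m → ℕ) (c : ℕ) :
    Ex (.loop Rg.t3 (.seq (.pop Rg.t3) (.pop Rg.t1)))
      (S inp o M a [] L z (List.replicate c true) ρ) (S inp o M a [] (L.drop c) z [] ρ)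
      (3 * c + 1) := by
  have h3 := Ex.loop (k := Rg.t3) (p := .seq (.pop Rg.t3) (.pop Rg.t1)) (T := 2) c
    (fun i => S inp o M a [] (L.drop i) z (List.replicate (c - i) true) ρ)
    (fun i hi => by
      simp only [S_7, ne_eq, List.replicate_eq_nil_iff]
      omega)
    (fun i hi => by
      refine ((Ex.pop Rg.t3 _).seq (Ex.pop Rg.t1 _)).to ?_ le_rfl
      simp only [S_7, S_u7, S_5, S_u5, List.tail_replicate, List.tail_drop]
      rfl)
    (by simp)
  simp only [Nat.sub_zero, Nat.sub_self, List.replicate_zero, List.drop_zero] at h3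
  exact h3.mono (by omega)

theorem drop2 (inp o M a L : List Bool) (ρ : Fin m → ℕ) (c : ℕ) :
    Ex (.loop Rg.t2 (.seq (.pop Rg.t2) (.pop Rg.t1)))
      (S inp o M a [] L (List.replicate c true) [] ρ) (S inp o M a [] (L.drop c) [] [] ρ)
      (3 * c + 1) := by
  have h3 := Ex.loop (k := Rg.t2) (p := .seq (.pop Rg.t2) (.pop Rg.t1)) (T := 2) c
    (fun i => S inp o M a [] (L.drop i) (List.replicate (c - i) true) [] ρ)
    (fun i hi => by
      simp only [S_6, ne_eq, List.replicate_eq_nil_iff]
      omega)
    (fun i hi => by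
      refine ((Ex.pop Rg.t2 _).seq (Ex.pop Rg.t1 _)).to ?_ le_rfl
      simp only [S_6, S_u6, S_5, S_u5, List.tail_replicate, List.tail_drop]
      rfl)
    (by simp)
  simp only [Nat.sub_zero, Nat.sub_self, List.replicate_zero, List.drop_zero] at h3
  exact h3.mono (by omega)

theorem BE.ex (e : BE m) : ∀ (inp o M a : List Bool) (ρ : Fin m → ℕ) (N : ℕ)
    (_ : ∀ i, ρ i ≤ N) (_ : M.length ≤ N),
    Ex e.prog (S inp o M a [] [] [] [] ρ) (S inp o M (e.val ρ M :: a) [] [] [] [] ρ)
      (e.cost N) := by
  induction e with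
  | tt =>
    intro inp o M a ρ N hN hM
    exact (Ex.push Rg.acc true _).to (by simp; rfl) le_rfl
  | lt x y =>
    intro inp o M a ρ N hN hM
    have hx := x.val_le ρ N hN
    have hy := y.val_le ρ N hN
    have h1 := x.load_ex Rg.t1 (S inp o M a [] [] [] [] ρ) (by simp) (by simp) rfl ρ
      (fun i => rfl) N hN
    simp only [S_u5, S_5, List.append_nil] at h1
    have h2 := y.load_ex Rg.t2 (S inp o M a [] (List.replicate (x.val ρ) true) [] [] ρ)
      (by simp) (by simp) rfl ρ (fun i => rfl) N hN
    simp only [S_u6, S_6, List.append_nil] at h2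
    have h3 := Ex.loop (k := Rg.t1) (p := .seq (.pop Rg.t1) (.pop Rg.t2)) (T := 2) (x.val ρ)
      (fun i => S inp o M a [] (List.replicate (x.val ρ - i) true)
        (List.replicate (y.val ρ - i) true) [] ρ)
      (fun i hi => by
        simp only [S_5, ne_eq, List.replicate_eq_nil_iff]
        omega)
      (fun i hi => by
        refine ((Ex.pop Rg.t1 _).seq (Ex.pop Rg.t2 _)).to ?_ le_rfl
        simp only [S_5, S_u5, S_6, S_u6, List.tail_replicate]
        rfl)
      (by simp)
    simp only [Nat.sub_zero, Nat.sub_self, List.replicate_zero] at h3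
    have h4 : Ex (.ifEmpty Rg.t2 (.push Rg.acc false) (.seq (clear Rg.t2) (.push Rg.acc true)))
        (S inp o M a [] [] (List.replicate (y.val ρ - x.val ρ) true) [] ρ)
        (S inp o M (decide (x.val ρ < y.val ρ) :: a) [] [] [] [] ρ)
        (2 * (N + y.c) + 3) := by
      by_cases hlt : x.val ρ < y.val ρ
      · refine (Ex.empF ?_ ((clear_ex Rg.t2 _).seq (Ex.push Rg.acc true _))).to ?_ ?_
        · simp only [S_6, ne_eq, List.replicate_eq_nil_iff]
          omega
        · simp [hlt]
        · simp only [S_6, List.length_replicate]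
          omega
      · refine (Ex.empT ?_ (Ex.push Rg.acc false _)).to ?_ ?_
        · simp only [S_6, List.replicate_eq_nil_iff]
          omega
        · have e : y.val ρ - x.val ρ = 0 := by omega
          simp [hlt, e]
        · omega
    refine (h1.seq (h2.seq (h3.seq h4))).mono ?_
    simp only [BE.cost]
    omega
  | look x y n =>
    intro inp o M a ρ N hN hM
    have hx := x.val_le ρ N hN
    have hy := y.val_le ρ N hN
    have hn := n.val_le ρ N hN
    have h1 := copy_ex (k := Rg.mat) (l := Rg.t1) (t := Rg.t0) (by simp) (by simp) (by simp)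
      (S inp o M a [] [] [] [] ρ) rfl
    simp only [S_u5, S_5, S_2, List.append_nil] at h1
    have h2 := x.load_ex Rg.t2 (S inp o M a [] M [] [] ρ)
      (by simp) (by simp) rfl ρ (fun i => rfl) N hN
    simp only [S_u6, S_6, List.append_nil] at h2
    have h3 := Ex.loop (k := Rg.t2)
      (p := .seq (.pop Rg.t2) (.seq (n.load Rg.t3) (.loop Rg.t3 (.seq (.pop Rg.t3) (.pop Rg.t1)))))
      (T := n.cost N + 3 * (N + n.c) + 4) (x.val ρ)
      (fun i => S inp o M a [] (M.drop (i * n.val ρ))
        (List.replicate (x.val ρ - i) true) [] ρ)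
      (fun i hi => by
        simp only [S_6, ne_eq, List.replicate_eq_nil_iff]
        omega)
      (fun i hi => by
        have h4 := Ex.pop Rg.t2 (S inp o M a [] (M.drop (i * n.val ρ))
          (List.replicate (x.val ρ - i) true) [] ρ)
        simp only [S_6, S_u6, List.tail_replicate] at h4
        have h5 := n.load_ex Rg.t3 (S inp o M a [] (M.drop (i * n.val ρ))
          (List.replicate (x.val ρ - i - 1) true) [] ρ) (by simp) (by simp) rfl ρ
          (fun i => rfl) N hN
        simp only [S_u7, S_7, List.append_nil] at h5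
        have h6 := drop3 inp o M a (List.replicate (x.val ρ - i - 1) true)
          (M.drop (i * n.val ρ)) ρ (n.val ρ)
        refine (h4.seq (h5.seq h6)).to ?_ (by omega)
        simp only [List.drop_drop]
        have e : i * n.val ρ + n.val ρ = (i + 1) * n.val ρ := by ring
        rw [e]
        rfl)
      (by simp)
    simp only [Nat.sub_zero, Nat.sub_self, List.replicate_zero, Nat.zero_mul,
      List.drop_zero] at h3
    have h7 := y.load_ex Rg.t2 (S inp o M a [] (M.drop (x.val ρ * n.val ρ)) [] [] ρ)
      (by simp) (by simp) rfl ρ (fun i => rfl) N hN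
    simp only [S_u6, S_6, List.append_nil] at h7
    have h8 := drop2 inp o M a (M.drop (x.val ρ * n.val ρ)) ρ (y.val ρ)
    rw [List.drop_drop] at h8
    have h9 : Ex (.ifTop Rg.t1 (.push Rg.acc true) (.push Rg.acc false))
        (S inp o M a [] (M.drop (x.val ρ * n.val ρ + y.val ρ)) [] [] ρ)
        (S inp o M (M.getD (x.val ρ * n.val ρ + y.val ρ) false :: a) []
          (M.drop (x.val ρ * n.val ρ + y.val ρ)) [] [] ρ) 2 := by
      generalize x.val ρ * n.val ρ + y.val ρ = p
      have e : (M.drop p).head? = M[p]? := List.head?_drop ..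
      cases hb : M[p]? with
      | none =>
        refine (Ex.topF ?_ (Ex.push Rg.acc false _)).to ?_ le_rfl
        · rw [S_5, e, hb]; simp
        · simp [List.getD, hb]
      | some b =>
        cases b with
        | true =>
          refine (Ex.topT ?_ (Ex.push Rg.acc true _)).to ?_ le_rfl
          · rw [S_5, e, hb]
          · simp [List.getD, hb]
        | false =>
          refine (Ex.topF ?_ (Ex.push Rg.acc false _)).to ?_ le_rfl
          · rw [S_5, e, hb]; simp
          · simp [List.getD, hb]
    have h10 := clear_ex Rg.t1 (S inp o M (M.getD (x.val ρ * n.val ρ + y.val ρ) false :: a) []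
          (M.drop (x.val ρ * n.val ρ + y.val ρ)) [] [] ρ)
    simp only [S_u5, S_5, List.length_drop] at h10
    refine (h1.seq (h2.seq (h3.seq (h7.seq (h8.seq (h9.seq h10)))))).mono ?_
    have hmul : x.val ρ * (n.cost N + 3 * (N + n.c) + 4 + 1) ≤
        (N + x.c) * (n.cost N + 3 * (N + n.c) + 5) := Nat.mul_le_mul_right _ hx
    simp only [BE.cost]
    omega
  | and e f ihe ihf =>
    intro inp o M a ρ N hN hM
    have h1 := ihe inp o M a ρ N hN hM
    have h2 := ihf inp o M (e.val ρ M :: a) ρ N hN hM
    have h3 : Ex (.ifTop Rg.acc (.pop Rg.acc)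
        (.seq (.pop Rg.acc) (.seq (.pop Rg.acc) (.push Rg.acc false))))
        (S inp o M (f.val ρ M :: e.val ρ M :: a) [] [] [] [] ρ)
        (S inp o M ((e.val ρ M && f.val ρ M) :: a) [] [] [] [] ρ) 10 := by
      cases hf : f.val ρ M with
      | true =>
        refine (Ex.topT rfl (Ex.pop Rg.acc _)).to ?_ (by omega)
        simp
      | false =>
        refine (Ex.topF (by simp) ((Ex.pop Rg.acc _).seq ((Ex.pop Rg.acc _).seq
          (Ex.push Rg.acc false _)))).to ?_ (by omega)
        simp
    refine (h1.seq (h2.seq h3)).mono ?_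
    simp only [BE.cost]
    omega
  | not e ihe =>
    intro inp o M a ρ N hN hM
    have h1 := ihe inp o M a ρ N hN hM
    have h3 : Ex (.ifTop Rg.acc (.seq (.pop Rg.acc) (.push Rg.acc false))
        (.seq (.pop Rg.acc) (.push Rg.acc true)))
        (S inp o M (e.val ρ M :: a) [] [] [] [] ρ)
        (S inp o M ((!e.val ρ M) :: a) [] [] [] [] ρ) 10 := by
      cases hf : e.val ρ M with
      | true =>
        refine (Ex.topT rfl ((Ex.pop Rg.acc _).seq (Ex.push Rg.acc false _))).to ?_ (by omega)
        simp
      | false =>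
        refine (Ex.topF (by simp) ((Ex.pop Rg.acc _).seq (Ex.push Rg.acc true _))).to ?_ (by omega)
        simp
    refine (h1.seq h3).mono ?_
    simp only [BE.cost]
    omega

/-- nested loops emitting bits -/
inductive Em (m : ℕ) : Type
  | emit (b : BE m) : Em m
  | loop (i : Fin m) (B : VE m) (e : Em m) : Em m
  | seq (e f : Em m) : Em m

/-- the emitted bits -/
def Em.out (M : List Bool) : Em m → (Fin m → ℕ) → List Bool
  | .emit b, ρ => [b.val ρ M]
  | .loop i B e, ρ => (List.range (B.val ρ)).flatMap (fun j => e.out M (Function.update ρ i j))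
  | .seq e f, ρ => e.out M ρ ++ f.out M ρ

/-- well-formedness: the loop variables are not busy -/
def Em.wf : Em m → List (Fin m) → Bool
  | .emit _, _ => true
  | .loop i B e, U => !(U.contains i) && decide (B.r ≠ some i) && e.wf (i :: U)
  | .seq e f, U => e.wf U && f.wf U

/-- the program -/
def Em.prog : Em m → Prog (Rg m)
  | .emit b => .seq b.prog (.seq (.ifTop Rg.acc (.push Rg.out true) (.push Rg.out false))
      (.pop Rg.acc))
  | .loop i B e => .seq (B.load (Rg.v i)) (.loop (Rg.v i) (.seq (.pop (Rg.v i)) e.prog))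
  | .seq e f => .seq f.prog e.prog

/-- cost of the program -/
def Em.cost : Em m → ℕ → ℕ
  | .emit b, N => b.cost N + 5
  | .loop _ B e, N => B.cost N + ((N + B.c) * (e.cost (N + B.c) + 2) + 1)
  | .seq e f, N => e.cost N + f.cost N

theorem Em.ex (M : List Bool) (e : Em m) : ∀ (inp o a : List Bool) (ρ : Fin m → ℕ) (N : ℕ)
    (U : List (Fin m)) (_ : e.wf U = true) (_ : ∀ i, i ∉ U → ρ i = 0)
    (_ : ∀ i, ρ i ≤ N) (_ : M.length ≤ N),
    Ex e.prog (S inp o M a [] [] [] [] ρ) (S inp (e.out M ρ ++ o) M a [] [] [] [] ρ)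
      (e.cost N) := by
  induction e with
  | emit b =>
    intro inp o a ρ N U hwf hU hN hM
    have h1 := b.ex inp o M a ρ N hN hM
    have h2 : Ex (.seq (.ifTop Rg.acc (.push Rg.out true) (.push Rg.out false))
      (.pop Rg.acc)) (S inp o M (b.val ρ M :: a) [] [] [] [] ρ)
        (S inp (b.val ρ M :: o) M a [] [] [] [] ρ) 3 := by
      cases hb : b.val ρ M with
      | true =>
        refine ((Ex.topT rfl (Ex.push Rg.out true _)).seq (Ex.pop Rg.acc _)).to ?_ le_rfl
        simp
      | false =>
        refine ((Ex.topF (by simp) (Ex.push Rg.out false _)).seq (Ex.pop Rg.acc _)).to ?_ le_rfl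
        simp
    refine (h1.seq h2).to rfl ?_
    simp only [Em.cost]
    omega
  | loop i B e ih =>
    intro inp o a ρ N U hwf hU hN hM
    simp only [Em.wf, Bool.and_eq_true, Bool.not_eq_true', decide_eq_true_eq,
      List.contains_eq_mem, decide_eq_false_iff_not] at hwf
    obtain ⟨⟨hi, hB⟩, hwf⟩ := hwf
    have hρi := hU i hi
    have hBv := B.val_le ρ N hN
    have h1 := B.load_ex (Rg.v i) (S inp o M a [] [] [] [] ρ)
      (fun j hj h => by
        simp only [Rg.v.injEq] at h
        rw [h] at hj
        exact hB hj) (by simp) rfl ρ (fun i => rfl) N hN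
    rw [S_v, hρi, List.replicate_zero, List.append_nil, S_uv] at h1
    generalize hX : B.val ρ = X at *
    have h2 := Ex.loop (k := Rg.v i) (p := .seq (.pop (Rg.v i)) e.prog)
      (T := e.cost (N + B.c) + 1) X
      (fun t => S inp (((List.range X).drop (X - t)).flatMap
        (fun j => e.out M (Function.update ρ i j)) ++ o) M a [] [] [] []
        (Function.update ρ i (X - t)))
      (fun t ht => by
        simp only [S_v, Function.update_self, ne_eq, List.replicate_eq_nil_iff]
        omega)
      (fun t ht => by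
        have h3 := Ex.pop (Rg.v i) (S inp (((List.range X).drop (X - t)).flatMap
          (fun j => e.out M (Function.update ρ i j)) ++ o) M a [] [] [] []
          (Function.update ρ i (X - t)))
        rw [S_v, Function.update_self, List.tail_replicate, S_uv, Function.update_idem] at h3
        have h4 := ih inp (((List.range X).drop (X - t)).flatMap
          (fun j => e.out M (Function.update ρ i j)) ++ o) a
          (Function.update ρ i (X - t - 1)) (N + B.c) (i :: U) hwf
          (fun j hj => by
            simp only [List.mem_cons, not_or] at hj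
            rw [Function.update_of_ne hj.1]
            exact hU j hj.2)
          (fun j => by
            by_cases hj : j = i
            · subst hj
              rw [Function.update_self]
              omega
            · rw [Function.update_of_ne hj]
              have := hN j
              omega) (by omega)
        refine (h3.seq h4).to ?_ (by omega)
        rw [← List.append_assoc]
        have e1 : (List.range X).drop (X - (t + 1)) = (X - t - 1) :: (List.range X).drop (X - t) := by
          have hlt : X - (t + 1) < (List.range X).length := by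
            rw [List.length_range]; omega
          rw [List.drop_eq_getElem_cons hlt, List.getElem_range]
          have e2 : X - (t + 1) + 1 = X - t := by omega
          rw [e2]
          rfl
        rw [e1, List.flatMap_cons]
        rfl)
      (by simp)
    simp only [Nat.sub_zero, Nat.sub_self, List.drop_zero] at h2
    have e0 : (List.range X).drop X = [] := by
      rw [List.drop_eq_nil_iff, List.length_range]
    have e3 : Function.update ρ i 0 = ρ := by
      rw [← hρi, Function.update_eq_self]
    rw [e0, e3, List.flatMap_nil, List.nil_append] at h2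
    refine (h1.seq h2).to ?_ ?_
    · simp only [Em.out, hX]
    · simp only [Em.cost]
      have : X * (e.cost (N + B.c) + 1 + 1) ≤ (N + B.c) * (e.cost (N + B.c) + 2) :=
        Nat.mul_le_mul_right _ hBv
      omega
  | seq e f ihe ihf =>
    intro inp o a ρ N U hwf hU hN hM
    simp only [Em.wf, Bool.and_eq_true] at hwf
    have h1 := ihf inp o a ρ N U hwf.2 hU hN hM
    have h2 := ihe inp (f.out M ρ ++ o) a ρ N U hwf.1 hU hN hM
    refine (h1.seq h2).to ?_ ?_
    · simp only [Em.out, List.append_assoc]
    · simp only [Em.cost]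
      omega

/-- polynomially bounded functions -/
def PolyB (f : ℕ → ℕ) : Prop := ∃ c, ∀ N, f N ≤ (N + 2) ^ c

theorem PolyB.mono {f g : ℕ → ℕ} (hg : PolyB g) (h : ∀ N, f N ≤ g N) : PolyB f := by
  obtain ⟨c, hc⟩ := hg
  exact ⟨c, fun N => (h N).trans (hc N)⟩

theorem PolyB.const (a : ℕ) : PolyB (fun _ => a) := by
  refine ⟨a, fun N => ?_⟩
  calc a ≤ 2 ^ a := Nat.lt_two_pow_self.le
    _ ≤ (N + 2) ^ a := Nat.pow_le_pow_left (by omega) a

theorem PolyB.id : PolyB (fun N => N) := ⟨1, fun N => by simp⟩

theorem PolyB.mul {f g : ℕ → ℕ} (hf : PolyB f) (hg : PolyB g) : PolyB (fun N => f N * g N) := by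
  obtain ⟨c, hc⟩ := hf
  obtain ⟨d, hd⟩ := hg
  refine ⟨c + d, fun N => ?_⟩
  rw [pow_add]
  exact Nat.mul_le_mul (hc N) (hd N)

theorem PolyB.add {f g : ℕ → ℕ} (hf : PolyB f) (hg : PolyB g) : PolyB (fun N => f N + g N) := by
  obtain ⟨c, hc⟩ := hf
  obtain ⟨d, hd⟩ := hg
  refine ⟨c + d + 1, fun N => ?_⟩
  have h1 : (N + 2) ^ c ≤ (N + 2) ^ (c + d) := Nat.pow_le_pow_right (by omega) (by omega)
  have h2 : (N + 2) ^ d ≤ (N + 2) ^ (c + d) := Nat.pow_le_pow_right (by omega) (by omega)
  have h3 : (N + 2) ^ (c + d) * 2 ≤ (N + 2) ^ (c + d + 1) := by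
    rw [pow_succ]
    exact Nat.mul_le_mul_left _ (by omega)
  have := hc N
  have := hd N
  change f N + g N ≤ _
  omega

theorem PolyB.shift {f : ℕ → ℕ} (hf : PolyB f) (a : ℕ) : PolyB (fun N => f (N + a)) := by
  obtain ⟨c, hc⟩ := hf
  refine PolyB.mono (g := fun N => ((N + 2) ^ c) * (a + 1) ^ c) (PolyB.mul ⟨c, fun N => le_rfl⟩
    (PolyB.const _)) (fun N => ?_)
  refine (hc _).trans ?_
  rw [← mul_pow]
  apply Nat.pow_le_pow_left
  nlinarith

theorem VE.cost_poly (x : VE m) : PolyB x.cost :=
  ((PolyB.const 9).mul PolyB.id).add (PolyB.const x.c) |>.add (PolyB.const 3)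

theorem BE.cost_poly : ∀ e : BE m, PolyB (fun N => e.cost N)
  | .tt => PolyB.const 1
  | .lt x y => by
      have h : PolyB fun N => x.cost N + y.cost N + 3 * (N + x.c) + 2 * (N + y.c) + 10 :=
        (((x.cost_poly.add y.cost_poly).add ((PolyB.const 3).mul
        (PolyB.id.add (PolyB.const _)))).add ((PolyB.const 2).mul
        (PolyB.id.add (PolyB.const _)))).add (PolyB.const 10)
      exact h
  | .look x y n => by
      have h : PolyB fun N => 9 * N + 2 + x.cost N + ((N + x.c) *
          (n.cost N + 3 * (N + n.c) + 5) + 1) +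
          y.cost N + 3 * (N + y.c) + 2 * N + 10 :=
        (((((((PolyB.const 9).mul PolyB.id).add (PolyB.const 2)).add x.cost_poly).add
          (((PolyB.id.add (PolyB.const _)).mul ((n.cost_poly.add ((PolyB.const 3).mul
            (PolyB.id.add (PolyB.const _)))).add (PolyB.const 5))).add (PolyB.const 1))).add
          y.cost_poly).add ((PolyB.const 3).mul (PolyB.id.add (PolyB.const _)))).add
          ((PolyB.const 2).mul PolyB.id) |>.add (PolyB.const 10)
      exact h
  | .and e f => by
      have h : PolyB fun N => e.cost N + f.cost N + 10 :=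
        ((BE.cost_poly e).add (BE.cost_poly f)).add (PolyB.const 10)
      exact h
  | .not e => by
      have h : PolyB fun N => e.cost N + 10 := (BE.cost_poly e).add (PolyB.const 10)
      exact h

theorem Em.cost_poly : ∀ e : Em m, PolyB (fun N => e.cost N)
  | .emit b => by
      have h : PolyB fun N => b.cost N + 5 := b.cost_poly.add (PolyB.const 5)
      exact h
  | .loop i B e => by
      have h : PolyB fun N => B.cost N + ((N + B.c) * (e.cost (N + B.c) + 2) + 1) :=
        B.cost_poly.add (((PolyB.id.add (PolyB.const _)).mul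
          (((Em.cost_poly e).shift B.c).add (PolyB.const 2))).add (PolyB.const 1))
      exact h
  | .seq e f => by
      have h : PolyB fun N => e.cost N + f.cost N := (Em.cost_poly e).add (Em.cost_poly f)
      exact h

/-- read a unary number from the input -/
def parse (i : Fin m) : Prog (Rg m) :=
  .seq (.push Rg.acc true) (.loop Rg.acc (.ifTop Rg.inp (.seq (.pop Rg.inp) (.push (Rg.v i) true))
    (.seq (.pop Rg.inp) (.pop Rg.acc))))

theorem parse_ex (i : Fin m) (k : ℕ) (rest o M : List Bool) (ρ : Fin m → ℕ) (h : ρ i = 0) :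
    Ex (parse i) (S (List.replicate k true ++ false :: rest) o M [] [] [] [] [] ρ)
      (S rest o M [] [] [] [] [] (Function.update ρ i k)) (4 * k + 6) := by
  have h1 := Ex.push Rg.acc true (S (List.replicate k true ++ false :: rest) o M [] [] [] [] [] ρ)
  simp only [S_u3, S_3] at h1
  have h2 := Ex.loop (k := Rg.acc) (p := .ifTop Rg.inp (.seq (.pop Rg.inp) (.push (Rg.v i) true))
    (.seq (.pop Rg.inp) (.pop Rg.acc))) (T := 3) (k + 1)
    (fun t => if t ≤ k then S (List.replicate (k - t) true ++ false :: rest) o M [true] [] [] [] []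
      (Function.update ρ i t) else S rest o M [] [] [] [] [] (Function.update ρ i k))
    (fun t ht => by
      have : t ≤ k := by omega
      simp [this])
    (fun t ht => by
      have htk : t ≤ k := by omega
      simp only [htk, if_true]
      by_cases htk' : t + 1 ≤ k
      · simp only [htk', if_true]
        obtain ⟨d, hd⟩ : ∃ d, k - t = d + 1 := ⟨k - t - 1, by omega⟩
        have hd' : k - (t + 1) = d := by omega
        rw [hd, hd', List.replicate_succ, List.cons_append]
        refine (Ex.topT (by simp) ((Ex.pop Rg.inp _).seq (Ex.push (Rg.v i) true _))).to ?_ le_rfl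
        simp only [S_u0, S_0, List.tail_cons, S_v, Function.update_self]
        rw [← List.replicate_succ, S_uv, Function.update_idem]
      · have : t = k := by omega
        subst this
        simp only [Nat.sub_self, List.replicate_zero, List.nil_append, htk', if_false]
        refine (Ex.topF (by simp) ((Ex.pop Rg.inp _).seq (Ex.pop Rg.acc _))).to ?_ le_rfl
        simp)
    (by simp)
  simp only [Nat.zero_le, if_true, Nat.sub_zero, show ¬ (k + 1 ≤ k) by omega, if_false] at h2
  have e3 : Function.update ρ i 0 = ρ := by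
    rw [← h, Function.update_eq_self]
  rw [e3] at h2
  exact (h1.seq h2).mono (by omega)

end

/-- the whole program -/
def Em.main {m : ℕ} (e : Em (m + 2)) : Prog (Rg (m + 2)) :=
  .seq (parse 0) (.seq (parse 1) (.seq (move Rg.inp Rg.t0) (.seq (move Rg.t0 Rg.mat)
    (.seq e.prog (.seq (clear Rg.mat) (.seq (clear (Rg.v 0)) (clear (Rg.v 1))))))))

/-- initial values of the registers -/
def rho0 {m : ℕ} (k n : ℕ) : Fin (m + 2) → ℕ :=
  Function.update (Function.update (fun _ => 0) 0 k) 1 n

theorem Em.main_ex {m : ℕ} (e : Em (m + 2)) (hwf : e.wf [1, 0] = true) :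
    ∃ c, ∀ (k n : ℕ) (M : List Bool), Ex e.main (inState Rg.inp (inStr k n M))
      (inState Rg.out (e.out M (rho0 k n))) (((inStr k n M).length + 2) ^ c) := by
  have hp : PolyB fun N => (4 * N + 6) + ((4 * N + 6) + ((4 * N + 1) + ((4 * N + 1) +
      (e.cost N + ((2 * N + 1) + ((2 * N + 1) + (2 * N + 1))))))) := by
    have a : ∀ x y : ℕ, PolyB fun N => x * N + y := fun x y =>
      ((PolyB.const x).mul PolyB.id).add (PolyB.const y)
    exact (a 4 6).add ((a 4 6).add ((a 4 1).add ((a 4 1).add (e.cost_poly.add
      ((a 2 1).add ((a 2 1).add (a 2 1)))))))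
  obtain ⟨c, hc⟩ := hp
  refine ⟨c, fun k n M => ?_⟩
  set N := (inStr k n M).length with hN
  have hlen : N = k + (n + (M.length + 1) + 1) := by
    rw [hN]
    simp only [inStr, List.length_append, List.length_replicate, List.length_cons]
  refine Ex.mono ?_ (hc N)
  have e0 : (inState Rg.inp (inStr k n M) : St (Rg (m + 2))) =
      S (inStr k n M) [] [] [] [] [] [] [] (fun _ => 0) := by
    funext r
    cases r <;> simp [inState, S]
  have e1 : (inState Rg.out (e.out M (rho0 k n)) : St (Rg (m + 2))) =
      S [] (e.out M (rho0 k n)) [] [] [] [] [] [] (fun _ => 0) := by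
    funext r
    cases r <;> simp [inState, S]
  rw [e0, e1]
  have h1 := parse_ex (0 : Fin (m + 2)) k (List.replicate n true ++ false :: M) [] []
    (fun _ => 0) rfl
  have h2 := parse_ex (1 : Fin (m + 2)) n M [] []
    (Function.update (fun _ => 0) 0 k) (by simp)
  have h3 := move_ex (k := Rg.inp) (l := Rg.t0) (by simp) M
    (S M [] [] [] [] [] [] [] (rho0 (m := m) k n)) rfl
  simp only [S_u0, S_u4, S_4, List.append_nil] at h3
  have h4 := move_ex (k := Rg.t0) (l := Rg.mat) (by simp) M.reverse
    (S [] [] [] [] M.reverse [] [] [] (rho0 (m := m) k n)) rfl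
  simp only [S_u4, S_u2, S_2, List.append_nil, List.reverse_reverse, List.length_reverse] at h4
  have h5 := e.ex M [] [] [] (rho0 k n) N [1, 0] hwf
    (fun i hi => by
      simp only [List.mem_cons, List.not_mem_nil, or_false, not_or] at hi
      simp [rho0, hi.1, hi.2])
    (fun i => by
      by_cases h : i = 1
      · subst h
        simp only [rho0, Function.update_self]
        omega
      · by_cases h' : i = 0
        · subst h'
          simp only [rho0, Function.update_of_ne h, Function.update_self]
          omega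
        · simp only [rho0, Function.update_of_ne h, Function.update_of_ne h']
          omega) (by omega)
  rw [List.append_nil] at h5
  have h6 := clear_ex Rg.mat (S [] (e.out M (rho0 k n)) M [] [] [] [] [] (rho0 (m := m) k n))
  have h7 := clear_ex (Rg.v 0) (S [] (e.out M (rho0 k n)) [] [] [] [] [] [] (rho0 (m := m) k n))
  have h8 := clear_ex (Rg.v 1) (S [] (e.out M (rho0 k n)) [] [] [] [] [] []
    (Function.update (rho0 (m := m) k n) 0 0))
  rw [S_u2] at h6
  rw [show ([] : List Bool) = List.replicate 0 true from rfl, S_uv] at h7 h8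
  refine (h1.seq (h2.seq (h3.seq (h4.seq (h5.seq (h6.seq (h7.seq h8))))))).to ?_ ?_
  · congr 1
    funext i
    by_cases h : i = 1
    · subst h
      simp
    · by_cases h' : i = 0
      · subst h'
        simp [Function.update_of_ne h]
      · simp [h, h', rho0]
  · simp only [S_2, S_v, List.length_replicate]
    have a1 : rho0 (m := m) k n 0 ≤ N := by
      simp only [rho0]
      rw [Function.update_of_ne (by simp), Function.update_self]
      omega
    have a2 : Function.update (rho0 (m := m) k n) 0 0 1 ≤ N := by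
      rw [Function.update_of_ne (by simp)]
      simp only [rho0, Function.update_self]
      omega
    omega

end Pool.Agent.H603R2
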