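import Pool.Agent.H603R2.ClawGraph
import Pool.Agent.H603R2.Emit

/-!
The concrete graph of the reduction, on `Fin n'`, and the nested loops that print its adjacency
matrix.
-/

namespace Pool.Agent.H603R2

open SimpleGraph

/-! ### Lists -/

theorem flatMap_finRange {α : Type} (n : ℕ) (f : ℕ → List α) :
    (List.finRange n).flatMap (fun i : Fin n => f i.val) = (List.range n).flatMap f := by
  rw [← List.map_coe_finRange_eq_range, List.flatMap_map]

theorem flatMap_range_mul {α : Type} (A B : ℕ) (f : ℕ → List α) :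
    (List.range (A * B)).flatMap f =
      (List.range A).flatMap (fun a => (List.range B).flatMap (fun b => f (a * B + b))) := by
  induction A with
  | zero => simp
  | succ A ih =>
    rw [Nat.succ_mul, List.range_add, List.flatMap_append, ih, List.range_succ,
      List.flatMap_append, List.flatMap_map]
    simp

theorem flatMap_const_replicate {α : Type} (A B : ℕ) (x : α) :
    (List.range A).flatMap (fun _ => List.replicate B x) = List.replicate (A * B) x := by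
  induction A with
  | zero => simp
  | succ A ih =>
    rw [List.range_succ, List.flatMap_append, ih, Nat.succ_mul, List.replicate_add]
    simp

theorem getD_flatMap_range (A B : ℕ) (f : ℕ → ℕ → Bool) (i j : ℕ) (hi : i < A) (hj : j < B) :
    ((List.range A).flatMap (fun i => (List.range B).map (f i))).getD (i * B + j) false =
      f i j := by
  induction A with
  | zero => omega
  | succ A ih =>
    rw [List.range_succ, List.flatMap_append]
    have hlen : ((List.range A).flatMap (fun i => (List.range B).map (f i))).length = A * B := by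
      rw [List.length_flatMap]
      simp
    by_cases h : i < A
    · rw [List.getD_append, ih h]
      rw [hlen]
      calc i * B + j < i * B + B := by omega
        _ = (i + 1) * B := by ring
        _ ≤ A * B := Nat.mul_le_mul_right _ h
    · have : i = A := by omega
      subst this
      rw [List.getD_append_right _ _ _ _ (by rw [hlen]; omega), hlen]
      simp [List.getD, hj]

theorem adjBits_eq {n : ℕ} (G : SimpleGraph (Fin n)) (f : ℕ → ℕ → Bool)
    (h : ∀ i j : Fin n, f i j = true ↔ G.Adj i j) :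
    adjBits G = (List.range n).flatMap fun i => (List.range n).map fun j => f i j := by
  classical
  unfold adjBits
  rw [← flatMap_finRange n (fun i => (List.range n).map fun j => f i j)]
  refine congrArg (fun g => List.flatMap g (List.finRange n)) ?_
  funext i
  rw [← List.map_coe_finRange_eq_range, List.map_map]
  apply List.map_congr_left
  intro j _
  simp only [Function.comp]
  rw [Bool.eq_iff_iff, h]
  simp

open Classical in
theorem adjBits_getD {n : ℕ} (G : SimpleGraph (Fin n)) (i j : ℕ) (hi : i < n) (hj : j < n) :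
    (adjBits G).getD (i * n + j) false = decide (G.Adj ⟨i, hi⟩ ⟨j, hj⟩) := by
  rw [adjBits_eq G (fun i j => if h : i < n ∧ j < n then decide (G.Adj ⟨i, h.1⟩ ⟨j, h.2⟩)
    else false) (by intro i j; simp), getD_flatMap_range n n _ i j hi hj]
  simp [hi, hj]

/-! ### Codes of vertices -/

/-- code of a vertex: a type and five numbers -/
@[ext] structure Tup where
  t : ℕ
  q : ℕ
  a : ℕ
  r : ℕ
  b : ℕ
  c : ℕ

variable {n : ℕ} (Γ : SimpleGraph (Fin n)) (K : ℕ)

open Classical in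
/-- the class of the vertex with the given code -/
noncomputable def cls (τ : Tup) : Cls K n :=
  if τ.t = 0 then .C
  else if τ.t = 1 then .S
  else if τ.t = 2 then .Y
  else if τ.t = 3 then
    (if h : τ.q < K ∧ τ.a < n ∧ τ.r = 0 ∧ τ.b = 0 ∧ τ.c = 0 then .X ⟨τ.q, h.1⟩ ⟨τ.a, h.2.1⟩
      else .W)
  else if τ.t = 4 then
    (if h : (τ.q < K ∧ τ.r < K ∧ τ.a < n ∧ τ.b < n ∧ τ.c < 2) then
      (if ERel Γ (⟨τ.q, h.1⟩ : Fin K) ⟨τ.r, h.2.1⟩ ⟨τ.a, h.2.2.1⟩ ⟨τ.b, h.2.2.2.1⟩ then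
        .E ⟨τ.q, h.1⟩ ⟨τ.r, h.2.1⟩ ⟨τ.a, h.2.2.1⟩ ⟨τ.b, h.2.2.2.1⟩ ⟨τ.c, h.2.2.2.2⟩
       else .J)
      else .J)
  else if τ.t = 5 then
    (if h : τ.q < K ∧ τ.r < K ∧ τ.c < 2 ∧ τ.a = 0 ∧ τ.b = 0 then
      .P ⟨τ.q, h.1⟩ ⟨τ.r, h.2.1⟩ ⟨τ.c, h.2.2.1⟩ else .J)
  else if τ.t = 6 then
    (if h : τ.q < K ∧ τ.a = 0 ∧ τ.r = 0 ∧ τ.b = 0 ∧ τ.c = 0 then .Q ⟨τ.q, h.1⟩ else .J)
  else .J

/-- the number of codes with given last numbers -/
def dim4 (n : ℕ) : ℕ := (n + 2) * 2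
def dim3 (K n : ℕ) : ℕ := (K + 1) * dim4 n
def dim2 (K n : ℕ) : ℕ := (n + 2) * dim3 K n
def dim1 (K n : ℕ) : ℕ := (K + 1) * dim2 K n
/-- the number of vertices of the new graph -/
def dim (K n : ℕ) : ℕ := 7 * dim1 K n

/-- the number of a code -/
def encT (K n : ℕ) (τ : Tup) : ℕ :=
  τ.t * dim1 K n + (τ.q * dim2 K n + (τ.a * dim3 K n + (τ.r * dim4 n + (τ.b * 2 + τ.c))))

/-- the code with a given number -/
def decT (K n : ℕ) (i : ℕ) : Tup where
  t := i / dim1 K n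
  q := i % dim1 K n / dim2 K n
  a := i % dim1 K n % dim2 K n / dim3 K n
  r := i % dim1 K n % dim2 K n % dim3 K n / dim4 n
  b := i % dim1 K n % dim2 K n % dim3 K n % dim4 n / 2
  c := i % dim1 K n % dim2 K n % dim3 K n % dim4 n % 2

/-- admissible codes -/
def Tup.ok (K n : ℕ) (τ : Tup) : Prop :=
  τ.t < 7 ∧ τ.q < K + 1 ∧ τ.a < n + 2 ∧ τ.r < K + 1 ∧ τ.b < n + 2 ∧ τ.c < 2

theorem divmod {x D y : ℕ} (h : y < D) : (x * D + y) / D = x ∧ (x * D + y) % D = y := by
  have hD : 0 < D := by omega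
  constructor
  · rw [Nat.mul_comm, Nat.mul_add_div hD, Nat.div_eq_of_lt h, Nat.add_zero]
  · rw [Nat.mul_comm, Nat.mul_add_mod, Nat.mod_eq_of_lt h]

theorem lt_step {x A y D : ℕ} (hx : x < A) (hy : y < D) : x * D + y < A * D := by
  calc x * D + y < x * D + D := by omega
    _ = (x + 1) * D := by ring
    _ ≤ A * D := Nat.mul_le_mul_right _ hx

theorem encT_lt {K n : ℕ} {τ : Tup} (h : τ.ok K n) : encT K n τ < dim K n := by
  obtain ⟨h1, h2, h3, h4, h5, h6⟩ := h
  exact lt_step h1 (lt_step h2 (lt_step h3 (lt_step h4 (lt_step h5 h6))))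

theorem decT_encT {K n : ℕ} {τ : Tup} (h : τ.ok K n) : decT K n (encT K n τ) = τ := by
  obtain ⟨h1, h2, h3, h4, h5, h6⟩ := h
  have l5 : τ.b * 2 + τ.c < dim4 n := lt_step h5 h6
  have l4 : τ.r * dim4 n + (τ.b * 2 + τ.c) < dim3 K n := lt_step h4 l5
  have l3 : τ.a * dim3 K n + (τ.r * dim4 n + (τ.b * 2 + τ.c)) < dim2 K n := lt_step h3 l4
  have l2 : τ.q * dim2 K n + (τ.a * dim3 K n + (τ.r * dim4 n + (τ.b * 2 + τ.c))) < dim1 K n :=
    lt_step h2 l3
  unfold decT encT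
  simp only [(divmod l2).1, (divmod l2).2, (divmod l3).1, (divmod l3).2, (divmod l4).1,
    (divmod l4).2, (divmod l5).1, (divmod l5).2, (divmod h6).1, (divmod h6).2]

theorem decT_ok {K n i : ℕ} (h : i < dim K n) : (decT K n i).ok K n := by
  have p4 : 0 < dim4 n := by unfold dim4; omega
  have p3 : 0 < dim3 K n := Nat.mul_pos (by omega) p4
  have p2 : 0 < dim2 K n := Nat.mul_pos (by omega) p3
  have p1 : 0 < dim1 K n := Nat.mul_pos (by omega) p2
  refine ⟨?_, ?_, ?_, ?_, ?_, ?_⟩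
  · exact Nat.div_lt_of_lt_mul (by rw [Nat.mul_comm]; exact h)
  · exact Nat.div_lt_of_lt_mul (by rw [Nat.mul_comm]; exact Nat.mod_lt _ p1)
  · exact Nat.div_lt_of_lt_mul (by rw [Nat.mul_comm]; exact Nat.mod_lt _ p2)
  · exact Nat.div_lt_of_lt_mul (by rw [Nat.mul_comm]; exact Nat.mod_lt _ p3)
  · exact Nat.div_lt_of_lt_mul (by rw [Nat.mul_comm]; exact Nat.mod_lt _ p4)
  · exact Nat.mod_lt _ (by omega)

theorem encT_decT (K n i : ℕ) : encT K n (decT K n i) = i := by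
  unfold encT decT
  simp only
  have e : ∀ x D : ℕ, x / D * D + x % D = x := fun x D => Nat.div_add_mod' x D
  rw [e, e, e, e, e]

/-- the new graph -/
def newGraph : SimpleGraph (Fin (dim K n)) where
  Adj i j := i ≠ j ∧ Cls.adj (cls Γ K (decT K n i)) (cls Γ K (decT K n j))
  symm := ⟨fun _ _ h => ⟨h.1.symm, h.2.symm⟩⟩
  loopless := ⟨fun _ h => h.1 rfl⟩

/-! ### The tests -/

/-- a register as a value -/
def reg (i : Fin 14) : VE 14 := ⟨some i, 0⟩
/-- a constant as a value -/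
def cst (c : ℕ) : VE 14 := ⟨none, c⟩

@[simp] theorem reg_val (i : Fin 14) (ρ : Fin 14 → ℕ) : (reg i).val ρ = ρ i := rfl
@[simp] theorem cst_val (c : ℕ) (ρ : Fin 14 → ℕ) : (cst c).val ρ = c := by
  simp [cst, VE.val]

/-- disjunction -/
def BE.or {m : ℕ} (e f : BE m) : BE m := .not (.and (.not e) (.not f))
/-- equality -/
def BE.eq {m : ℕ} (x y : VE m) : BE m := .and (.not (.lt x y)) (.not (.lt y x))

@[simp] theorem BE.val_or {m : ℕ} (e f : BE m) (ρ : Fin m → ℕ) (M : List Bool) :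
    (BE.or e f).val ρ M = (e.val ρ M || f.val ρ M) := by
  simp [BE.or, BE.val]

@[simp] theorem BE.val_eq {m : ℕ} (x y : VE m) (ρ : Fin m → ℕ) (M : List Bool) :
    (BE.eq x y).val ρ M = (x.val ρ == y.val ρ) := by
  simp only [BE.eq, BE.val]
  rw [Bool.eq_iff_iff]
  simp only [Bool.and_eq_true, Bool.not_eq_true', decide_eq_false_iff_not, beq_iff_eq]
  omega

@[simp] theorem BE.val_and {m : ℕ} (e f : BE m) (ρ : Fin m → ℕ) (M : List Bool) :
    (BE.and e f).val ρ M = (e.val ρ M && f.val ρ M) := rfl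
@[simp] theorem BE.val_not {m : ℕ} (e : BE m) (ρ : Fin m → ℕ) (M : List Bool) :
    (BE.not e).val ρ M = !(e.val ρ M) := rfl
@[simp] theorem BE.val_lt {m : ℕ} (x y : VE m) (ρ : Fin m → ℕ) (M : List Bool) :
    (BE.lt x y).val ρ M = decide (x.val ρ < y.val ρ) := rfl
@[simp] theorem BE.val_look {m : ℕ} (x y z : VE m) (ρ : Fin m → ℕ) (M : List Bool) :
    (BE.look x y z).val ρ M = M.getD (x.val ρ * z.val ρ + y.val ρ) false := rfl

/-- registers holding the code of a vertex -/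
structure Blk where
  t : Fin 14
  q : Fin 14
  a : Fin 14
  r : Fin 14
  b : Fin 14
  c : Fin 14

/-- the code held by the registers -/
def Blk.tup (v : Blk) (ρ : Fin 14 → ℕ) : Tup := ⟨ρ v.t, ρ v.q, ρ v.a, ρ v.r, ρ v.b, ρ v.c⟩

section tests

variable (v w : Blk)

def fT (i : ℕ) : BE 14 := .eq (reg v.t) (cst i)
def fX0 : BE 14 := .and (.lt (reg v.q) (reg 0)) (.and (.lt (reg v.a) (reg 1))
  (.and (.eq (reg v.r) (cst 0)) (.and (.eq (reg v.b) (cst 0)) (.eq (reg v.c) (cst 0)))))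
def fX : BE 14 := .and (fT v 3) (fX0 v)
def fW : BE 14 := .and (fT v 3) (.not (fX0 v))
def fE : BE 14 := .and (fT v 4) (.and (.and (.lt (reg v.q) (reg 0)) (.and (.lt (reg v.r) (reg 0))
  (.and (.lt (reg v.a) (reg 1)) (.and (.lt (reg v.b) (reg 1)) (.lt (reg v.c) (cst 2))))))
  (.or (.and (.eq (reg v.q) (reg v.r)) (.eq (reg v.a) (reg v.b)))
    (.and (.not (.eq (reg v.q) (reg v.r))) (.look (reg v.a) (reg v.b) (reg 1)))))
def fP : BE 14 := .and (fT v 5) (.and (.lt (reg v.q) (reg 0)) (.and (.lt (reg v.r) (reg 0))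
  (.and (.lt (reg v.c) (cst 2)) (.and (.eq (reg v.a) (cst 0)) (.eq (reg v.b) (cst 0))))))
def fQ : BE 14 := .and (fT v 6) (.and (.lt (reg v.q) (reg 0)) (.and (.eq (reg v.a) (cst 0))
  (.and (.eq (reg v.r) (cst 0)) (.and (.eq (reg v.b) (cst 0)) (.eq (reg v.c) (cst 0))))))

def fH : BE 14 :=
  .or (.and (fT v 0) (fT w 0)) <|
  .or (.and (fT v 1) (fT w 1)) <|
  .or (.and (fT v 2) (fT w 2)) <|
  .or (.and (fW v) (fW w)) <|
  .or (.and (fX v) (fX w)) <|
  .or (.and (fX v) (fW w)) <|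
  .or (.and (fX v) (fT w 1)) <|
  .or (.and (fW v) (fT w 1)) <|
  .or (.and (fT v 1) (fT w 2)) <|
  .or (.and (fT v 0) (fE w)) <|
  .or (.and (fW v) (fE w)) <|
  .or (.and (fE v) (fE w)) <|
  .or (.and (.and (fX v) (fE w)) (.not (.or
      (.and (.eq (reg v.q) (reg w.q)) (.eq (reg v.a) (reg w.a)))
      (.and (.eq (reg v.q) (reg w.r)) (.eq (reg v.a) (reg w.b)))))) <|
  .or (.and (.and (fP v) (fE w)) (.and (.eq (reg v.q) (reg w.q))
      (.and (.eq (reg v.r) (reg w.r)) (.eq (reg v.c) (reg w.c))))) <|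
  .or (.and (fP v) (fT w 1)) <|
  .or (.and (fP v) (fT w 0)) <|
  .or (.and (.and (fQ v) (fX w)) (.eq (reg v.q) (reg w.q))) <|
  .or (.and (.and (fQ v) (fE w)) (.or (.eq (reg v.q) (reg w.q)) (.eq (reg v.q) (reg w.r)))) <|
  (.and (fQ v) (fT w 1))

def fEq : BE 14 := .and (.eq (reg v.t) (reg w.t)) <| .and (.eq (reg v.q) (reg w.q)) <|
  .and (.eq (reg v.a) (reg w.a)) <| .and (.eq (reg v.r) (reg w.r)) <|
  .and (.eq (reg v.b) (reg w.b)) (.eq (reg v.c) (reg w.c))

/-- the adjacency test -/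
def fAdj : BE 14 := .and (.not (fEq v w)) (.or (fH v w) (fH w v))

end tests

/-- meaning of the tests for a vertex of class `x` -/
def Spec {n K : ℕ} (v : Blk) (ρ : Fin 14 → ℕ) (M : List Bool) (x : Cls K n) : Prop :=
  ((fT v 0).val ρ M = match x with | .C => true | _ => false) ∧
  ((fT v 1).val ρ M = match x with | .S => true | _ => false) ∧
  ((fT v 2).val ρ M = match x with | .Y => true | _ => false) ∧
  ((fW v).val ρ M = match x with | .W => true | _ => false) ∧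
  ((fX v).val ρ M = match x with | .X _ _ => true | _ => false) ∧
  ((fE v).val ρ M = match x with | .E _ _ _ _ _ => true | _ => false) ∧
  ((fP v).val ρ M = match x with | .P _ _ _ => true | _ => false) ∧
  ((fQ v).val ρ M = match x with | .Q _ => true | _ => false) ∧
  (match x with
    | .X q a => ρ v.q = q ∧ ρ v.a = a
    | .E q r a b c => ρ v.q = q ∧ ρ v.r = r ∧ ρ v.a = a ∧ ρ v.b = b ∧ ρ v.c = c
    | .P q r c => ρ v.q = q ∧ ρ v.r = r ∧ ρ v.c = c
    | .Q q => ρ v.q = q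
    | _ => True)

theorem spec (v : Blk) (ρ : Fin 14 → ℕ) (h0 : ρ 0 = K) (h1 : ρ 1 = n) :
    Spec v ρ (adjBits Γ) (cls Γ K (v.tup ρ)) := by
  classical
  have e0 : (fT v 0).val ρ (adjBits Γ) = decide (ρ v.t = 0) := by
    rw [Bool.eq_iff_iff]; simp [fT]
  have e1 : (fT v 1).val ρ (adjBits Γ) = decide (ρ v.t = 1) := by
    rw [Bool.eq_iff_iff]; simp [fT]
  have e2 : (fT v 2).val ρ (adjBits Γ) = decide (ρ v.t = 2) := by
    rw [Bool.eq_iff_iff]; simp [fT]
  have e3 : (fT v 3).val ρ (adjBits Γ) = decide (ρ v.t = 3) := by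
    rw [Bool.eq_iff_iff]; simp [fT]
  have e4 : (fT v 4).val ρ (adjBits Γ) = decide (ρ v.t = 4) := by
    rw [Bool.eq_iff_iff]; simp [fT]
  have e5 : (fT v 5).val ρ (adjBits Γ) = decide (ρ v.t = 5) := by
    rw [Bool.eq_iff_iff]; simp [fT]
  have e6 : (fT v 6).val ρ (adjBits Γ) = decide (ρ v.t = 6) := by
    rw [Bool.eq_iff_iff]; simp [fT]
  have eX0 : (fX0 v).val ρ (adjBits Γ) = decide (ρ v.q < K ∧ ρ v.a < n ∧ ρ v.r = 0 ∧
      ρ v.b = 0 ∧ ρ v.c = 0) := by
    rw [Bool.eq_iff_iff]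
    simp [fX0, h0, h1]
  have eE : (fE v).val ρ (adjBits Γ) = (decide (ρ v.t = 4) && decide (∃ h : ρ v.q < K ∧ ρ v.r < K ∧
      ρ v.a < n ∧ ρ v.b < n ∧ ρ v.c < 2, ERel Γ (⟨ρ v.q, h.1⟩ : Fin K) ⟨ρ v.r, h.2.1⟩
        ⟨ρ v.a, h.2.2.1⟩ ⟨ρ v.b, h.2.2.2.1⟩)) := by
    simp only [fE, BE.val_and, e4]
    congr 1
    rw [Bool.eq_iff_iff]
    simp only [BE.val_or, BE.val_and, BE.val_not, BE.val_lt, BE.val_eq, BE.val_look, reg_val,
      cst_val, h0, h1, Bool.and_eq_true, decide_eq_true_eq, Bool.or_eq_true, Bool.not_eq_true',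
      beq_iff_eq]
    constructor
    · rintro ⟨⟨a1, a2, a3, a4, a5⟩, h⟩
      refine ⟨⟨a1, a2, a3, a4, a5⟩, ?_⟩
      rw [adjBits_getD Γ _ _ a3 a4] at h
      unfold ERel
      split_ifs with hqr
      · rw [Fin.mk.injEq] at hqr ⊢
        rcases h with h | h
        · exact h.2
        · exact absurd hqr (by simpa using h.1)
      · rw [Fin.mk.injEq] at hqr
        rcases h with h | h
        · exact absurd h.1 hqr
        · simpa using h.2
    · rintro ⟨⟨a1, a2, a3, a4, a5⟩, h⟩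
      refine ⟨⟨a1, a2, a3, a4, a5⟩, ?_⟩
      rw [adjBits_getD Γ _ _ a3 a4]
      unfold ERel at h
      split_ifs at h with hqr
      · rw [Fin.mk.injEq] at hqr h
        exact Or.inl ⟨hqr, h⟩
      · rw [Fin.mk.injEq] at hqr
        exact Or.inr ⟨by simpa using hqr, by simpa using h⟩
  have eP : (fP v).val ρ (adjBits Γ) = (decide (ρ v.t = 5) && decide (ρ v.q < K ∧ ρ v.r < K ∧
      ρ v.c < 2 ∧ ρ v.a = 0 ∧ ρ v.b = 0)) := by
    rw [Bool.eq_iff_iff]
    simp [fP, fT, h0]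
  have eQ : (fQ v).val ρ (adjBits Γ) = (decide (ρ v.t = 6) && decide (ρ v.q < K ∧ ρ v.a = 0 ∧
      ρ v.r = 0 ∧ ρ v.b = 0 ∧ ρ v.c = 0)) := by
    rw [Bool.eq_iff_iff]
    simp [fQ, fT, h0]
  unfold Spec
  rw [e0, e1, e2, eE, eP, eQ, fW, fX]
  simp only [BE.val_and, BE.val_not, e3, eX0]
  unfold cls Blk.tup
  simp only
  split_ifs with g0 g1 g2 g3 g3' g4 g4' g4'' g5 g5' g6 g6'
  all_goals try simp_all
  by_contra hc
  simp only [not_or, not_le, not_not] at hc
  exact g3' hc.1 hc.2.1 hc.2.2.1 hc.2.2.2.1 hc.2.2.2.2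

theorem fH_iff {n K : ℕ} {v w : Blk} {ρ : Fin 14 → ℕ} {M : List Bool} {x y : Cls K n}
    (hx : Spec v ρ M x) (hy : Spec w ρ M y) :
    (fH v w).val ρ M = true ↔ Cls.half x y := by
  unfold fH
  simp only [BE.val_or, BE.val_and, BE.val_not, BE.val_eq, reg_val]
  cases x <;> cases y <;> simp only [Spec] at hx hy <;>
    obtain ⟨x1, x2, x3, x4, x5, x6, x7, x8, x9⟩ := hx <;>
    obtain ⟨y1, y2, y3, y4, y5, y6, y7, y8, y9⟩ := hy <;>
    simp [x1, x2, x3, x4, x5, x6, x7, x8, y1, y2, y3, y4, y5, y6, y7, y8, Cls.half]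
  · rw [x9.1, x9.2, y9.1, y9.2.1, y9.2.2.1, y9.2.2.2.1]
    simp only [Fin.ext_iff]
    tauto
  · rw [x9.1, x9.2.1, x9.2.2, y9.1, y9.2.1, y9.2.2.2.2]
    simp only [Fin.ext_iff]
  · rw [x9, y9.1, Fin.ext_iff]
  · rw [x9, y9.1, y9.2.1, Fin.ext_iff, Fin.ext_iff]

end Pool.Agent.H603R2
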