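import Mathlib

/-!
Sequential composition of `Turing.FinTM2` machines, with time bounds.
-/

namespace Pool.Agent.H603R2

open Turing

/-- `t` steps lead from `c` to `c'` -/
def Reach {C : Type} (f : C → Option C) (t : ℕ) (c c' : C) : Prop :=
  (flip bind f)^[t] (some c) = some c'

theorem Reach.add {C : Type} {f : C → Option C} {t t' : ℕ} {c c' c'' : C}
    (h : Reach f t c c') (h' : Reach f t' c' c'') : Reach f (t + t') c c'' := by
  unfold Reach at *
  rw [Nat.add_comm, Function.iterate_add_apply, h, h']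

theorem Reach.one {C : Type} {f : C → Option C} {c c' : C}
    (h : f c = some c') : Reach f 1 c c' := h

theorem Reach.zero {C : Type} {f : C → Option C} {c : C} : Reach f 0 c c := rfl

theorem iterate_none {C : Type} (f : C → Option C) (t : ℕ) :
    (flip bind f)^[t] none = none := by
  induction t with
  | zero => rfl
  | succ t ih => rw [Function.iterate_succ_apply]; exact ih

theorem Reach.succ {C : Type} {f : C → Option C} {t : ℕ} {c c' : C}
    (h : Reach f (t + 1) c c') : ∃ d, f c = some d ∧ Reach f t d c' := by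
  unfold Reach at *
  rw [Function.iterate_succ_apply] at h
  change (flip bind f)^[t] (f c) = some c' at h
  cases hc : f c with
  | none =>
    rw [hc, iterate_none] at h
    cases h
  | some d =>
    rw [hc] at h
    exact ⟨d, rfl, h⟩

section growth

variable {K : Type} [DecidableEq K] {Γ : K → Type} {Λ σ : Type}

/-- number of push operations -/
def pushes : TM2.Stmt Γ Λ σ → ℕ
  | .push _ _ q => pushes q + 1
  | .peek _ _ q => pushes q
  | .pop _ _ q => pushes q
  | .load _ q => pushes q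
  | .branch _ q₁ q₂ => pushes q₁ + pushes q₂
  | .goto _ => 0
  | .halt => 0

theorem stepAux_length (q : TM2.Stmt Γ Λ σ) : ∀ (v : σ) (S : ∀ k, List (Γ k)) (k : K),
    ((TM2.stepAux q v S).stk k).length ≤ (S k).length + pushes q := by
  induction q with
  | push k' f q ih =>
    intro v S k
    refine (ih _ _ k).trans ?_
    by_cases h : k = k'
    · subst h
      simp only [Function.update_self, List.length_cons, pushes]
      omega
    · simp only [Function.update_of_ne h, pushes]
      omega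
  | peek k' f q ih =>
    intro v S k
    exact ih _ _ k
  | pop k' f q ih =>
    intro v S k
    refine (ih _ _ k).trans ?_
    by_cases h : k = k'
    · subst h
      simp only [Function.update_self, List.length_tail, pushes]
      omega
    · simp only [Function.update_of_ne h, pushes]
      omega
  | load a q ih =>
    intro v S k
    exact ih _ _ k
  | branch f q₁ q₂ ih₁ ih₂ =>
    intro v S k
    simp only [TM2.stepAux]
    cases f v with
    | true =>
      have := ih₁ v S k
      simp only [cond_true, pushes]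
      omega
    | false =>
      have := ih₂ v S k
      simp only [cond_false, pushes]
      omega
  | goto f =>
    intro v S k
    simp [TM2.stepAux, pushes]
  | halt =>
    intro v S k
    simp [TM2.stepAux, pushes]

theorem reach_length [Fintype Λ] (m : Λ → TM2.Stmt Γ Λ σ) (k : K) :
    ∀ (t : ℕ) (c c' : TM2.Cfg Γ Λ σ), Reach (TM2.step m) t c c' →
    (c'.stk k).length ≤ (c.stk k).length + t * ∑ l, pushes (m l)
  | 0, c, c', h => by
      have : c = c' := by simpa [Reach] using h
      subst this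
      omega
  | t + 1, c, c', h => by
      obtain ⟨d, hd, h⟩ := h.succ
      have ih := reach_length m k t d c' h
      obtain ⟨l, v, S⟩ := c
      cases l with
      | none => simp [TM2.step] at hd
      | some l =>
        simp only [TM2.step, Option.some.injEq] at hd
        have h1 := stepAux_length (m l) v S k
        rw [hd] at h1
        have h2 : pushes (m l) ≤ ∑ l, pushes (m l) :=
          Finset.single_le_sum (f := fun l => pushes (m l)) (fun _ _ => Nat.zero_le _)
            (Finset.mem_univ l)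
        have h3 : (t + 1) * ∑ l, pushes (m l) = t * ∑ l, pushes (m l) + ∑ l, pushes (m l) := by
          ring
        change _ ≤ (S k).length + _
        omega

end growth

section comp

variable (M₁ M₂ : FinTM2) (e₁ : M₁.Γ M₁.k₁ ≃ Bool) (e₂ : M₂.Γ M₂.k₀ ≃ Bool)

/-- stacks of the composed machine -/
abbrev CK : Type := Option (M₁.K ⊕ M₂.K)

/-- alphabets of the composed machine -/
def CΓ : CK M₁ M₂ → Type
  | none => Bool
  | some (.inl k) => M₁.Γ k
  | some (.inr k) => M₂.Γ k

/-- labels of the composed machine -/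
abbrev CΛ : Type := (M₁.Λ ⊕ M₂.Λ) ⊕ Bool

/-- internal states of the composed machine -/
abbrev Cσ : Type := M₁.σ × M₂.σ × Option Bool

/-- translation of the statements of the first machine -/
def tr₁ : TM2.Stmt M₁.Γ M₁.Λ M₁.σ → TM2.Stmt (CΓ M₁ M₂) (CΛ M₁ M₂) (Cσ M₁ M₂)
  | .push k f q => .push (some (.inl k)) (fun s => f s.1) (tr₁ q)
  | .peek k f q => .peek (some (.inl k)) (fun s o => (f s.1 o, s.2)) (tr₁ q)
  | .pop k f q => .pop (some (.inl k)) (fun s o => (f s.1 o, s.2)) (tr₁ q)
  | .load a q => .load (fun s => (a s.1, s.2)) (tr₁ q)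
  | .branch f q₁ q₂ => .branch (fun s => f s.1) (tr₁ q₁) (tr₁ q₂)
  | .goto f => .goto (fun s => .inl (.inl (f s.1)))
  | .halt => .goto (fun _ => .inr false)

/-- translation of the statements of the second machine -/
def tr₂ : TM2.Stmt M₂.Γ M₂.Λ M₂.σ → TM2.Stmt (CΓ M₁ M₂) (CΛ M₁ M₂) (Cσ M₁ M₂)
  | .push k f q => .push (some (.inr k)) (fun s => f s.2.1) (tr₂ q)
  | .peek k f q => .peek (some (.inr k)) (fun s o => (s.1, f s.2.1 o, s.2.2)) (tr₂ q)
  | .pop k f q => .pop (some (.inr k)) (fun s o => (s.1, f s.2.1 o, s.2.2)) (tr₂ q)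
  | .load a q => .load (fun s => (s.1, a s.2.1, s.2.2)) (tr₂ q)
  | .branch f q₁ q₂ => .branch (fun s => f s.2.1) (tr₂ q₁) (tr₂ q₂)
  | .goto f => .goto (fun s => .inl (.inr (f s.2.1)))
  | .halt => .halt

/-- branching in the first phase of the transfer -/
def br₁ : TM2.Stmt (CΓ M₁ M₂) (CΛ M₁ M₂) (Cσ M₁ M₂) :=
  .branch (fun s => s.2.2.isSome)
    (.push none (fun s => (s.2.2.getD false : Bool)) (.goto (fun _ => .inr false)))
    (.goto (fun _ => .inr true))

/-- branching in the second phase of the transfer -/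
def br₂ : TM2.Stmt (CΓ M₁ M₂) (CΛ M₁ M₂) (Cσ M₁ M₂) :=
  .branch (fun s => s.2.2.isSome)
    (.push (some (.inr M₂.k₀)) (fun s => (e₂.symm (s.2.2.getD false) : M₂.Γ M₂.k₀))
      (.goto (fun _ => .inr true)))
    (.goto (fun _ => .inl (.inr M₂.main)))

/-- program of the composed machine -/
def cm : CΛ M₁ M₂ → TM2.Stmt (CΓ M₁ M₂) (CΛ M₁ M₂) (Cσ M₁ M₂)
  | .inl (.inl l) => tr₁ M₁ M₂ (M₁.m l)
  | .inl (.inr l) => tr₂ M₁ M₂ (M₂.m l)
  | .inr false => .pop (some (.inl M₁.k₁))
      (fun s (o : Option (M₁.Γ M₁.k₁)) => (s.1, s.2.1, o.map e₁)) (br₁ M₁ M₂)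
  | .inr true => .pop none
      (fun s (o : Option Bool) => (s.1, s.2.1, o)) (br₂ M₁ M₂ e₂)

/-- the composed machine -/
def compTM : FinTM2 :=
  have := M₁.kFin
  have := M₂.kFin
  have := M₁.ΛFin
  have := M₂.ΛFin
  have := M₁.σFin
  have := M₂.σFin
  { K := CK M₁ M₂
    kDecidableEq := by
      have := M₁.kDecidableEq
      have := M₂.kDecidableEq
      infer_instance
    kFin := inferInstance
    k₀ := some (.inl M₁.k₀)
    k₁ := some (.inr M₂.k₁)
    Γ := CΓ M₁ M₂
    Λ := CΛ M₁ M₂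
    main := .inl (.inl M₁.main)
    ΛFin := inferInstance
    σ := Cσ M₁ M₂
    initialState := (M₁.initialState, M₂.initialState, none)
    σFin := inferInstance
    Γk₀Fin := M₁.Γk₀Fin
    m := cm M₁ M₂ e₁ e₂ }

/-- combine the stacks -/
def combine (S₁ : ∀ k, List (M₁.Γ k)) (S₂ : ∀ k, List (M₂.Γ k)) (t : List Bool) :
    ∀ k, List (CΓ M₁ M₂ k)
  | none => t
  | some (.inl k) => S₁ k
  | some (.inr k) => S₂ k

variable {M₁ M₂}

theorem combine_update₁ (S₁ : ∀ k, List (M₁.Γ k)) (S₂ : ∀ k, List (M₂.Γ k)) (t : List Bool)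
    (k : M₁.K) (x : List (M₁.Γ k)) :
    Function.update (combine M₁ M₂ S₁ S₂ t) (some (.inl k)) x =
      combine M₁ M₂ (Function.update S₁ k x) S₂ t := by
  funext r
  rcases r with _ | r | r
  · exact Function.update_of_ne (by simp) _ _
  · by_cases h : r = k
    · subst h
      exact (Function.update_self ..).trans
        (Function.update_self (β := fun k => List (M₁.Γ k)) r x S₁).symm
    · exact (Function.update_of_ne (by simpa using h) _ _).trans
        (Function.update_of_ne (β := fun k => List (M₁.Γ k)) h x S₁).symm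
  · exact Function.update_of_ne (by simp) _ _

theorem combine_update₂ (S₁ : ∀ k, List (M₁.Γ k)) (S₂ : ∀ k, List (M₂.Γ k)) (t : List Bool)
    (k : M₂.K) (x : List (M₂.Γ k)) :
    Function.update (combine M₁ M₂ S₁ S₂ t) (some (.inr k)) x =
      combine M₁ M₂ S₁ (Function.update S₂ k x) t := by
  funext r
  rcases r with _ | r | r
  · exact Function.update_of_ne (by simp) _ _
  · exact Function.update_of_ne (by simp) _ _
  · by_cases h : r = k
    · subst h
      exact (Function.update_self ..).trans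
        (Function.update_self (β := fun k => List (M₂.Γ k)) r x S₂).symm
    · exact (Function.update_of_ne (by simpa using h) _ _).trans
        (Function.update_of_ne (β := fun k => List (M₂.Γ k)) h x S₂).symm

theorem combine_update₀ (S₁ : ∀ k, List (M₁.Γ k)) (S₂ : ∀ k, List (M₂.Γ k)) (t : List Bool)
    (x : List Bool) :
    Function.update (combine M₁ M₂ S₁ S₂ t) none x =
      combine M₁ M₂ S₁ S₂ x := by
  funext r
  rcases r with _ | r | r
  · exact Function.update_self ..
  · exact Function.update_of_ne (by simp) _ _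
  · exact Function.update_of_ne (by simp) _ _

/-- configurations of the first machine as configurations of the composed machine -/
def emb₁ (w : M₂.σ × Option Bool) (S₂ : ∀ k, List (M₂.Γ k)) (t : List Bool)
    (c : TM2.Cfg M₁.Γ M₁.Λ M₁.σ) : TM2.Cfg (CΓ M₁ M₂) (CΛ M₁ M₂) (Cσ M₁ M₂) :=
  ⟨some (match c.l with
    | some a => .inl (.inl a)
    | none => .inr false), (c.var, w), combine M₁ M₂ c.stk S₂ t⟩

/-- configurations of the second machine as configurations of the composed machine -/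
def emb₂ (a : M₁.σ) (w : Option Bool) (S₁ : ∀ k, List (M₁.Γ k)) (t : List Bool)
    (c : TM2.Cfg M₂.Γ M₂.Λ M₂.σ) : TM2.Cfg (CΓ M₁ M₂) (CΛ M₁ M₂) (Cσ M₁ M₂) :=
  ⟨match c.l with
    | some a => some (.inl (.inr a))
    | none => none, (a, c.var, w), combine M₁ M₂ S₁ c.stk t⟩

theorem sim₁ (w : M₂.σ × Option Bool) (S₂ : ∀ k, List (M₂.Γ k)) (t : List Bool)
    (q : TM2.Stmt M₁.Γ M₁.Λ M₁.σ) : ∀ (v : M₁.σ) (S₁ : ∀ k, List (M₁.Γ k)),
    TM2.stepAux (tr₁ M₁ M₂ q) (v, w) (combine M₁ M₂ S₁ S₂ t) =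
      emb₁ w S₂ t (TM2.stepAux q v S₁) := by
  induction q with
  | push k f q ih =>
    intro v S₁
    simp only [tr₁, TM2.stepAux]
    rw [← ih, ← combine_update₁]
    rfl
  | peek k f q ih =>
    intro v S₁
    simp only [tr₁, TM2.stepAux]
    rw [← ih]
    rfl
  | pop k f q ih =>
    intro v S₁
    simp only [tr₁, TM2.stepAux]
    rw [← ih, ← combine_update₁]
    rfl
  | load a q ih =>
    intro v S₁
    simp only [tr₁, TM2.stepAux]
    rw [← ih]
  | branch f q₁ q₂ ih₁ ih₂ =>
    intro v S₁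
    simp only [tr₁, TM2.stepAux]
    cases f v with
    | true => exact ih₁ v S₁
    | false => exact ih₂ v S₁
  | goto f =>
    intro v S₁
    rfl
  | halt =>
    intro v S₁
    rfl

theorem sim₂ (a : M₁.σ) (w : Option Bool) (S₁ : ∀ k, List (M₁.Γ k)) (t : List Bool)
    (q : TM2.Stmt M₂.Γ M₂.Λ M₂.σ) : ∀ (v : M₂.σ) (S₂ : ∀ k, List (M₂.Γ k)),
    TM2.stepAux (tr₂ M₁ M₂ q) (a, v, w) (combine M₁ M₂ S₁ S₂ t) =
      emb₂ a w S₁ t (TM2.stepAux q v S₂) := by
  induction q with
  | push k f q ih =>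
    intro v S₂
    simp only [tr₂, TM2.stepAux]
    rw [← ih, ← combine_update₂]
    rfl
  | peek k f q ih =>
    intro v S₂
    simp only [tr₂, TM2.stepAux]
    rw [← ih]
    rfl
  | pop k f q ih =>
    intro v S₂
    simp only [tr₂, TM2.stepAux]
    rw [← ih, ← combine_update₂]
    rfl
  | load a q ih =>
    intro v S₂
    simp only [tr₂, TM2.stepAux]
    rw [← ih]
  | branch f q₁ q₂ ih₁ ih₂ =>
    intro v S₂
    simp only [tr₂, TM2.stepAux]
    cases f v with
    | true => exact ih₁ v S₂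
    | false => exact ih₂ v S₂
  | goto f =>
    intro v S₂
    rfl
  | halt =>
    intro v S₂
    rfl

theorem run₁ (w : M₂.σ × Option Bool) (S₂ : ∀ k, List (M₂.Γ k)) (r : List Bool) :
    ∀ (t : ℕ) (c c' : TM2.Cfg M₁.Γ M₁.Λ M₁.σ), Reach (TM2.step M₁.m) t c c' →
      Reach (TM2.step (cm M₁ M₂ e₁ e₂)) t (emb₁ w S₂ r c) (emb₁ w S₂ r c')
  | 0, c, c', h => by
      have : c = c' := by simpa [Reach] using h
      subst this
      exact Reach.zero
  | t + 1, c, c', h => by
      obtain ⟨d, hd, h⟩ := h.succ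
      have ih := run₁ w S₂ r t d c' h
      rw [Nat.add_comm]
      refine Reach.add (Reach.one ?_) ih
      obtain ⟨l, v, S⟩ := c
      cases l with
      | none => simp [TM2.step] at hd
      | some l =>
        simp only [TM2.step, Option.some.injEq] at hd
        rw [← hd]
        exact congrArg some (sim₁ w S₂ r (M₁.m l) v S)

theorem run₂ (a : M₁.σ) (w : Option Bool) (S₁ : ∀ k, List (M₁.Γ k)) (r : List Bool) :
    ∀ (t : ℕ) (c c' : TM2.Cfg M₂.Γ M₂.Λ M₂.σ), Reach (TM2.step M₂.m) t c c' →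
      Reach (TM2.step (cm M₁ M₂ e₁ e₂)) t (emb₂ a w S₁ r c) (emb₂ a w S₁ r c')
  | 0, c, c', h => by
      have : c = c' := by simpa [Reach] using h
      subst this
      exact Reach.zero
  | t + 1, c, c', h => by
      obtain ⟨d, hd, h⟩ := h.succ
      have ih := run₂ a w S₁ r t d c' h
      rw [Nat.add_comm]
      refine Reach.add (Reach.one ?_) ih
      obtain ⟨l, v, S⟩ := c
      cases l with
      | none => simp [TM2.step] at hd
      | some l =>
        simp only [TM2.step, Option.some.injEq] at hd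
        rw [← hd]
        exact congrArg some (sim₂ a w S₁ r (M₂.m l) v S)

/-- stacks with one nonempty stack -/
def single (M : FinTM2) (k₀ : M.K) (L : List (M.Γ k₀)) : ∀ k, List (M.Γ k) :=
  Function.update (fun _ => []) k₀ L

theorem step₁_aux (v : Cσ M₁ M₂) (S₁ : ∀ k, List (M₁.Γ k)) (S₂ : ∀ k, List (M₂.Γ k))
    (r : List Bool) :
    TM2.step (cm M₁ M₂ e₁ e₂) ⟨some (.inr false), v, combine M₁ M₂ S₁ S₂ r⟩ =
      some (TM2.stepAux (br₁ M₁ M₂) (v.1, v.2.1, Option.map e₁ (S₁ M₁.k₁).head?)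
        (combine M₁ M₂ (Function.update S₁ M₁.k₁ (S₁ M₁.k₁).tail) S₂ r)) :=
  congrArg (fun X => some (TM2.stepAux (br₁ M₁ M₂)
    (v.1, v.2.1, Option.map e₁ (S₁ M₁.k₁).head?) X))
    (combine_update₁ S₁ S₂ r M₁.k₁ (S₁ M₁.k₁).tail)

theorem step₁_nil (v : Cσ M₁ M₂) (S₁ : ∀ k, List (M₁.Γ k)) (S₂ : ∀ k, List (M₂.Γ k))
    (r : List Bool) (hL : S₁ M₁.k₁ = []) :
    TM2.step (cm M₁ M₂ e₁ e₂) ⟨some (.inr false), v, combine M₁ M₂ S₁ S₂ r⟩ =
      some ⟨some (.inr true), (v.1, v.2.1, none),
            combine M₁ M₂ (Function.update S₁ M₁.k₁ []) S₂ r⟩ := by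
  rw [step₁_aux, hL]
  rfl

theorem step₁_cons (v : Cσ M₁ M₂) (S₁ : ∀ k, List (M₁.Γ k)) (S₂ : ∀ k, List (M₂.Γ k))
    (r : List Bool) (x : M₁.Γ M₁.k₁) (L : List (M₁.Γ M₁.k₁)) (hL : S₁ M₁.k₁ = x :: L) :
    TM2.step (cm M₁ M₂ e₁ e₂) ⟨some (.inr false), v, combine M₁ M₂ S₁ S₂ r⟩ =
      some ⟨some (.inr false), (v.1, v.2.1, some (e₁ x)),
            combine M₁ M₂ (Function.update S₁ M₁.k₁ L) S₂ (e₁ x :: r)⟩ := by
  rw [step₁_aux, hL]
  exact congrArg (fun X => some (TM2.Cfg.mk (some (Sum.inr false))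
    (v.1, v.2.1, some (e₁ x)) X)) (combine_update₀ (Function.update S₁ M₁.k₁ L) S₂ r (e₁ x :: r))

theorem step₂_aux (v : Cσ M₁ M₂) (S₁ : ∀ k, List (M₁.Γ k)) (S₂ : ∀ k, List (M₂.Γ k))
    (r : List Bool) :
    TM2.step (cm M₁ M₂ e₁ e₂) ⟨some (.inr true), v, combine M₁ M₂ S₁ S₂ r⟩ =
      some (TM2.stepAux (br₂ M₁ M₂ e₂) (v.1, v.2.1, r.head?)
        (combine M₁ M₂ S₁ S₂ r.tail)) :=
  congrArg (fun X => some (TM2.stepAux (br₂ M₁ M₂ e₂) (v.1, v.2.1, r.head?) X))
    (combine_update₀ S₁ S₂ r r.tail)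

theorem step₂_nil (v : Cσ M₁ M₂) (S₁ : ∀ k, List (M₁.Γ k)) (S₂ : ∀ k, List (M₂.Γ k)) :
    TM2.step (cm M₁ M₂ e₁ e₂) ⟨some (.inr true), v, combine M₁ M₂ S₁ S₂ []⟩ =
      some ⟨some (.inl (.inr M₂.main)), (v.1, v.2.1, none), combine M₁ M₂ S₁ S₂ []⟩ := by
  rw [step₂_aux]
  rfl

theorem step₂_cons (v : Cσ M₁ M₂) (S₁ : ∀ k, List (M₁.Γ k)) (S₂ : ∀ k, List (M₂.Γ k))
    (x : Bool) (r : List Bool) :
    TM2.step (cm M₁ M₂ e₁ e₂) ⟨some (.inr true), v, combine M₁ M₂ S₁ S₂ (x :: r)⟩ =
      some ⟨some (.inr true), (v.1, v.2.1, some x),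
            combine M₁ M₂ S₁ (Function.update S₂ M₂.k₀ (e₂.symm x :: S₂ M₂.k₀)) r⟩ := by
  rw [step₂_aux]
  exact congrArg (fun X => some (TM2.Cfg.mk (some (Sum.inr true))
    (v.1, v.2.1, some x) X)) (combine_update₂ S₁ S₂ r M₂.k₀ (e₂.symm x :: S₂ M₂.k₀))

theorem phase₁ (a : M₁.σ) (b : M₂.σ) (S₂ : ∀ k, List (M₂.Γ k)) :
    ∀ (L : List (M₁.Γ M₁.k₁)) (w : Option Bool) (r : List Bool),
      Reach (TM2.step (cm M₁ M₂ e₁ e₂)) (L.length + 1)
        ⟨some (.inr false), (a, b, w), combine M₁ M₂ (single M₁ M₁.k₁ L) S₂ r⟩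
        ⟨some (.inr true), (a, b, none),
          combine M₁ M₂ (single M₁ M₁.k₁ []) S₂ ((L.map e₁).reverse ++ r)⟩
  | [], w, r => by
      have h := step₁_nil e₁ e₂ (a, b, w) (single M₁ M₁.k₁ []) S₂ r (Function.update_self ..)
      simp only [single, Function.update_idem] at h
      exact Reach.one h
  | x :: L, w, r => by
      have ih := phase₁ a b S₂ L (some (e₁ x)) (e₁ x :: r)
      have h := step₁_cons e₁ e₂ (a, b, w) (single M₁ M₁.k₁ (x :: L)) S₂ r x L
        (Function.update_self ..)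
      simp only [single, Function.update_idem] at h
      rw [List.length_cons, Nat.add_comm]
      have e : ((x :: L).map e₁).reverse ++ r = (L.map e₁).reverse ++ (e₁ x :: r) := by simp
      rw [e]
      exact Reach.add (Reach.one h) ih

theorem phase₂ (a : M₁.σ) (b : M₂.σ) (S₁ : ∀ k, List (M₁.Γ k)) :
    ∀ (r : List Bool) (w : Option Bool) (L : List (M₂.Γ M₂.k₀)),
      Reach (TM2.step (cm M₁ M₂ e₁ e₂)) (r.length + 1)
        ⟨some (.inr true), (a, b, w), combine M₁ M₂ S₁ (single M₂ M₂.k₀ L) r⟩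
        ⟨some (.inl (.inr M₂.main)), (a, b, none),
          combine M₁ M₂ S₁ (single M₂ M₂.k₀ ((r.map e₂.symm).reverse ++ L)) []⟩
  | [], w, L => by
      have h := step₂_nil e₁ e₂ (a, b, w) S₁ (single M₂ M₂.k₀ L)
      exact Reach.one h
  | x :: r, w, L => by
      have ih := phase₂ a b S₁ r (some x) (e₂.symm x :: L)
      have h := step₂_cons e₁ e₂ (a, b, w) S₁ (single M₂ M₂.k₀ L) x r
      simp only [single, Function.update_idem, Function.update_self] at h
      rw [List.length_cons, Nat.add_comm]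
      have e : ((x :: r).map e₂.symm).reverse ++ L = (r.map e₂.symm).reverse ++
        (e₂.symm x :: L) := by simp
      rw [e]
      exact Reach.add (Reach.one h) ih

theorem initList_eq (M : FinTM2) (L : List (M.Γ M.k₀)) :
    initList M L = ⟨some M.main, M.initialState, single M M.k₀ L⟩ := by
  unfold initList
  congr 1
  funext k
  unfold single
  by_cases h : k = M.k₀
  · subst h
    simp
  · simp [h]

theorem haltList_eq (M : FinTM2) (L : List (M.Γ M.k₁)) :
    haltList M L = ⟨none, M.initialState, single M M.k₁ L⟩ := by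
  unfold haltList
  congr 1
  funext k
  unfold single
  by_cases h : k = M.k₁
  · subst h
    simp
  · simp [h]

theorem single_nil (M : FinTM2) (k k' : M.K) : single M k [] = single M k' [] := by
  unfold single
  rw [Function.update_eq_self_iff.2 rfl, Function.update_eq_self_iff.2 rfl]

theorem single_comp₁ (x : List (M₁.Γ M₁.k₀)) :
    (Function.update (fun _ => []) (some (.inl M₁.k₀)) x : ∀ k, List (CΓ M₁ M₂ k)) =
      combine M₁ M₂ (single M₁ M₁.k₀ x) (single M₂ M₂.k₀ []) [] := by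
  have e : combine M₁ M₂ (fun _ => []) (single M₂ M₂.k₀ []) [] = fun _ => [] := by
    funext r
    rcases r with _ | r | r
    · rfl
    · rfl
    · change single M₂ M₂.k₀ [] r = []
      unfold single
      rw [Function.update_eq_self_iff.2 rfl]
  have h := combine_update₁ (M₂ := M₂) (fun _ => []) (single M₂ M₂.k₀ []) [] M₁.k₀ x
  rw [e] at h
  exact h

theorem single_comp₂ (z : List (M₂.Γ M₂.k₁)) :
    (Function.update (fun _ => []) (some (.inr M₂.k₁)) z : ∀ k, List (CΓ M₁ M₂ k)) =
      combine M₁ M₂ (single M₁ M₁.k₁ []) (single M₂ M₂.k₁ z) [] := by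
  have e : combine M₁ M₂ (single M₁ M₁.k₁ []) (fun _ => []) [] = fun _ => [] := by
    funext r
    rcases r with _ | r | r
    · rfl
    · change single M₁ M₁.k₁ [] r = []
      unfold single
      rw [Function.update_eq_self_iff.2 rfl]
    · rfl
  have h := combine_update₂ (M₁ := M₁) (single M₁ M₁.k₁ []) (fun _ => []) [] M₂.k₁ z
  rw [e] at h
  exact h

/-- Running the composed machine. -/
theorem comp_run (x : List (M₁.Γ M₁.k₀)) (y : List (M₁.Γ M₁.k₁)) (z : List (M₂.Γ M₂.k₁))
    (T₁ T₂ : ℕ) (h₁ : Nonempty (TM2OutputsInTime M₁ x (some y) T₁))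
    (h₂ : Nonempty (TM2OutputsInTime M₂ ((y.map e₁).map e₂.symm) (some z) T₂)) :
    Nonempty (TM2OutputsInTime (compTM M₁ M₂ e₁ e₂) x (some z)
      (T₁ + T₂ + 2 * (y.length + 1))) := by
  obtain ⟨⟨⟨t₁, ht₁⟩, hle₁⟩⟩ := h₁
  obtain ⟨⟨⟨t₂, ht₂⟩, hle₂⟩⟩ := h₂
  have r₁ : Reach (TM2.step M₁.m) t₁ (initList M₁ x) (haltList M₁ y) := ht₁
  have r₂ : Reach (TM2.step M₂.m) t₂ (initList M₂ ((y.map e₁).map e₂.symm)) (haltList M₂ z) := ht₂
  rw [initList_eq, haltList_eq] at r₁ r₂
  have s₁ := run₁ e₁ e₂ (M₂.initialState, none) (single M₂ M₂.k₀ []) [] _ _ _ r₁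
  have s₂ := phase₁ e₁ e₂ M₁.initialState M₂.initialState (single M₂ M₂.k₀ []) y none []
  have s₃ := phase₂ e₁ e₂ M₁.initialState M₂.initialState (single M₁ M₁.k₁ [])
    ((y.map e₁).reverse ++ []) none []
  have s₄ := run₂ e₁ e₂ M₁.initialState none (single M₁ M₁.k₁ []) [] _ _ _ r₂
  have e : ((((y.map e₁).reverse ++ []).map e₂.symm).reverse ++ [] : List (M₂.Γ M₂.k₀)) =
      (y.map e₁).map e₂.symm := by simp
  rw [e] at s₃
  have s := ((s₁.add s₂).add s₃).add s₄
  refine ⟨⟨⟨t₁ + (y.length + 1) + (((y.map e₁).reverse ++ []).length + 1) + t₂, ?_⟩, ?_⟩⟩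
  · have a1 : initList (compTM M₁ M₂ e₁ e₂) x =
        emb₁ (M₂.initialState, none) (single M₂ M₂.k₀ []) []
          ⟨some M₁.main, M₁.initialState, single M₁ M₁.k₀ x⟩ := by
      refine (initList_eq (compTM M₁ M₂ e₁ e₂) x).trans ?_
      refine congrArg (TM2.Cfg.mk (some (Sum.inl (Sum.inl M₁.main)))
        (M₁.initialState, M₂.initialState, none)) ?_
      exact single_comp₁ x
    have a2 : haltList (compTM M₁ M₂ e₁ e₂) z =
        emb₂ M₁.initialState none (single M₁ M₁.k₁ []) []
          ⟨none, M₂.initialState, single M₂ M₂.k₁ z⟩ := by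
      refine (haltList_eq (compTM M₁ M₂ e₁ e₂) z).trans ?_
      refine congrArg (TM2.Cfg.mk none
        (M₁.initialState, M₂.initialState, none)) ?_
      exact single_comp₂ z
    have a3 : (flip bind (compTM M₁ M₂ e₁ e₂).step)^[t₁ + (y.length + 1) +
        (((y.map e₁).reverse ++ []).length + 1) + t₂]
        (some (initList (compTM M₁ M₂ e₁ e₂) x)) =
        some (haltList (compTM M₁ M₂ e₁ e₂) z) := by
      rw [a1, a2]
      exact s
    exact a3
  · change t₁ ≤ T₁ at hle₁
    change t₂ ≤ T₂ at hle₂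
    simp only [List.append_nil, List.length_reverse, List.length_map]
    omega

end comp

/-- The output of a machine is not much longer than its input plus its running time. -/
theorem output_length (M : FinTM2) : ∃ C, ∀ (x : List (M.Γ M.k₀)) (y : List (M.Γ M.k₁)) (T : ℕ),
    Nonempty (TM2OutputsInTime M x (some y) T) → y.length ≤ x.length + C * T := by
  have := M.ΛFin
  refine ⟨∑ l, pushes (M.m l), fun x y T h => ?_⟩
  obtain ⟨⟨⟨t, ht⟩, hle⟩⟩ := h
  change t ≤ T at hle
  have r : Reach (TM2.step M.m) t (initList M x) (haltList M y) := ht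
  have h1 := reach_length M.m M.k₁ t _ _ r
  rw [initList_eq, haltList_eq] at h1
  have h2 : (single M M.k₁ y M.k₁).length = y.length := by
    unfold single
    rw [Function.update_self]
  have h3 : (single M M.k₀ x M.k₁).length ≤ x.length := by
    unfold single
    by_cases h : M.k₁ = M.k₀
    · rw [h, Function.update_self]
    · rw [Function.update_of_ne h]
      simp
  have h4 : t * ∑ l, pushes (M.m l) ≤ (∑ l, pushes (M.m l)) * T := by
    rw [Nat.mul_comm]
    exact Nat.mul_le_mul_left _ hle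
  change (single M M.k₁ y M.k₁).length ≤ (single M M.k₀ x M.k₁).length + _ at h1
  omega

end Pool.Agent.H603R2
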