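import Pool.Agent.H603R2.Defs

/-!
Contraction of sets of edges and `H`-free graphs.
-/

namespace Pool.Agent.H603R2

open SimpleGraph

theorem free_claw_iff {V : Type*} (G : SimpleGraph V) : Free claw G ↔
    ∀ c l1 l2 l3 : V, G.Adj c l1 → G.Adj c l2 → G.Adj c l3 → l1 ≠ l2 → l1 ≠ l3 → l2 ≠ l3 →
      G.Adj l1 l2 ∨ G.Adj l1 l3 ∨ G.Adj l2 l3 := by
  constructor
  · intro h c l1 l2 l3 h1 h2 h3 h12 h13 h23
    by_contra hcon
    push Not at hcon
    obtain ⟨n12, n13, n23⟩ := hcon
    refine h.elim ?_
    have hc1 := h1.ne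
    have hc2 := h2.ne
    have hc3 := h3.ne
    refine ⟨⟨Sum.elim (fun _ => c) ![l1, l2, l3], ?_⟩, ?_⟩
    · rintro (i | i) (j | j) hij
      · congr 1
        exact Subsingleton.elim _ _
      · exfalso
        fin_cases j <;> simp_all
      · exfalso
        fin_cases i <;> simp_all
      · congr 1
        fin_cases i <;> fin_cases j <;> simp_all
    · rintro (i | i) (j | j)
      · change G.Adj c c ↔ _
        simp
      · change G.Adj c (![l1, l2, l3] j) ↔ _
        fin_cases j <;> simp_all
      · change G.Adj (![l1, l2, l3] i) c ↔ _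
        fin_cases i <;> simp_all [G.adj_comm]
      · change G.Adj (![l1, l2, l3] i) (![l1, l2, l3] j) ↔ _
        fin_cases i <;> fin_cases j <;> simp_all [G.adj_comm]
  · intro h
    refine ⟨fun φ => ?_⟩
    have key := h (φ (Sum.inl 0)) (φ (Sum.inr 0)) (φ (Sum.inr 1)) (φ (Sum.inr 2))
      (by rw [φ.map_adj_iff]; simp) (by rw [φ.map_adj_iff]; simp) (by rw [φ.map_adj_iff]; simp)
      (by intro he; simpa using φ.injective he) (by intro he; simpa using φ.injective he)
      (by intro he; simpa using φ.injective he)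
    simp [φ.map_adj_iff] at key

/-- If no edge of `F` contains `v`, then the component of `v` in `(V, F)` is `{v}`. -/
theorem mk_eq_of_untouched {V : Type*} {F : Set (Sym2 V)} {v w : V} (hv : ∀ e ∈ F, v ∉ e)
    (h : (SimpleGraph.fromEdgeSet F).connectedComponentMk w =
      (SimpleGraph.fromEdgeSet F).connectedComponentMk v) : w = v := by
  rw [ConnectedComponent.eq] at h
  obtain ⟨p⟩ := h.symm
  cases p with
  | nil => rfl
  | cons hadj _ =>
      rw [fromEdgeSet_adj] at hadj
      exact absurd (Sym2.mem_mk_left _ _) (hv _ hadj.1)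

end Pool.Agent.H603R2
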