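import Pool.Agent.H603R2.Comp
import Pool.Agent.H603R2.Defs

/-!
fpt-computable functions compose, fpt-reductions compose, and problems that fpt-reduce to a
fixed-parameter tractable problem are fixed-parameter tractable.
-/

namespace Pool.Agent.H603R2

open Turing

theorem computable_sum {f g : ℕ → ℕ} (hf : Computable f) (hg : Computable g) :
    ∃ F : ℕ → ℕ, Computable F ∧ ∀ k j, j ≤ g k → f j ≤ F k := by
  refine ⟨fun k => Nat.rec (f 0) (fun y IH => IH + f (y + 1)) (g k), ?_, ?_⟩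
  · have h1 : Computable fun _ : ℕ => f 0 := Computable.const _
    have h2 : Computable₂ fun (_ : ℕ) (p : ℕ × ℕ) => p.2 + f (p.1 + 1) := by
      have a : Computable fun p : ℕ × (ℕ × ℕ) => p.2.2 :=
        Computable.snd.comp Computable.snd
      have b : Computable fun p : ℕ × (ℕ × ℕ) => f (p.2.1 + 1) :=
        hf.comp ((Primrec.succ.to_comp).comp (Computable.fst.comp Computable.snd))
      exact (Primrec.nat_add.to_comp).comp a b
    exact Computable.nat_rec hg h1 h2
  · intro k j hj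
    have key : ∀ m j, j ≤ m →
        f j ≤ (Nat.rec (f 0) (fun y IH => IH + f (y + 1)) m : ℕ) := by
      intro m
      induction m with
      | zero =>
        intro j hj
        have : j = 0 := by omega
        subst this
        exact le_rfl
      | succ m ih =>
        intro j hj
        change f j ≤ (Nat.rec (f 0) (fun y IH => IH + f (y + 1)) m : ℕ) + f (m + 1)
        rcases Nat.lt_or_ge j (m + 1) with h | h
        · exact (ih j (by omega)).trans (Nat.le_add_right _ _)
        · have : j = m + 1 := by omega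
          subst this
          exact Nat.le_add_left _ _
    exact key _ _ hj

theorem computable_pow {f : ℕ → ℕ} (hf : Computable f) (c : ℕ) :
    Computable fun k => f k ^ c := by
  induction c with
  | zero => simpa using Computable.const 1
  | succ c ih =>
    have : Computable fun k => f k ^ c * f k := (Primrec.nat_mul.to_comp).comp ih hf
    exact this.of_eq (fun k => (pow_succ _ _).symm)

/-- Composition of two computations. -/
theorem FptComputable.comp {I J : Type} {inp : I → List Bool} {κ : I → ℕ}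
    {inp' : J → List Bool} {κ' : J → ℕ} {out : J → List Bool} (R : I → J)
    (h₁ : FptComputable inp κ (fun x => inp' (R x))) (h₂ : FptComputable inp' κ' out)
    (g : ℕ → ℕ) (hg : Computable g) (hR : ∀ x, κ' (R x) ≤ g (κ x)) :
    FptComputable inp κ (fun x => out (R x)) := by
  obtain ⟨M₁, f₁, c₁, hf₁, H₁⟩ := h₁
  obtain ⟨M₂, f₂, c₂, hf₂, H₂⟩ := h₂
  obtain ⟨F, hF, hFle⟩ := computable_sum hf₂ hg
  obtain ⟨C, hC⟩ := output_length M₁.tm
  let M : TM2ComputableAux Bool Bool :=
    { tm := compTM M₁.tm M₂.tm M₁.outputAlphabet M₂.inputAlphabet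
      inputAlphabet := M₁.inputAlphabet
      outputAlphabet := M₂.outputAlphabet }
  have hgen : ∃ G : ℕ → ℕ, Computable G ∧ ∀ k, G k = f₁ k + F k * (1 + C * f₁ k) ^ c₂ +
      2 * (1 + C * f₁ k) := by
    refine ⟨_, ?_, fun k => rfl⟩
    have add : ∀ {a b : ℕ → ℕ}, Computable a → Computable b → Computable fun k => a k + b k :=
      fun ha hb => (Primrec.nat_add.to_comp).comp ha hb
    have mul : ∀ {a b : ℕ → ℕ}, Computable a → Computable b → Computable fun k => a k * b k :=
      fun ha hb => (Primrec.nat_mul.to_comp).comp ha hb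
    have h1 : Computable fun k => 1 + C * f₁ k :=
      add (Computable.const 1) (mul (Computable.const C) hf₁)
    exact add (add hf₁ (mul hF (computable_pow h1 c₂))) (mul (Computable.const 2) h1)
  obtain ⟨G, hG, hGeq⟩ := hgen
  refine ⟨M, G, (c₁ + 1) + (c₁ + 1) * c₂, hG, fun x => ?_⟩
  have a₁ := H₁ x
  have a₂ := H₂ (R x)
  have hlen := hC _ _ _ a₁
  rw [List.length_map, List.length_map] at hlen
  change (inp' (R x)).length ≤ _ at hlen
  set n := (inp x).length + 1 with hn
  set T₁ := f₁ (κ x) * n ^ c₁ with hT₁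
  have a₂' : Nonempty (TM2OutputsInTime M₂.tm
      (((((inp' (R x)).map M₁.outputAlphabet.invFun).map M₁.outputAlphabet).map
        M₂.inputAlphabet.symm))
      (some ((out (R x)).map M₂.outputAlphabet.invFun))
      (f₂ (κ' (R x)) * ((inp' (R x)).length + 1) ^ c₂)) := by
    have e : ((inp' (R x)).map M₁.outputAlphabet.invFun).map M₁.outputAlphabet = inp' (R x) := by
      rw [List.map_map]
      have : (M₁.outputAlphabet ∘ M₁.outputAlphabet.invFun) = id := by
        funext b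
        exact M₁.outputAlphabet.apply_symm_apply b
      rw [this, List.map_id]
    rw [e]
    exact a₂
  obtain ⟨⟨r, hr⟩⟩ := comp_run M₁.outputAlphabet M₂.inputAlphabet _ _ _ _ _ a₁ a₂'
  refine ⟨⟨r, hr.trans ?_⟩⟩
  rw [List.length_map, hGeq]
  have hn1 : 1 ≤ n := by omega
  -- bounds
  have b1 : (inp' (R x)).length + 1 ≤ (1 + C * f₁ (κ x)) * n ^ (c₁ + 1) := by
    have e1 : n ≤ n ^ (c₁ + 1) := Nat.le_self_pow (by omega) n
    have e2 : n ^ c₁ ≤ n ^ (c₁ + 1) := Nat.pow_le_pow_right hn1 (by omega)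
    calc (inp' (R x)).length + 1 ≤ n + C * T₁ := by omega
      _ ≤ n ^ (c₁ + 1) + C * (f₁ (κ x) * n ^ (c₁ + 1)) :=
          Nat.add_le_add e1 (Nat.mul_le_mul_left _ (Nat.mul_le_mul_left _ e2))
      _ = (1 + C * f₁ (κ x)) * n ^ (c₁ + 1) := by ring
  have b2 : f₂ (κ' (R x)) * ((inp' (R x)).length + 1) ^ c₂ ≤
      F (κ x) * (1 + C * f₁ (κ x)) ^ c₂ * n ^ ((c₁ + 1) * c₂) := by
    calc f₂ (κ' (R x)) * ((inp' (R x)).length + 1) ^ c₂
        ≤ F (κ x) * ((1 + C * f₁ (κ x)) * n ^ (c₁ + 1)) ^ c₂ :=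
          Nat.mul_le_mul (hFle _ _ (hR x)) (Nat.pow_le_pow_left b1 _)
      _ = F (κ x) * (1 + C * f₁ (κ x)) ^ c₂ * n ^ ((c₁ + 1) * c₂) := by
          rw [mul_pow, ← pow_mul]; ring
  set N := n ^ ((c₁ + 1) + (c₁ + 1) * c₂) with hN
  have c1 : n ^ c₁ ≤ N := Nat.pow_le_pow_right hn1 (by omega)
  have c2 : n ^ ((c₁ + 1) * c₂) ≤ N := Nat.pow_le_pow_right hn1 (by omega)
  have c3 : n ^ (c₁ + 1) ≤ N := Nat.pow_le_pow_right hn1 (by omega)
  calc T₁ + f₂ (κ' (R x)) * ((inp' (R x)).length + 1) ^ c₂ + 2 * ((inp' (R x)).length + 1)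
      ≤ f₁ (κ x) * N + F (κ x) * (1 + C * f₁ (κ x)) ^ c₂ * N +
        2 * ((1 + C * f₁ (κ x)) * N) := by
        refine Nat.add_le_add (Nat.add_le_add (Nat.mul_le_mul_left _ c1)
          (b2.trans (Nat.mul_le_mul_left _ c2))) (Nat.mul_le_mul_left _ (b1.trans
          (Nat.mul_le_mul_left _ c3)))
    _ = _ := by ring

theorem FptReduces.trans {P Q S : ParamProblem} (h₁ : FptReduces P Q) (h₂ : FptReduces Q S) :
    FptReduces P S := by
  obtain ⟨R₁, hc₁, hy₁, g₁, hg₁, hp₁⟩ := h₁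
  obtain ⟨R₂, hc₂, hy₂, g₂, hg₂, hp₂⟩ := h₂
  obtain ⟨F, hF, hFle⟩ := computable_sum hg₂ hg₁
  refine ⟨fun x => R₂ (R₁ x), FptComputable.comp R₁ hc₁ hc₂ g₁ hg₁ hp₁,
    fun x => (hy₁ x).trans (hy₂ _), F, hF, fun x => ?_⟩
  exact (hp₂ _).trans (hFle _ _ (hp₁ x))

theorem FptReduces.fpt {P Q : ParamProblem} (h₁ : FptReduces P Q) (h₂ : FPT Q) : FPT P := by
  classical
  obtain ⟨R₁, hc₁, hy₁, g₁, hg₁, hp₁⟩ := h₁
  have := FptComputable.comp R₁ hc₁ h₂ g₁ hg₁ hp₁
  have e : (fun x => [decide (P.Yes x)]) = fun x => [decide (Q.Yes (R₁ x))] := by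
    funext x
    simp only [hy₁ x]
  unfold FPT
  rw [e]
  exact this

end Pool.Agent.H603R2
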