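import Mathlib

/-!
Structured programs on finitely many stacks of bits, their big-step semantics with exact cost,
and their compilation to `Turing.FinTM2` machines.
-/

namespace Pool.Agent.H603R2

open Turing

/-- structured programs on stacks of bits, indexed by `R` -/
inductive Prog (R : Type) : Type
  | nop : Prog R
  | push (k : R) (b : Bool) : Prog R
  | pop (k : R) : Prog R
  | seq (p q : Prog R) : Prog R
  | ifTop (k : R) (p q : Prog R) : Prog R
  | ifEmpty (k : R) (p q : Prog R) : Prog R
  | loop (k : R) (p : Prog R) : Prog R

section

variable {R : Type} [DecidableEq R]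

/-- contents of the stacks -/
abbrev St (R : Type) : Type := R → List Bool

/-- big-step semantics with exact cost -/
inductive Ev : Prog R → St R → St R → ℕ → Prop
  | nop (s : St R) : Ev .nop s s 1
  | push (k : R) (b : Bool) (s : St R) : Ev (.push k b) s (Function.update s k (b :: s k)) 1
  | pop (k : R) (s : St R) : Ev (.pop k) s (Function.update s k (s k).tail) 1
  | seq {p q : Prog R} {s s' s'' : St R} {t t' : ℕ} : Ev p s s' t → Ev q s' s'' t' →
      Ev (.seq p q) s s'' (t + t')
  | topT {k : R} {p q : Prog R} {s s' : St R} {t : ℕ} : (s k).head? = some true →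
      Ev p s s' t → Ev (.ifTop k p q) s s' (t + 1)
  | topF {k : R} {p q : Prog R} {s s' : St R} {t : ℕ} : (s k).head? ≠ some true →
      Ev q s s' t → Ev (.ifTop k p q) s s' (t + 1)
  | empT {k : R} {p q : Prog R} {s s' : St R} {t : ℕ} : s k = [] →
      Ev p s s' t → Ev (.ifEmpty k p q) s s' (t + 1)
  | empF {k : R} {p q : Prog R} {s s' : St R} {t : ℕ} : s k ≠ [] →
      Ev q s s' t → Ev (.ifEmpty k p q) s s' (t + 1)
  | loopN {k : R} {p : Prog R} {s : St R} : s k = [] → Ev (.loop k p) s s 1
  | loopC {k : R} {p : Prog R} {s s' s'' : St R} {t t' : ℕ} : s k ≠ [] → Ev p s s' t →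
      Ev (.loop k p) s' s'' t' → Ev (.loop k p) s s'' (t + t' + 1)

/-- control states of the compiled program -/
def CC : Prog R → Type
  | .nop => Unit
  | .push _ _ => Unit
  | .pop _ => Unit
  | .seq p q => CC p ⊕ CC q
  | .ifTop _ p q => Option (CC p ⊕ CC q)
  | .ifEmpty _ p q => Option (CC p ⊕ CC q)
  | .loop _ p => Option (CC p)

/-- finiteness of the set of control states -/
@[instance_reducible]
def CC.fintype : ∀ c : Prog R, Fintype (CC c)
  | .nop => inferInstanceAs (Fintype Unit)
  | .push _ _ => inferInstanceAs (Fintype Unit)
  | .pop _ => inferInstanceAs (Fintype Unit)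
  | .seq p q =>
      have := CC.fintype p
      have := CC.fintype q
      inferInstanceAs (Fintype (CC p ⊕ CC q))
  | .ifTop _ p q =>
      have := CC.fintype p
      have := CC.fintype q
      inferInstanceAs (Fintype (Option (CC p ⊕ CC q)))
  | .ifEmpty _ p q =>
      have := CC.fintype p
      have := CC.fintype q
      inferInstanceAs (Fintype (Option (CC p ⊕ CC q)))
  | .loop _ p =>
      have := CC.fintype p
      inferInstanceAs (Fintype (Option (CC p)))

/-- first control state -/
def CC.start : (c : Prog R) → CC c
  | .nop => ()
  | .push _ _ => ()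
  | .pop _ => ()
  | .seq p _ => Sum.inl (CC.start p)
  | .ifTop _ _ _ => none
  | .ifEmpty _ _ _ => none
  | .loop _ _ => none

/-- the statements of the machine -/
abbrev MS (R Λ : Type) : Type := TM2.Stmt (fun _ : R => Bool) Λ (Option Bool)

/-- the statements of the compiled program -/
def CC.stmt : (c : Prog R) → {Λ : Type} → (CC c → Λ) → Λ → CC c → MS R Λ
  | .nop, _, _, ex, _ => .goto (fun _ => ex)
  | .push k b, _, _, ex, _ => .push k (fun _ => b) (.goto (fun _ => ex))
  | .pop k, _, _, ex, _ => .pop k (fun v _ => v) (.goto (fun _ => ex))
  | .seq p q, _, em, ex, s =>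
      match s with
      | Sum.inl s => CC.stmt p (fun a => em (Sum.inl a)) (em (Sum.inr (CC.start q))) s
      | Sum.inr s => CC.stmt q (fun a => em (Sum.inr a)) ex s
  | .ifTop k p q, _, em, ex, s =>
      match s with
      | none => .peek k (fun _ o => o) (.branch (fun v => v == some true)
          (.goto (fun _ => em (some (Sum.inl (CC.start p)))))
          (.goto (fun _ => em (some (Sum.inr (CC.start q))))))
      | some (Sum.inl s) => CC.stmt p (fun a => em (some (Sum.inl a))) ex s
      | some (Sum.inr s) => CC.stmt q (fun a => em (some (Sum.inr a))) ex s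
  | .ifEmpty k p q, _, em, ex, s =>
      match s with
      | none => .peek k (fun _ o => o) (.branch (fun v => v.isNone)
          (.goto (fun _ => em (some (Sum.inl (CC.start p)))))
          (.goto (fun _ => em (some (Sum.inr (CC.start q))))))
      | some (Sum.inl s) => CC.stmt p (fun a => em (some (Sum.inl a))) ex s
      | some (Sum.inr s) => CC.stmt q (fun a => em (some (Sum.inr a))) ex s
  | .loop k p, _, em, ex, s =>
      match s with
      | none => .peek k (fun _ o => o) (.branch (fun v => v.isNone)
          (.goto (fun _ => ex))
          (.goto (fun _ => em (some (CC.start p)))))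
      | some s => CC.stmt p (fun a => em (some a)) (em none) s

/-- `t` steps lead from `c` to `c'` -/
def Steps {C : Type} (f : C → Option C) (t : ℕ) (c c' : C) : Prop :=
  (flip bind f)^[t] (some c) = some c'

theorem Steps.add {C : Type} {f : C → Option C} {t t' : ℕ} {c c' c'' : C}
    (h : Steps f t c c') (h' : Steps f t' c' c'') : Steps f (t + t') c c'' := by
  unfold Steps at *
  rw [Nat.add_comm, Function.iterate_add_apply, h, h']

theorem Steps.one {C : Type} {f : C → Option C} {c c' : C}
    (h : f c = some c') : Steps f 1 c c' := h

theorem compile_correct {Λ : Type} (m : Λ → MS R Λ) {c : Prog R} {s s' : St R} {t : ℕ}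
    (h : Ev c s s' t) : ∀ (em : CC c → Λ) (ex : Λ)
    (_ : ∀ a, m (em a) = CC.stmt c em ex a) (v : Option Bool),
    ∃ v', Steps (TM2.step m) t ⟨some (em (CC.start c)), v, s⟩ ⟨some ex, v', s'⟩ := by
  induction h with
  | nop s =>
      intro em ex hem v
      refine ⟨v, Steps.one ?_⟩
      simp only [TM2.step, hem, CC.stmt, TM2.stepAux]
  | push k b s =>
      intro em ex hem v
      refine ⟨v, Steps.one ?_⟩
      simp only [TM2.step, hem, CC.stmt, TM2.stepAux]
  | pop k s =>
      intro em ex hem v
      refine ⟨v, Steps.one ?_⟩
      simp only [TM2.step, hem, CC.stmt, TM2.stepAux]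
  | @seq p q s s' s'' t t' hp hq ihp ihq =>
      intro em ex hem v
      obtain ⟨v1, h1⟩ := ihp (fun a => em (Sum.inl a)) (em (Sum.inr (CC.start q)))
        (fun a => hem (Sum.inl a)) v
      obtain ⟨v2, h2⟩ := ihq (fun a => em (Sum.inr a)) ex (fun a => hem (Sum.inr a)) v1
      exact ⟨v2, h1.add h2⟩
  | @topT k p q s s' t h0 hp ih =>
      intro em ex hem v
      obtain ⟨v1, h1⟩ := ih (fun a => em (some (Sum.inl a))) ex
        (fun a => hem (some (Sum.inl a))) (some true)
      refine ⟨v1, ?_⟩
      rw [add_comm]
      refine Steps.add (Steps.one ?_) h1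
      have hk : m (em none) = .peek k (fun _ o => o) (.branch (fun v => v == some true)
          (.goto (fun _ => em (some (Sum.inl (CC.start p)))))
          (.goto (fun _ => em (some (Sum.inr (CC.start q)))))) := hem none
      change some (TM2.stepAux (m (em none)) v s) = _
      rw [hk]
      simp only [TM2.stepAux, h0]
      rfl
  | @topF k p q s s' t h0 hp ih =>
      intro em ex hem v
      obtain ⟨v1, h1⟩ := ih (fun a => em (some (Sum.inr a))) ex
        (fun a => hem (some (Sum.inr a))) ((s k).head?)
      refine ⟨v1, ?_⟩
      rw [add_comm]
      refine Steps.add (Steps.one ?_) h1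
      have hk : m (em none) = .peek k (fun _ o => o) (.branch (fun v => v == some true)
          (.goto (fun _ => em (some (Sum.inl (CC.start p)))))
          (.goto (fun _ => em (some (Sum.inr (CC.start q)))))) := hem none
      change some (TM2.stepAux (m (em none)) v s) = _
      rw [hk]
      have h0' : ((s k).head? == some true) = false := by
        simpa using h0
      simp only [TM2.stepAux, h0']
      rfl
  | @empT k p q s s' t h0 hp ih =>
      intro em ex hem v
      obtain ⟨v1, h1⟩ := ih (fun a => em (some (Sum.inl a))) ex
        (fun a => hem (some (Sum.inl a))) none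
      refine ⟨v1, ?_⟩
      rw [add_comm]
      refine Steps.add (Steps.one ?_) h1
      have hk : m (em none) = .peek k (fun _ o => o) (.branch (fun v => v.isNone)
          (.goto (fun _ => em (some (Sum.inl (CC.start p)))))
          (.goto (fun _ => em (some (Sum.inr (CC.start q)))))) := hem none
      change some (TM2.stepAux (m (em none)) v s) = _
      rw [hk]
      simp only [TM2.stepAux, h0]
      rfl
  | @empF k p q s s' t h0 hp ih =>
      intro em ex hem v
      obtain ⟨v1, h1⟩ := ih (fun a => em (some (Sum.inr a))) ex
        (fun a => hem (some (Sum.inr a))) ((s k).head?)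
      refine ⟨v1, ?_⟩
      rw [add_comm]
      refine Steps.add (Steps.one ?_) h1
      have hk : m (em none) = .peek k (fun _ o => o) (.branch (fun v => v.isNone)
          (.goto (fun _ => em (some (Sum.inl (CC.start p)))))
          (.goto (fun _ => em (some (Sum.inr (CC.start q)))))) := hem none
      change some (TM2.stepAux (m (em none)) v s) = _
      rw [hk]
      obtain ⟨b, l, hbl⟩ := List.exists_cons_of_ne_nil h0
      simp only [TM2.stepAux, hbl]
      rfl
  | @loopN k p s h0 =>
      intro em ex hem v
      refine ⟨none, Steps.one ?_⟩
      have hk : m (em none) = .peek k (fun _ o => o) (.branch (fun v => v.isNone)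
          (.goto (fun _ => ex))
          (.goto (fun _ => em (some (CC.start p))))) := hem none
      change some (TM2.stepAux (m (em none)) v s) = _
      rw [hk]
      simp only [TM2.stepAux, h0]
      rfl
  | @loopC k p s s' s'' t t' h0 hp hl ihp ihl =>
      intro em ex hem v
      obtain ⟨v1, h1⟩ := ihp (fun a => em (some a)) (em none)
        (fun a => hem (some a)) ((s k).head?)
      obtain ⟨v2, h2⟩ := ihl em ex hem v1
      refine ⟨v2, ?_⟩
      rw [add_comm]
      refine Steps.add (Steps.one ?_) (h1.add h2)
      have hk : m (em none) = .peek k (fun _ o => o) (.branch (fun v => v.isNone)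
          (.goto (fun _ => ex))
          (.goto (fun _ => em (some (CC.start p))))) := hem none
      change some (TM2.stepAux (m (em none)) v s) = _
      rw [hk]
      obtain ⟨b, l, hbl⟩ := List.exists_cons_of_ne_nil h0
      simp only [TM2.stepAux, hbl]
      rfl

/-- the machine of a program -/
def machine [Fintype R] (p : Prog R) (inp out : R) : FinTM2 where
  K := R
  k₀ := inp
  k₁ := out
  Γ := fun _ => Bool
  Λ := Option (CC p)
  main := some (CC.start p)
  ΛFin := have := CC.fintype p; inferInstance
  σ := Option Bool
  initialState := none
  m := fun l => match l with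
    | none => .load (fun _ => none) .halt
    | some a => CC.stmt p some none a

/-- input state -/
def inState (inp : R) (x : List Bool) : St R := fun k => if k = inp then x else []

/-- A program that turns the input state for `x` into the state with `y` on the output stack and
nothing elsewhere yields a computation of the machine. -/
theorem machine_outputs [Fintype R] (p : Prog R) (inp out : R) (x y : List Bool) (t T : ℕ)
    (h : Ev p (inState inp x) (inState out y) t) (hT : t + 1 ≤ T) :
    Nonempty (TM2OutputsInTime (machine p inp out) x (some y) T) := by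
  obtain ⟨v, hv⟩ := compile_correct (machine p inp out).m h some none (fun a => rfl) none
  refine ⟨⟨⟨t + 1, ?_⟩, hT⟩⟩
  have h2 : Steps (TM2.step (machine p inp out).m) 1 ⟨some none, v, inState out y⟩
      ⟨none, none, inState out y⟩ := by
    refine Steps.one ?_
    rfl
  have h3 := hv.add h2
  have e1 : initList (machine p inp out) x = ⟨some (some (CC.start p)), none, inState inp x⟩ := by
    unfold initList
    congr 1
  have e2 : haltList (machine p inp out) y = ⟨none, none, inState out y⟩ := by
    unfold haltList
    congr 1
  have e3 : (some (haltList (machine p inp out) y) : Option (machine p inp out).Cfg) =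
    some ⟨none, none, inState out y⟩ := congrArg some e2
  have e4 : (some (initList (machine p inp out) x) : Option (machine p inp out).Cfg) =
    some ⟨some (some (CC.start p)), none, inState inp x⟩ := congrArg some e1
  have e5 : (flip bind (machine p inp out).step)^[t + 1]
      (some (initList (machine p inp out) x)) =
      (some ⟨none, none, inState out y⟩ : Option (machine p inp out).Cfg) := by
    rw [e4]
    exact h3
  exact e5.trans e3.symm

end

end Pool.Agent.H603R2
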