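import Pool.Agent.H603R2.ClawRed
import Pool.Agent.H603R2.Fpt

/-!
fpt-reductions given by programs of nested loops.
-/

namespace Pool.Agent.H603R2

open Turing

/-- the machine of a program, with its alphabets identified with `Bool` -/
def auxMachine {R : Type} [DecidableEq R] [Fintype R] (p : Prog R) (i o : R) :
    TM2ComputableAux Bool Bool where
  tm := machine p i o
  inputAlphabet := Equiv.refl Bool
  outputAlphabet := Equiv.refl Bool

theorem machine_aux {R : Type} [DecidableEq R] [Fintype R] (p : Prog R) (i o : R)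
    (x y : List Bool) (T : ℕ) (h : Nonempty (TM2OutputsInTime (machine p i o) x (some y) T)) :
    Nonempty (TM2OutputsInTime (auxMachine p i o).tm
      (x.map (auxMachine p i o).inputAlphabet.invFun)
      (some (y.map (auxMachine p i o).outputAlphabet.invFun)) T) := by
  have e1 : x.map (auxMachine p i o).inputAlphabet.invFun = x := List.map_id x
  have e2 : y.map (auxMachine p i o).outputAlphabet.invFun = y := List.map_id y
  exact Eq.mpr (congrArg₂ (fun a b => Nonempty (TM2OutputsInTime (machine p i o) a (some b) T))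
    e1 e2) h

/-- A program of nested loops that prints the code of `R x` gives an fpt-reduction. -/
theorem em_fptReduces {m : ℕ} (e : Em (m + 2)) (hwf : e.wf [1, 0] = true)
    {Y Y' : ∀ n : ℕ, SimpleGraph (Fin n) → ℕ → Prop} (R : GraphInst → GraphInst)
    (hout : ∀ x : GraphInst, e.out (adjBits x.G) (rho0 x.k x.n) =
      inStr (R x).k (R x).n (adjBits (R x).G))
    (hY : ∀ x : GraphInst, Y x.n x.G x.k ↔ Y' (R x).n (R x).G (R x).k)
    (g : ℕ → ℕ) (hg : Computable g) (hk : ∀ x : GraphInst, (R x).k ≤ g x.k) :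
    FptReduces (graphProblem Y) (graphProblem Y') := by
  obtain ⟨c, hc⟩ := e.main_ex hwf
  have key : ∀ x : GraphInst, Nonempty (TM2OutputsInTime (machine e.main Rg.inp Rg.out)
      (inStr x.k x.n (adjBits x.G)) (some (inStr (R x).k (R x).n (adjBits (R x).G)))
      ((2 ^ c + 1) * ((inStr x.k x.n (adjBits x.G)).length + 1) ^ c)) := by
    intro x
    obtain ⟨t, ht, hev⟩ := hc x.k x.n (adjBits x.G)
    rw [hout] at hev
    refine machine_outputs e.main Rg.inp Rg.out _ _ t _ hev ?_
    generalize (inStr x.k x.n (adjBits x.G)).length = L at ht ⊢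
    have h1 : (L + 2) ^ c ≤ (2 * (L + 1)) ^ c := Nat.pow_le_pow_left (by omega) c
    have h2 : (2 * (L + 1)) ^ c = 2 ^ c * (L + 1) ^ c := mul_pow _ _ _
    have h3 : 1 ≤ (L + 1) ^ c := Nat.one_le_pow _ _ (by omega)
    have h4 : (2 ^ c + 1) * (L + 1) ^ c = 2 ^ c * (L + 1) ^ c + (L + 1) ^ c := by ring
    omega
  refine ⟨R, ⟨auxMachine e.main Rg.inp Rg.out,
    fun _ => 2 ^ c + 1, c, Computable.const _, fun x => ?_⟩, hY, g, hg, hk⟩
  exact machine_aux e.main Rg.inp Rg.out _ _ _ (key x)

end Pool.Agent.H603R2
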